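import Mathlib
import Pool.Agent.H.MP_59b15d_al.h76m.Defs

set_option autoImplicit false

namespace Pool.MP_59b15d_al.H76R

variable {g : ℕ} {G : Type*} [Group G]

/-- `T` is the twist `A i`: it maps `b i` to `b i * a i` and fixes the other generators. -/
def IsA (a b : Fin g → G) (i : Fin g) (T : MulAut G) : Prop :=
  T (b i) = b i * a i ∧ (∀ k, T (a k) = a k) ∧ ∀ k, k ≠ i → T (b k) = b k

/-- `T` is the twist `B i`: it maps `a i` to `a i * b i` and fixes the other generators. -/
def IsB (a b : Fin g → G) (i : Fin g) (T : MulAut G) : Prop :=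
  T (a i) = a i * b i ∧ (∀ k, T (b k) = b k) ∧ ∀ k, k ≠ i → T (a k) = a k

/-- `T` is the twist joining the handles `i` and `j` along the curve `u = (a j)⁻¹ * b i`. -/
def IsC (a b : Fin g → G) (i j : Fin g) (T : MulAut G) : Prop :=
  ∃ u : G, u = (a j)⁻¹ * b i ∧
    T (a i) = a i * u ∧ T (b i) = u⁻¹ * a j * u * u ∧
    T (a j) = u⁻¹ * a j * u ∧ T (b j) = b j * u ∧
    ∀ k, k ≠ i → k ≠ j → T (a k) = a k ∧ T (b k) = b k

/-- The twists `A i`, `B i`, and those joining the handles `j - 1` and `j`, for indices
satisfying `P`, `Q` and `R`, respectively. -/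
def Twists (a b : Fin g → G) (P Q R : ℕ → Prop) : Set (MulAut G) :=
  {T | (∃ i : Fin g, P i ∧ IsA a b i T) ∨ (∃ i : Fin g, Q i ∧ IsB a b i T) ∨
    ∃ i j : Fin g, (j : ℕ) = i + 1 ∧ R j ∧ IsC a b i j T}

/-- The mapping class group: generated by the inner automorphisms and all twists. -/
def MCG (a b : Fin g → G) : Subgroup (MulAut G) :=
  Subgroup.closure (Set.range (MulAut.conj : G → MulAut G) ∪
    Twists a b (fun _ => True) (fun _ => True) (fun _ => True))

/-- The stabiliser of the curve `a` of the last handle: all twists but the last `B`. -/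
def StabA (a b : Fin g → G) : Subgroup (MulAut G) :=
  Subgroup.closure (Set.range (MulAut.conj : G → MulAut G) ∪
    Twists a b (fun _ => True) (fun i => i + 1 < g) (fun _ => True))

/-- The stabiliser of the curve separating the handles `0, …, m - 1` from the others: all twists
but the one joining the handles `m - 1` and `m`. -/
def StabC (a b : Fin g → G) (m : ℕ) : Subgroup (MulAut G) :=
  Subgroup.closure (Set.range (MulAut.conj : G → MulAut G) ∪
    Twists a b (fun _ => True) (fun _ => True) (fun j => j ≠ m))

/-- The mapping class group of the subsurface formed by the first `m` handles. -/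
def SubMod (a b : Fin g → G) (m : ℕ) : Subgroup (MulAut G) :=
  Subgroup.closure (Twists a b (fun i => i < m) (fun i => i < m) (fun j => j < m))

/-- The homomorphism to `G` from the free fundamental group of that subsurface. -/
def subHom (a b : Fin g → G) (m : ℕ) (hm : m ≤ g) : FreeGroup (Fin m ⊕ Fin m) →* G :=
  FreeGroup.lift (Sum.elim (fun k => a (Fin.castLE hm k)) (fun k => b (Fin.castLE hm k)))

end Pool.MP_59b15d_al.H76R
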