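import Mathlib
import Pool.Agent.H.MP_59b15d_al.h24t.Surf

set_option autoImplicit false

namespace Pool.MP_59b15d_al.H76R

open Pool.MP_59b15d_al.H24T

section tools

variable {G : Type*} [Group G]

theorem relWord_zero {P : Type*} [Group P] (x y : Fin 0 → P) : relWord x y = 1 := by
  simp [relWord]

theorem relWord_last {P : Type*} [Group P] {m : ℕ} (x y : Fin (m + 1) → P) :
    relWord x y = relWord (fun i : Fin m => x i.castSucc) (fun i : Fin m => y i.castSucc) *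
      (x (Fin.last m) * y (Fin.last m) * (x (Fin.last m))⁻¹ * (y (Fin.last m))⁻¹) := by
  unfold relWord
  rw [List.ofFn_succ', List.concat_eq_append, List.prod_append, List.prod_singleton]

/-- Telescoping. -/
theorem relWord_tele {P : Type*} [Group P] {m : ℕ} (x y s t : Fin m → P) (e : ℕ → P)
    (he : ∀ i : Fin m, s i * t i * (s i)⁻¹ * (t i)⁻¹ =
      e i * (x i * y i * (x i)⁻¹ * (y i)⁻¹) * (e (i + 1))⁻¹) :
    relWord s t = e 0 * relWord x y * (e m)⁻¹ := by
  induction m with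
  | zero => rw [relWord_zero, relWord_zero]; simp
  | succ m ih =>
    rw [relWord_last s t, relWord_last x y, ih _ _ _ _ (fun i => he i.castSucc), he (Fin.last m)]
    simp only [Fin.val_last]
    group

theorem aut_ext {m : ℕ} {a b : Fin m → G} (h : IsSurf a b) {F F' : MulAut G}
    (ha : ∀ i, F (a i) = F' (a i)) (hb : ∀ i, F (b i) = F' (b i)) : F = F' := by
  have h1 : F.toMonoidHom = F'.toMonoidHom := by
    refine MonoidHom.eq_of_eqOn_dense h.closure_eq ?_
    rintro _ (⟨i, rfl⟩ | ⟨i, rfl⟩)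
    · exact ha i
    · exact hb i
  exact MulEquiv.toMonoidHom_injective h1

theorem hom_ext {m : ℕ} {a b : Fin m → G} (h : IsSurf a b) {T : Type*} [Group T] {F F' : G →* T}
    (ha : ∀ i, F (a i) = F' (a i)) (hb : ∀ i, F (b i) = F' (b i)) : F = F' := by
  refine MonoidHom.eq_of_eqOn_dense h.closure_eq ?_
  rintro _ (⟨i, rfl⟩ | ⟨i, rfl⟩)
  · exact ha i
  · exact hb i

/-- Construction of automorphisms of surface groups. -/
theorem exists_aut {m : ℕ} {a b : Fin m → G} (h : IsSurf a b) (s t s' t' : Fin m → G)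
    (e e' : ℕ → G) (he0 : e 0 = 1) (hem : e m = 1)
    (he : ∀ i : Fin m, s i * t i * (s i)⁻¹ * (t i)⁻¹ =
      e i * (a i * b i * (a i)⁻¹ * (b i)⁻¹) * (e (i + 1))⁻¹)
    (he0' : e' 0 = 1) (hem' : e' m = 1)
    (he' : ∀ i : Fin m, s' i * t' i * (s' i)⁻¹ * (t' i)⁻¹ =
      e' i * (a i * b i * (a i)⁻¹ * (b i)⁻¹) * (e' (i + 1))⁻¹)
    (hinv : ∀ φ : G →* G, (∀ i, φ (a i) = s i) → (∀ i, φ (b i) = t i) →
      ∀ i, φ (s' i) = a i ∧ φ (t' i) = b i)
    (hinv' : ∀ φ : G →* G, (∀ i, φ (a i) = s' i) → (∀ i, φ (b i) = t' i) →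
      ∀ i, φ (s i) = a i ∧ φ (t i) = b i) :
    ∃ X : MulAut G, (∀ i, X (a i) = s i) ∧ (∀ i, X (b i) = t i) ∧
      (∀ i, X⁻¹ (a i) = s' i) ∧ ∀ i, X⁻¹ (b i) = t' i := by
  obtain ⟨φ, h1, h2⟩ := h.lift s t (by
    rw [relWord_tele a b s t e he, he0, hem, h.relWord_eq]; simp)
  obtain ⟨φ', h1', h2'⟩ := h.lift s' t' (by
    rw [relWord_tele a b s' t' e' he', he0', hem', h.relWord_eq]; simp)
  have k1 : φ'.comp φ = MonoidHom.id G := by
    apply hom_ext h
    · intro i
      rw [MonoidHom.comp_apply, h1, (hinv' φ' h1' h2' i).1, MonoidHom.id_apply]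
    · intro i
      rw [MonoidHom.comp_apply, h2, (hinv' φ' h1' h2' i).2, MonoidHom.id_apply]
  have k2 : φ.comp φ' = MonoidHom.id G := by
    apply hom_ext h
    · intro i
      rw [MonoidHom.comp_apply, h1', (hinv φ h1 h2 i).1, MonoidHom.id_apply]
    · intro i
      rw [MonoidHom.comp_apply, h2', (hinv φ h1 h2 i).2, MonoidHom.id_apply]
  exact ⟨MonoidHom.toMulEquiv φ φ' k1 k2, h1, h2, h1', h2'⟩

end tools

end Pool.MP_59b15d_al.H76R
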