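import Mathlib
import Pool.Agent.H.MP_59b15d_al.h76r.Ra

set_option autoImplicit false

namespace Pool.MP_59b15d_al.H76R

open Pool.MP_59b15d_al.H24T

section twists

variable {G : Type*} [Group G] {m : ℕ} {a b : Fin m → G}

theorem exists_TA (h : IsSurf a b) (i : Fin m) :
    ∃ X : MulAut G, (∀ k, X (a k) = a k) ∧ (∀ k, X (b k) = if k = i then b k * a k else b k) ∧
      (∀ k, X⁻¹ (a k) = a k) ∧ ∀ k, X⁻¹ (b k) = if k = i then b k * (a k)⁻¹ else b k := by
  refine exists_aut h a (fun k => if k = i then b k * a k else b k) a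
    (fun k => if k = i then b k * (a k)⁻¹ else b k) (fun _ => 1) (fun _ => 1) rfl rfl ?_ rfl rfl
    ?_ ?_ ?_
  · intro k
    by_cases hk : k = i
    · simp only [hk, if_true]; group
    · simp only [if_neg hk]; group
  · intro k
    by_cases hk : k = i
    · simp only [hk, if_true]; group
    · simp only [if_neg hk]; group
  · intro φ h1 h2 k
    refine ⟨h1 k, ?_⟩
    by_cases hk : k = i
    · simp only [hk, if_true, map_mul, map_inv, h1, h2]; group
    · simp only [if_neg hk, h2]
  · intro φ h1 h2 k
    refine ⟨h1 k, ?_⟩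
    by_cases hk : k = i
    · simp only [hk, if_true, map_mul, h1, h2]; group
    · simp only [if_neg hk, h2]

theorem exists_TB (h : IsSurf a b) (i : Fin m) :
    ∃ X : MulAut G, (∀ k, X (a k) = if k = i then a k * b k else a k) ∧ (∀ k, X (b k) = b k) ∧
      (∀ k, X⁻¹ (a k) = if k = i then a k * (b k)⁻¹ else a k) ∧ ∀ k, X⁻¹ (b k) = b k := by
  refine exists_aut h (fun k => if k = i then a k * b k else a k) b
    (fun k => if k = i then a k * (b k)⁻¹ else a k) b (fun _ => 1) (fun _ => 1) rfl rfl ?_ rfl rfl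
    ?_ ?_ ?_
  · intro k
    by_cases hk : k = i
    · simp only [hk, if_true]; group
    · simp only [if_neg hk]; group
  · intro k
    by_cases hk : k = i
    · simp only [hk, if_true]; group
    · simp only [if_neg hk]; group
  · intro φ h1 h2 k
    refine ⟨?_, h2 k⟩
    by_cases hk : k = i
    · simp only [hk, if_true, map_mul, map_inv, h1, h2]; group
    · simp only [if_neg hk, h1]
  · intro φ h1 h2 k
    refine ⟨?_, h2 k⟩
    by_cases hk : k = i
    · simp only [hk, if_true, map_mul, h1, h2]; group
    · simp only [if_neg hk, h1]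

/-- The twist about a curve joining the handles `i` and `j`. -/
theorem exists_TC (h : IsSurf a b) (i j : Fin m) (hij : (j : ℕ) = i + 1) :
    ∃ X : MulAut G,
      (∀ k, X (a k) = if k = i then a i * ((a j)⁻¹ * b i) else
        if k = j then ((a j)⁻¹ * b i)⁻¹ * a j * ((a j)⁻¹ * b i) else a k) ∧
      (∀ k, X (b k) = if k = i then ((a j)⁻¹ * b i)⁻¹ * a j * ((a j)⁻¹ * b i) * ((a j)⁻¹ * b i) else
        if k = j then b j * ((a j)⁻¹ * b i) else b k) ∧
      (∀ k, X⁻¹ (a k) = if k = i then a i * ((a j)⁻¹ * b i)⁻¹ else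
        if k = j then ((a j)⁻¹ * b i) * a j * ((a j)⁻¹ * b i)⁻¹ else a k) ∧
      (∀ k, X⁻¹ (b k) = if k = i then ((a j)⁻¹ * b i) * a j else
        if k = j then b j * ((a j)⁻¹ * b i)⁻¹ else b k) := by
  have hji : j ≠ i := by
    intro h1
    rw [h1] at hij
    omega
  let u : G := (a j)⁻¹ * b i
  let s : Fin m → G := fun k => if k = i then a i * ((a j)⁻¹ * b i) else
        if k = j then ((a j)⁻¹ * b i)⁻¹ * a j * ((a j)⁻¹ * b i) else a k
  let t : Fin m → G := fun k => if k = i then
        ((a j)⁻¹ * b i)⁻¹ * a j * ((a j)⁻¹ * b i) * ((a j)⁻¹ * b i) else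
        if k = j then b j * ((a j)⁻¹ * b i) else b k
  let s' : Fin m → G := fun k => if k = i then a i * ((a j)⁻¹ * b i)⁻¹ else
        if k = j then ((a j)⁻¹ * b i) * a j * ((a j)⁻¹ * b i)⁻¹ else a k
  let t' : Fin m → G := fun k => if k = i then ((a j)⁻¹ * b i) * a j else
        if k = j then b j * ((a j)⁻¹ * b i)⁻¹ else b k
  have si : s i = a i * ((a j)⁻¹ * b i) := by simp [s]
  have sj : s j = ((a j)⁻¹ * b i)⁻¹ * a j * ((a j)⁻¹ * b i) := by simp only [s, if_neg hji, if_true]
  have ti : t i = ((a j)⁻¹ * b i)⁻¹ * a j * ((a j)⁻¹ * b i) * ((a j)⁻¹ * b i) := by simp [t]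
  have tj : t j = b j * ((a j)⁻¹ * b i) := by simp only [t, if_neg hji, if_true]
  have si' : s' i = a i * ((a j)⁻¹ * b i)⁻¹ := by simp only [s', if_true]
  have sj' : s' j = ((a j)⁻¹ * b i) * a j * ((a j)⁻¹ * b i)⁻¹ := by
    simp only [s', if_neg hji, if_true]
  have ti' : t' i = ((a j)⁻¹ * b i) * a j := by simp only [t', if_true]
  have tj' : t' j = b j * ((a j)⁻¹ * b i)⁻¹ := by simp only [t', if_neg hji, if_true]
  let e : ℕ → G := fun k => if k = i + 1 then (s i * t i * (s i)⁻¹ * (t i)⁻¹)⁻¹ *
    (a i * b i * (a i)⁻¹ * (b i)⁻¹) else 1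
  let e' : ℕ → G := fun k => if k = i + 1 then (s' i * t' i * (s' i)⁻¹ * (t' i)⁻¹)⁻¹ *
    (a i * b i * (a i)⁻¹ * (b i)⁻¹) else 1
  have hjm : (j : ℕ) < m := j.2
  refine exists_aut h s t s' t' e e' ?_ ?_ ?_ ?_ ?_ ?_ ?_ ?_
  · simp only [e]; rw [if_neg (by omega)]
  · simp only [e]; rw [if_neg (by omega)]
  · intro k
    by_cases hk : k = i
    · subst hk
      simp only [e, if_true]
      rw [if_neg (by omega)]
      group
    · by_cases hk2 : k = j
      · subst hk2
        simp only [e]
        rw [if_pos hij, if_neg (by omega), sj, tj, si, ti]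
        group
      · have h1 : (k : ℕ) ≠ i := fun h => hk (Fin.ext h)
        have h2 : (k : ℕ) ≠ j := fun h => hk2 (Fin.ext h)
        simp only [e, s, t, if_neg hk, if_neg hk2]
        rw [if_neg (by omega), if_neg (by omega)]
        group
  · simp only [e']; rw [if_neg (by omega)]
  · simp only [e']; rw [if_neg (by omega)]
  · intro k
    by_cases hk : k = i
    · subst hk
      simp only [e', if_true]
      rw [if_neg (by omega)]
      group
    · by_cases hk2 : k = j
      · subst hk2
        simp only [e']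
        rw [if_pos hij, if_neg (by omega), sj', tj', si', ti']
        group
      · have h1 : (k : ℕ) ≠ i := fun h => hk (Fin.ext h)
        have h2 : (k : ℕ) ≠ j := fun h => hk2 (Fin.ext h)
        simp only [e', s', t', if_neg hk, if_neg hk2]
        rw [if_neg (by omega), if_neg (by omega)]
        group
  · intro φ h1 h2 k
    by_cases hk : k = i
    · subst hk
      rw [si', ti']
      simp only [map_mul, map_inv, h1, h2, si, sj, ti]
      constructor <;> group
    · by_cases hk2 : k = j
      · subst hk2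
        rw [sj', tj']
        simp only [map_mul, map_inv, h1, h2, sj, ti, tj]
        constructor <;> group
      · simp only [s', t', if_neg hk, if_neg hk2, h1, h2, s, t]
        exact ⟨trivial, trivial⟩
  · intro φ h1 h2 k
    by_cases hk : k = i
    · subst hk
      rw [si, ti]
      simp only [map_mul, map_inv, h1, h2, si', sj', ti']
      constructor <;> group
    · by_cases hk2 : k = j
      · subst hk2
        rw [sj, tj]
        simp only [map_mul, map_inv, h1, h2, sj', ti', tj']
        constructor <;> group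
      · simp only [s, t, if_neg hk, if_neg hk2, h1, h2, s', t']
        exact ⟨trivial, trivial⟩

/-- The twist about `a i`. -/
noncomputable def TA (h : IsSurf a b) (i : Fin m) : MulAut G := (exists_TA h i).choose

/-- The twist about `b i`. -/
noncomputable def TB (h : IsSurf a b) (i : Fin m) : MulAut G := (exists_TB h i).choose

/-- The twist joining two consecutive handles. -/
noncomputable def TC (h : IsSurf a b) (i j : Fin m) (hij : (j : ℕ) = i + 1) : MulAut G :=
  (exists_TC h i j hij).choose

section values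

variable (h : IsSurf a b)

theorem TA_a (i k : Fin m) : TA h i (a k) = a k := (exists_TA h i).choose_spec.1 k
theorem TA_b (i : Fin m) : TA h i (b i) = b i * a i := by
  have := (exists_TA h i).choose_spec.2.1 i
  rwa [if_pos rfl] at this
theorem TA_b_ne {i k : Fin m} (hk : k ≠ i) : TA h i (b k) = b k := by
  have := (exists_TA h i).choose_spec.2.1 k
  rwa [if_neg hk] at this

theorem TB_b (i k : Fin m) : TB h i (b k) = b k := (exists_TB h i).choose_spec.2.1 k
theorem TB_a (i : Fin m) : TB h i (a i) = a i * b i := by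
  have := (exists_TB h i).choose_spec.1 i
  rwa [if_pos rfl] at this
theorem TB_a_ne {i k : Fin m} (hk : k ≠ i) : TB h i (a k) = a k := by
  have := (exists_TB h i).choose_spec.1 k
  rwa [if_neg hk] at this

theorem TC_ai (i j : Fin m) (hij : (j : ℕ) = i + 1) :
    TC h i j hij (a i) = a i * ((a j)⁻¹ * b i) := by
  have := (exists_TC h i j hij).choose_spec.1 i
  rwa [if_pos rfl] at this
theorem TC_aj (i j : Fin m) (hij : (j : ℕ) = i + 1) :
    TC h i j hij (a j) = ((a j)⁻¹ * b i)⁻¹ * a j * ((a j)⁻¹ * b i) := by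
  have := (exists_TC h i j hij).choose_spec.1 j
  rwa [if_neg (by intro h1; rw [h1] at hij; omega), if_pos rfl] at this
theorem TC_bi (i j : Fin m) (hij : (j : ℕ) = i + 1) :
    TC h i j hij (b i) = ((a j)⁻¹ * b i)⁻¹ * a j * ((a j)⁻¹ * b i) * ((a j)⁻¹ * b i) := by
  have := (exists_TC h i j hij).choose_spec.2.1 i
  rwa [if_pos rfl] at this
theorem TC_bj (i j : Fin m) (hij : (j : ℕ) = i + 1) :
    TC h i j hij (b j) = b j * ((a j)⁻¹ * b i) := by
  have := (exists_TC h i j hij).choose_spec.2.1 j
  rwa [if_neg (by intro h1; rw [h1] at hij; omega), if_pos rfl] at this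
theorem TC_a_ne {i j : Fin m} (hij : (j : ℕ) = i + 1) {k : Fin m} (h1 : k ≠ i) (h2 : k ≠ j) :
    TC h i j hij (a k) = a k := by
  have := (exists_TC h i j hij).choose_spec.1 k
  rwa [if_neg h1, if_neg h2] at this
theorem TC_b_ne {i j : Fin m} (hij : (j : ℕ) = i + 1) {k : Fin m} (h1 : k ≠ i) (h2 : k ≠ j) :
    TC h i j hij (b k) = b k := by
  have := (exists_TC h i j hij).choose_spec.2.1 k
  rwa [if_neg h1, if_neg h2] at this

end values

end twists

end Pool.MP_59b15d_al.H76R
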