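import Mathlib
import Pool.Agent.H.MP_59b15d_al.h76r.Ra

set_option autoImplicit false

namespace Pool.MP_59b15d_al.H76R

open Pool.MP_59b15d_al.H24T

section pushes

variable {G : Type*} [Group G] {n : ℕ} {a b : Fin (n + 1) → G}

/-- A function on the handles: `x` before `j`, `y` at `j`, `z` after `j` and `w` at the last
handle. -/
def seg (j : Fin n) (x : Fin (n + 1) → G) (y : G) (z : Fin (n + 1) → G) (w : G) :
    Fin (n + 1) → G :=
  fun k => if k = Fin.last n then w else if k < j.castSucc then x k else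
    if k = j.castSucc then y else z k

omit [Group G] in
theorem seg_last (j : Fin n) (x : Fin (n + 1) → G) (y : G) (z : Fin (n + 1) → G) (w : G) :
    seg j x y z w (Fin.last n) = w := by
  simp [seg]

omit [Group G] in
theorem seg_self (j : Fin n) (x : Fin (n + 1) → G) (y : G) (z : Fin (n + 1) → G) (w : G) :
    seg j x y z w j.castSucc = y := by
  have h1 : j.castSucc ≠ Fin.last n := (Fin.castSucc_lt_last j).ne
  simp [seg, h1]

omit [Group G] in
theorem seg_lt (j : Fin n) (x : Fin (n + 1) → G) (y : G) (z : Fin (n + 1) → G) (w : G)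
    {k : Fin (n + 1)} (hk : k < j.castSucc) : seg j x y z w k = x k := by
  have h1 : k ≠ Fin.last n := (hk.trans (Fin.castSucc_lt_last j)).ne
  simp [seg, h1, hk]

omit [Group G] in
theorem seg_gt (j : Fin n) (x : Fin (n + 1) → G) (y : G) (z : Fin (n + 1) → G) (w : G)
    {k : Fin (n + 1)} (hk : j.castSucc < k) (hk2 : k < Fin.last n) : seg j x y z w k = z k := by
  have h1 : k ≠ Fin.last n := hk2.ne
  have h2 : k ≠ j.castSucc := hk.ne'
  simp [seg, h1, h2, not_lt.mpr hk.le]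

theorem seg_cases (j : Fin n) (k : Fin (n + 1)) :
    k < j.castSucc ∨ k = j.castSucc ∨ (j.castSucc < k ∧ k < Fin.last n) ∨ k = Fin.last n := by
  rcases lt_trichotomy k j.castSucc with h | h | h
  · exact Or.inl h
  · exact Or.inr (Or.inl h)
  · rcases lt_or_eq_of_le (Fin.le_last k) with h2 | h2
    · exact Or.inr (Or.inr (Or.inl ⟨h, h2⟩))
    · exact Or.inr (Or.inr (Or.inr h2))

/-- The general form of the pushes. -/
theorem exists_push (h : IsSurf a b) (j : Fin n) (ka p q A B ka' p' q' A' B' : G)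
    (hc : p * q * p⁻¹ * q⁻¹ * ka = a j.castSucc * b j.castSucc * (a j.castSucc)⁻¹ * (b j.castSucc)⁻¹)
    (hl : A * B * A⁻¹ * B⁻¹ = ka * (a (Fin.last n) * b (Fin.last n) * (a (Fin.last n))⁻¹ *
      (b (Fin.last n))⁻¹))
    (hc' : p' * q' * p'⁻¹ * q'⁻¹ * ka' =
      a j.castSucc * b j.castSucc * (a j.castSucc)⁻¹ * (b j.castSucc)⁻¹)
    (hl' : A' * B' * A'⁻¹ * B'⁻¹ = ka' * (a (Fin.last n) * b (Fin.last n) * (a (Fin.last n))⁻¹ *
      (b (Fin.last n))⁻¹))
    (hinv : ∀ φ : G →* G, φ (a j.castSucc) = p → φ (b j.castSucc) = q → φ (a (Fin.last n)) = A →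
      φ (b (Fin.last n)) = B → φ p' = a j.castSucc ∧ φ q' = b j.castSucc ∧
      φ A' = a (Fin.last n) ∧ φ B' = b (Fin.last n) ∧ φ ka' * ka = 1)
    (hinv' : ∀ φ : G →* G, φ (a j.castSucc) = p' → φ (b j.castSucc) = q' → φ (a (Fin.last n)) = A' →
      φ (b (Fin.last n)) = B' → φ p = a j.castSucc ∧ φ q = b j.castSucc ∧
      φ A = a (Fin.last n) ∧ φ B = b (Fin.last n) ∧ φ ka * ka' = 1) :
    ∃ X : MulAut G,
      (∀ k, X (a k) = seg j a p (fun k => ka * a k * ka⁻¹) A k) ∧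
      (∀ k, X (b k) = seg j b q (fun k => ka * b k * ka⁻¹) B k) ∧
      (∀ k, X⁻¹ (a k) = seg j a p' (fun k => ka' * a k * ka'⁻¹) A' k) ∧
      (∀ k, X⁻¹ (b k) = seg j b q' (fun k => ka' * b k * ka'⁻¹) B' k) := by
  have main : ∀ (ka p q A B : G)
      (hc : p * q * p⁻¹ * q⁻¹ * ka =
        a j.castSucc * b j.castSucc * (a j.castSucc)⁻¹ * (b j.castSucc)⁻¹)
      (hl : A * B * A⁻¹ * B⁻¹ = ka * (a (Fin.last n) * b (Fin.last n) * (a (Fin.last n))⁻¹ *
        (b (Fin.last n))⁻¹)) (k : Fin (n + 1)),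
      seg j a p (fun k => ka * a k * ka⁻¹) A k * seg j b q (fun k => ka * b k * ka⁻¹) B k *
        (seg j a p (fun k => ka * a k * ka⁻¹) A k)⁻¹ *
        (seg j b q (fun k => ka * b k * ka⁻¹) B k)⁻¹ =
      (fun i : ℕ => if i ≤ j then 1 else if i ≤ n then ka else 1) k *
        (a k * b k * (a k)⁻¹ * (b k)⁻¹) *
        ((fun i : ℕ => if i ≤ j then 1 else if i ≤ n then ka else 1) (k + 1))⁻¹ := by
    intro ka p q A B hc hl k
    have hjn : (j : ℕ) < n := j.2
    rcases seg_cases j k with hk | hk | ⟨hk, hk2⟩ | hk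
    · have h1 : (k : ℕ) < j := hk
      rw [seg_lt _ _ _ _ _ hk, seg_lt _ _ _ _ _ hk]
      simp only
      rw [if_pos (by omega), if_pos (by omega)]
      group
    · subst hk
      rw [seg_self, seg_self]
      simp only [Fin.val_castSucc]
      rw [if_pos le_rfl, if_neg (by omega), if_pos (by omega), ← hc]
      group
    · have h1 : (j : ℕ) < k := hk
      have h2 : (k : ℕ) < n := hk2
      rw [seg_gt _ _ _ _ _ hk hk2, seg_gt _ _ _ _ _ hk hk2]
      simp only
      rw [if_neg (by omega), if_pos (by omega), if_neg (by omega), if_pos (by omega)]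
      group
    · subst hk
      rw [seg_last, seg_last]
      simp only [Fin.val_last]
      rw [if_neg (by omega), if_pos (by omega), if_neg (by omega), if_neg (by omega), hl]
      group
  have main2 : ∀ (ka p q A B ka' p' q' A' B' : G)
      (hinv : ∀ φ : G →* G, φ (a j.castSucc) = p → φ (b j.castSucc) = q → φ (a (Fin.last n)) = A →
        φ (b (Fin.last n)) = B → φ p' = a j.castSucc ∧ φ q' = b j.castSucc ∧
        φ A' = a (Fin.last n) ∧ φ B' = b (Fin.last n) ∧ φ ka' * ka = 1) (φ : G →* G)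
      (h1 : ∀ i, φ (a i) = seg j a p (fun k => ka * a k * ka⁻¹) A i)
      (h2 : ∀ i, φ (b i) = seg j b q (fun k => ka * b k * ka⁻¹) B i) (k : Fin (n + 1)),
      φ (seg j a p' (fun k => ka' * a k * ka'⁻¹) A' k) = a k ∧
      φ (seg j b q' (fun k => ka' * b k * ka'⁻¹) B' k) = b k := by
    intro ka p q A B ka' p' q' A' B' hinv φ h1 h2 k
    obtain ⟨k1, k2, k3, k4, k5⟩ := hinv φ (by rw [h1, seg_self]) (by rw [h2, seg_self])
      (by rw [h1, seg_last]) (by rw [h2, seg_last])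
    have k6 : φ ka' = ka⁻¹ := eq_inv_of_mul_eq_one_left k5
    rcases seg_cases j k with hk | hk | ⟨hk, hk2⟩ | hk
    · rw [seg_lt _ _ _ _ _ hk, seg_lt _ _ _ _ _ hk, h1, h2, seg_lt _ _ _ _ _ hk,
        seg_lt _ _ _ _ _ hk]
      exact ⟨rfl, rfl⟩
    · subst hk
      rw [seg_self, seg_self]
      exact ⟨k1, k2⟩
    · rw [seg_gt _ _ _ _ _ hk hk2, seg_gt _ _ _ _ _ hk hk2]
      simp only [map_mul, map_inv, k6, h1, h2]
      rw [seg_gt _ _ _ _ _ hk hk2, seg_gt _ _ _ _ _ hk hk2]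
      constructor <;> group
    · subst hk
      rw [seg_last, seg_last]
      exact ⟨k3, k4⟩
  have hjn : (j : ℕ) < n := j.2
  refine exists_aut h _ _ _ _ (fun i : ℕ => if i ≤ j then 1 else if i ≤ n then ka else 1)
    (fun i : ℕ => if i ≤ j then 1 else if i ≤ n then ka' else 1) ?_ ?_
    (main ka p q A B hc hl) ?_ ?_ (main ka' p' q' A' B' hc' hl')
    (main2 ka p q A B ka' p' q' A' B' hinv) (main2 ka' p' q' A' B' ka p q A B hinv')
  · simp
  · rw [if_neg (by omega), if_neg (by omega)]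
  · simp
  · rw [if_neg (by omega), if_neg (by omega)]

theorem exists_Xb (h : IsSurf a b) (j : Fin n) :
    ∃ X : MulAut G,
      (∀ k, X (a k) = seg j a
        (a j.castSucc * ((b j.castSucc)⁻¹ * a (Fin.last n) * b j.castSucc)⁻¹)
        (fun k => ((b j.castSucc)⁻¹ * a (Fin.last n) * b j.castSucc * (a (Fin.last n))⁻¹) * a k *
          ((b j.castSucc)⁻¹ * a (Fin.last n) * b j.castSucc * (a (Fin.last n))⁻¹)⁻¹)
        ((b j.castSucc)⁻¹ * a (Fin.last n) * b j.castSucc) k) ∧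
      (∀ k, X (b k) = seg j b
        (((b j.castSucc)⁻¹ * a (Fin.last n) * b j.castSucc) * b j.castSucc *
          ((b j.castSucc)⁻¹ * a (Fin.last n) * b j.castSucc)⁻¹)
        (fun k => ((b j.castSucc)⁻¹ * a (Fin.last n) * b j.castSucc * (a (Fin.last n))⁻¹) * b k *
          ((b j.castSucc)⁻¹ * a (Fin.last n) * b j.castSucc * (a (Fin.last n))⁻¹)⁻¹)
        (b (Fin.last n) * b j.castSucc * ((b j.castSucc)⁻¹ * a (Fin.last n) * b j.castSucc)⁻¹) k) ∧
      (∀ k, X⁻¹ (a k) = seg j a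
        (a j.castSucc * a (Fin.last n))
        (fun k => ((a (Fin.last n))⁻¹ * b j.castSucc * a (Fin.last n) * (b j.castSucc)⁻¹) * a k *
          ((a (Fin.last n))⁻¹ * b j.castSucc * a (Fin.last n) * (b j.castSucc)⁻¹)⁻¹)
        ((a (Fin.last n))⁻¹ * b j.castSucc * a (Fin.last n) * (b j.castSucc)⁻¹ * a (Fin.last n)) k) ∧
      (∀ k, X⁻¹ (b k) = seg j b
        ((a (Fin.last n))⁻¹ * b j.castSucc * a (Fin.last n))
        (fun k => ((a (Fin.last n))⁻¹ * b j.castSucc * a (Fin.last n) * (b j.castSucc)⁻¹) * b k *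
          ((a (Fin.last n))⁻¹ * b j.castSucc * a (Fin.last n) * (b j.castSucc)⁻¹)⁻¹)
        (b (Fin.last n) * (b j.castSucc)⁻¹ * a (Fin.last n)) k) := by
  refine exists_push h j _ _ _ _ _ _ _ _ _ _ ?_ ?_ ?_ ?_ ?_ ?_
  · group
  · group
  · group
  · group
  · intro φ h1 h2 h3 h4
    simp only [map_mul, map_inv, h1, h2, h3, h4]
    refine ⟨?_, ?_, ?_, ?_, ?_⟩ <;> group
  · intro φ h1 h2 h3 h4
    simp only [map_mul, map_inv, h1, h2, h3, h4]
    refine ⟨?_, ?_, ?_, ?_, ?_⟩ <;> group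

theorem exists_Xa (h : IsSurf a b) (j : Fin n) :
    ∃ X : MulAut G,
      (∀ k, X (a k) = seg j a
        ((a (Fin.last n))⁻¹ * a j.castSucc * a (Fin.last n))
        (fun k => ((a (Fin.last n))⁻¹ * (a j.castSucc)⁻¹ * a (Fin.last n) * a j.castSucc) * a k *
          ((a (Fin.last n))⁻¹ * (a j.castSucc)⁻¹ * a (Fin.last n) * a j.castSucc)⁻¹)
        ((a (Fin.last n))⁻¹ * (a j.castSucc)⁻¹ * a (Fin.last n) * a j.castSucc * a (Fin.last n)) k) ∧
      (∀ k, X (b k) = seg j b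
        ((a (Fin.last n))⁻¹ * (a j.castSucc)⁻¹ * a (Fin.last n) * a j.castSucc * b j.castSucc *
          a (Fin.last n))
        (fun k => ((a (Fin.last n))⁻¹ * (a j.castSucc)⁻¹ * a (Fin.last n) * a j.castSucc) * b k *
          ((a (Fin.last n))⁻¹ * (a j.castSucc)⁻¹ * a (Fin.last n) * a j.castSucc)⁻¹)
        (b (Fin.last n) * a j.castSucc * a (Fin.last n)) k) ∧
      (∀ k, X⁻¹ (a k) = seg j a
        (a j.castSucc * a (Fin.last n) * (a j.castSucc * a (Fin.last n) * (a j.castSucc)⁻¹)⁻¹)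
        (fun k => (a j.castSucc * a (Fin.last n) * (a j.castSucc)⁻¹ * (a (Fin.last n))⁻¹) * a k *
          (a j.castSucc * a (Fin.last n) * (a j.castSucc)⁻¹ * (a (Fin.last n))⁻¹)⁻¹)
        (a j.castSucc * a (Fin.last n) * (a j.castSucc)⁻¹) k) ∧
      (∀ k, X⁻¹ (b k) = seg j b
        (a j.castSucc * a (Fin.last n) * (a j.castSucc)⁻¹ * (a (Fin.last n))⁻¹ * b j.castSucc *
          (a j.castSucc * a (Fin.last n) * (a j.castSucc)⁻¹)⁻¹)
        (fun k => (a j.castSucc * a (Fin.last n) * (a j.castSucc)⁻¹ * (a (Fin.last n))⁻¹) * b k *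
          (a j.castSucc * a (Fin.last n) * (a j.castSucc)⁻¹ * (a (Fin.last n))⁻¹)⁻¹)
        (b (Fin.last n) * (a (Fin.last n))⁻¹ * (a j.castSucc)⁻¹) k) := by
  refine exists_push h j _ _ _ _ _ _ _ _ _ _ ?_ ?_ ?_ ?_ ?_ ?_
  · group
  · group
  · group
  · group
  · intro φ h1 h2 h3 h4
    simp only [map_mul, map_inv, h1, h2, h3, h4]
    refine ⟨?_, ?_, ?_, ?_, ?_⟩ <;> group
  · intro φ h1 h2 h3 h4
    simp only [map_mul, map_inv, h1, h2, h3, h4]
    refine ⟨?_, ?_, ?_, ?_, ?_⟩ <;> group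

end pushes

end Pool.MP_59b15d_al.H76R
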