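import Mathlib
import Pool.Agent.H.MP_59b15d_al.h76r.Rc

set_option autoImplicit false

namespace Pool.MP_59b15d_al.H76R

open Pool.MP_59b15d_al.H24T

section values

variable {G : Type*} [Group G] {n : ℕ} {a b : Fin (n + 1) → G}

/-- The push around `a j`. -/
noncomputable def Xa (h : IsSurf a b) (j : Fin n) : MulAut G := (exists_Xa h j).choose

/-- The push around `b j`. -/
noncomputable def Xb (h : IsSurf a b) (j : Fin n) : MulAut G := (exists_Xb h j).choose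

variable (h : IsSurf a b) (j : Fin n)

theorem Xb_a_lt {k : Fin (n + 1)} (hk : k < j.castSucc) : Xb h j (a k) = a k := by
  rw [Xb, (exists_Xb h j).choose_spec.1, seg_lt _ _ _ _ _ hk]
theorem Xb_b_lt {k : Fin (n + 1)} (hk : k < j.castSucc) : Xb h j (b k) = b k := by
  rw [Xb, (exists_Xb h j).choose_spec.2.1, seg_lt _ _ _ _ _ hk]
theorem Xb_aj : Xb h j (a j.castSucc) =
    a j.castSucc * ((b j.castSucc)⁻¹ * a (Fin.last n) * b j.castSucc)⁻¹ := by
  rw [Xb, (exists_Xb h j).choose_spec.1, seg_self]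
theorem Xb_bj : Xb h j (b j.castSucc) =
    ((b j.castSucc)⁻¹ * a (Fin.last n) * b j.castSucc) * b j.castSucc *
          ((b j.castSucc)⁻¹ * a (Fin.last n) * b j.castSucc)⁻¹ := by
  rw [Xb, (exists_Xb h j).choose_spec.2.1, seg_self]
theorem Xb_a_mid {k : Fin (n + 1)} (hk : j.castSucc < k) (hk2 : k < Fin.last n) :
    Xb h j (a k) = ((b j.castSucc)⁻¹ * a (Fin.last n) * b j.castSucc * (a (Fin.last n))⁻¹) * a k *
          ((b j.castSucc)⁻¹ * a (Fin.last n) * b j.castSucc * (a (Fin.last n))⁻¹)⁻¹ := by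
  rw [Xb, (exists_Xb h j).choose_spec.1, seg_gt _ _ _ _ _ hk hk2]
theorem Xb_b_mid {k : Fin (n + 1)} (hk : j.castSucc < k) (hk2 : k < Fin.last n) :
    Xb h j (b k) = ((b j.castSucc)⁻¹ * a (Fin.last n) * b j.castSucc * (a (Fin.last n))⁻¹) * b k *
          ((b j.castSucc)⁻¹ * a (Fin.last n) * b j.castSucc * (a (Fin.last n))⁻¹)⁻¹ := by
  rw [Xb, (exists_Xb h j).choose_spec.2.1, seg_gt _ _ _ _ _ hk hk2]
theorem Xb_al : Xb h j (a (Fin.last n)) = (b j.castSucc)⁻¹ * a (Fin.last n) * b j.castSucc := by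
  rw [Xb, (exists_Xb h j).choose_spec.1, seg_last]
theorem Xb_bl : Xb h j (b (Fin.last n)) =
    b (Fin.last n) * b j.castSucc * ((b j.castSucc)⁻¹ * a (Fin.last n) * b j.castSucc)⁻¹ := by
  rw [Xb, (exists_Xb h j).choose_spec.2.1, seg_last]

theorem Xa_a_lt {k : Fin (n + 1)} (hk : k < j.castSucc) : Xa h j (a k) = a k := by
  rw [Xa, (exists_Xa h j).choose_spec.1, seg_lt _ _ _ _ _ hk]
theorem Xa_b_lt {k : Fin (n + 1)} (hk : k < j.castSucc) : Xa h j (b k) = b k := by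
  rw [Xa, (exists_Xa h j).choose_spec.2.1, seg_lt _ _ _ _ _ hk]
theorem Xa_aj : Xa h j (a j.castSucc) = (a (Fin.last n))⁻¹ * a j.castSucc * a (Fin.last n) := by
  rw [Xa, (exists_Xa h j).choose_spec.1, seg_self]
theorem Xa_bj : Xa h j (b j.castSucc) =
    (a (Fin.last n))⁻¹ * (a j.castSucc)⁻¹ * a (Fin.last n) * a j.castSucc * b j.castSucc *
          a (Fin.last n) := by
  rw [Xa, (exists_Xa h j).choose_spec.2.1, seg_self]
theorem Xa_a_mid {k : Fin (n + 1)} (hk : j.castSucc < k) (hk2 : k < Fin.last n) :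
    Xa h j (a k) =
      ((a (Fin.last n))⁻¹ * (a j.castSucc)⁻¹ * a (Fin.last n) * a j.castSucc) * a k *
          ((a (Fin.last n))⁻¹ * (a j.castSucc)⁻¹ * a (Fin.last n) * a j.castSucc)⁻¹ := by
  rw [Xa, (exists_Xa h j).choose_spec.1, seg_gt _ _ _ _ _ hk hk2]
theorem Xa_b_mid {k : Fin (n + 1)} (hk : j.castSucc < k) (hk2 : k < Fin.last n) :
    Xa h j (b k) =
      ((a (Fin.last n))⁻¹ * (a j.castSucc)⁻¹ * a (Fin.last n) * a j.castSucc) * b k *
          ((a (Fin.last n))⁻¹ * (a j.castSucc)⁻¹ * a (Fin.last n) * a j.castSucc)⁻¹ := by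
  rw [Xa, (exists_Xa h j).choose_spec.2.1, seg_gt _ _ _ _ _ hk hk2]
theorem Xa_al : Xa h j (a (Fin.last n)) =
    (a (Fin.last n))⁻¹ * (a j.castSucc)⁻¹ * a (Fin.last n) * a j.castSucc * a (Fin.last n) := by
  rw [Xa, (exists_Xa h j).choose_spec.1, seg_last]
theorem Xa_bl : Xa h j (b (Fin.last n)) = b (Fin.last n) * a j.castSucc * a (Fin.last n) := by
  rw [Xa, (exists_Xa h j).choose_spec.2.1, seg_last]

theorem Xbi_aj : (Xb h j)⁻¹ (a j.castSucc) = a j.castSucc * a (Fin.last n) := by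
  rw [Xb, (exists_Xb h j).choose_spec.2.2.1, seg_self]
theorem Xbi_bj : (Xb h j)⁻¹ (b j.castSucc) =
    (a (Fin.last n))⁻¹ * b j.castSucc * a (Fin.last n) := by
  rw [Xb, (exists_Xb h j).choose_spec.2.2.2, seg_self]
theorem Xbi_a_lt {k : Fin (n + 1)} (hk : k < j.castSucc) : (Xb h j)⁻¹ (a k) = a k := by
  rw [Xb, (exists_Xb h j).choose_spec.2.2.1, seg_lt _ _ _ _ _ hk]
theorem Xbi_b_lt {k : Fin (n + 1)} (hk : k < j.castSucc) : (Xb h j)⁻¹ (b k) = b k := by
  rw [Xb, (exists_Xb h j).choose_spec.2.2.2, seg_lt _ _ _ _ _ hk]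
theorem Xbi_a_mid {k : Fin (n + 1)} (hk : j.castSucc < k) (hk2 : k < Fin.last n) :
    (Xb h j)⁻¹ (a k) = ((a (Fin.last n))⁻¹ * b j.castSucc * a (Fin.last n) * (b j.castSucc)⁻¹) *
      a k * ((a (Fin.last n))⁻¹ * b j.castSucc * a (Fin.last n) * (b j.castSucc)⁻¹)⁻¹ := by
  rw [Xb, (exists_Xb h j).choose_spec.2.2.1, seg_gt _ _ _ _ _ hk hk2]
theorem Xbi_b_mid {k : Fin (n + 1)} (hk : j.castSucc < k) (hk2 : k < Fin.last n) :
    (Xb h j)⁻¹ (b k) = ((a (Fin.last n))⁻¹ * b j.castSucc * a (Fin.last n) * (b j.castSucc)⁻¹) *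
      b k * ((a (Fin.last n))⁻¹ * b j.castSucc * a (Fin.last n) * (b j.castSucc)⁻¹)⁻¹ := by
  rw [Xb, (exists_Xb h j).choose_spec.2.2.2, seg_gt _ _ _ _ _ hk hk2]
theorem Xbi_al : (Xb h j)⁻¹ (a (Fin.last n)) =
    (a (Fin.last n))⁻¹ * b j.castSucc * a (Fin.last n) * (b j.castSucc)⁻¹ * a (Fin.last n) := by
  rw [Xb, (exists_Xb h j).choose_spec.2.2.1, seg_last]
theorem Xbi_bl : (Xb h j)⁻¹ (b (Fin.last n)) =
    b (Fin.last n) * (b j.castSucc)⁻¹ * a (Fin.last n) := by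
  rw [Xb, (exists_Xb h j).choose_spec.2.2.2, seg_last]

theorem Xai_aj : (Xa h j)⁻¹ (a j.castSucc) =
    a j.castSucc * a (Fin.last n) * (a j.castSucc * a (Fin.last n) * (a j.castSucc)⁻¹)⁻¹ := by
  rw [Xa, (exists_Xa h j).choose_spec.2.2.1, seg_self]
theorem Xai_bj : (Xa h j)⁻¹ (b j.castSucc) =
    a j.castSucc * a (Fin.last n) * (a j.castSucc)⁻¹ * (a (Fin.last n))⁻¹ * b j.castSucc *
          (a j.castSucc * a (Fin.last n) * (a j.castSucc)⁻¹)⁻¹ := by
  rw [Xa, (exists_Xa h j).choose_spec.2.2.2, seg_self]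
theorem Xai_a_lt {k : Fin (n + 1)} (hk : k < j.castSucc) : (Xa h j)⁻¹ (a k) = a k := by
  rw [Xa, (exists_Xa h j).choose_spec.2.2.1, seg_lt _ _ _ _ _ hk]
theorem Xai_b_lt {k : Fin (n + 1)} (hk : k < j.castSucc) : (Xa h j)⁻¹ (b k) = b k := by
  rw [Xa, (exists_Xa h j).choose_spec.2.2.2, seg_lt _ _ _ _ _ hk]
theorem Xai_a_mid {k : Fin (n + 1)} (hk : j.castSucc < k) (hk2 : k < Fin.last n) :
    (Xa h j)⁻¹ (a k) = (a j.castSucc * a (Fin.last n) * (a j.castSucc)⁻¹ * (a (Fin.last n))⁻¹) *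
      a k * (a j.castSucc * a (Fin.last n) * (a j.castSucc)⁻¹ * (a (Fin.last n))⁻¹)⁻¹ := by
  rw [Xa, (exists_Xa h j).choose_spec.2.2.1, seg_gt _ _ _ _ _ hk hk2]
theorem Xai_b_mid {k : Fin (n + 1)} (hk : j.castSucc < k) (hk2 : k < Fin.last n) :
    (Xa h j)⁻¹ (b k) = (a j.castSucc * a (Fin.last n) * (a j.castSucc)⁻¹ * (a (Fin.last n))⁻¹) *
      b k * (a j.castSucc * a (Fin.last n) * (a j.castSucc)⁻¹ * (a (Fin.last n))⁻¹)⁻¹ := by
  rw [Xa, (exists_Xa h j).choose_spec.2.2.2, seg_gt _ _ _ _ _ hk hk2]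
theorem Xai_al : (Xa h j)⁻¹ (a (Fin.last n)) =
    a j.castSucc * a (Fin.last n) * (a j.castSucc)⁻¹ := by
  rw [Xa, (exists_Xa h j).choose_spec.2.2.1, seg_last]
theorem Xai_bl : (Xa h j)⁻¹ (b (Fin.last n)) =
    b (Fin.last n) * (a (Fin.last n))⁻¹ * (a j.castSucc)⁻¹ := by
  rw [Xa, (exists_Xa h j).choose_spec.2.2.2, seg_last]

/-- The subgroup of the handles before `j`. -/
def Low (a b : Fin (n + 1) → G) (j : Fin n) : Subgroup G :=
  Subgroup.closure {z | ∃ k, k < j.castSucc ∧ (z = a k ∨ z = b k)}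

/-- The subgroup of the handles between `j` and the last one. -/
def Mid (a b : Fin (n + 1) → G) (j : Fin n) : Subgroup G :=
  Subgroup.closure {z | ∃ k, j.castSucc < k ∧ k < Fin.last n ∧ (z = a k ∨ z = b k)}

theorem a_low {k : Fin (n + 1)} (hk : k < j.castSucc) : a k ∈ Low a b j :=
  Subgroup.subset_closure ⟨k, hk, Or.inl rfl⟩
theorem b_low {k : Fin (n + 1)} (hk : k < j.castSucc) : b k ∈ Low a b j :=
  Subgroup.subset_closure ⟨k, hk, Or.inr rfl⟩
theorem a_mid {k : Fin (n + 1)} (hk : j.castSucc < k) (hk2 : k < Fin.last n) : a k ∈ Mid a b j :=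
  Subgroup.subset_closure ⟨k, hk, hk2, Or.inl rfl⟩
theorem b_mid {k : Fin (n + 1)} (hk : j.castSucc < k) (hk2 : k < Fin.last n) : b k ∈ Mid a b j :=
  Subgroup.subset_closure ⟨k, hk, hk2, Or.inr rfl⟩

theorem X_low {z : G} (hz : z ∈ Low a b j) : Xa h j z = z ∧ Xb h j z = z := by
  have h1 : Low a b j ≤ MonoidHom.eqLocus (Xa h j).toMonoidHom (MonoidHom.id G) := by
    rw [Low, Subgroup.closure_le]
    rintro z ⟨k, hk, rfl | rfl⟩
    · exact Xa_a_lt h j hk
    · exact Xa_b_lt h j hk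
  have h2 : Low a b j ≤ MonoidHom.eqLocus (Xb h j).toMonoidHom (MonoidHom.id G) := by
    rw [Low, Subgroup.closure_le]
    rintro z ⟨k, hk, rfl | rfl⟩
    · exact Xb_a_lt h j hk
    · exact Xb_b_lt h j hk
  exact ⟨h1 hz, h2 hz⟩

theorem X_mid {z : G} (hz : z ∈ Mid a b j) :
    Xa h j z = ((a (Fin.last n))⁻¹ * (a j.castSucc)⁻¹ * a (Fin.last n) * a j.castSucc) * z *
          ((a (Fin.last n))⁻¹ * (a j.castSucc)⁻¹ * a (Fin.last n) * a j.castSucc)⁻¹ ∧
    Xb h j z = ((b j.castSucc)⁻¹ * a (Fin.last n) * b j.castSucc * (a (Fin.last n))⁻¹) * z *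
          ((b j.castSucc)⁻¹ * a (Fin.last n) * b j.castSucc * (a (Fin.last n))⁻¹)⁻¹ := by
  have h1 : Mid a b j ≤ MonoidHom.eqLocus (Xa h j).toMonoidHom
      (MulAut.conj ((a (Fin.last n))⁻¹ * (a j.castSucc)⁻¹ * a (Fin.last n) *
        a j.castSucc)).toMonoidHom := by
    rw [Mid, Subgroup.closure_le]
    rintro z ⟨k, hk, hk2, rfl | rfl⟩
    · exact Xa_a_mid h j hk hk2
    · exact Xa_b_mid h j hk hk2
  have h2 : Mid a b j ≤ MonoidHom.eqLocus (Xb h j).toMonoidHom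
      (MulAut.conj ((b j.castSucc)⁻¹ * a (Fin.last n) * b j.castSucc *
        (a (Fin.last n))⁻¹)).toMonoidHom := by
    rw [Mid, Subgroup.closure_le]
    rintro z ⟨k, hk, hk2, rfl | rfl⟩
    · exact Xb_a_mid h j hk hk2
    · exact Xb_b_mid h j hk hk2
  exact ⟨h1 hz, h2 hz⟩

/-- Automorphisms with a support disjoint from the push commute with it. -/
theorem comm_of (f : MulAut G) (h1 : f (a j.castSucc) = a j.castSucc)
    (h2 : f (b j.castSucc) = b j.castSucc) (h3 : f (a (Fin.last n)) = a (Fin.last n))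
    (h4 : f (b (Fin.last n)) = b (Fin.last n))
    (h5 : ∀ k, k < j.castSucc → f (a k) ∈ Low a b j ∧ f (b k) ∈ Low a b j)
    (h6 : ∀ k, j.castSucc < k → k < Fin.last n → f (a k) ∈ Mid a b j ∧ f (b k) ∈ Mid a b j) :
    f * Xa h j = Xa h j * f ∧ f * Xb h j = Xb h j * f := by
  constructor
  · apply aut_ext h
    · intro k
      rw [MulAut.mul_apply, MulAut.mul_apply]
      rcases seg_cases j k with hk | hk | ⟨hk, hk2⟩ | hk
      · rw [Xa_a_lt h j hk, (X_low h j (h5 k hk).1).1]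
      · subst hk
        rw [h1, Xa_aj]
        simp only [map_mul, map_inv, h1, h3]
      · rw [Xa_a_mid h j hk hk2, (X_mid h j (h6 k hk hk2).1).1]
        simp only [map_mul, map_inv, h1, h3]
      · subst hk
        rw [h3, Xa_al]
        simp only [map_mul, map_inv, h1, h3]
    · intro k
      rw [MulAut.mul_apply, MulAut.mul_apply]
      rcases seg_cases j k with hk | hk | ⟨hk, hk2⟩ | hk
      · rw [Xa_b_lt h j hk, (X_low h j (h5 k hk).2).1]
      · subst hk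
        rw [h2, Xa_bj]
        simp only [map_mul, map_inv, h1, h2, h3]
      · rw [Xa_b_mid h j hk hk2, (X_mid h j (h6 k hk hk2).2).1]
        simp only [map_mul, map_inv, h1, h3]
      · subst hk
        rw [h4, Xa_bl]
        simp only [map_mul, h1, h3, h4]
  · apply aut_ext h
    · intro k
      rw [MulAut.mul_apply, MulAut.mul_apply]
      rcases seg_cases j k with hk | hk | ⟨hk, hk2⟩ | hk
      · rw [Xb_a_lt h j hk, (X_low h j (h5 k hk).1).2]
      · subst hk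
        rw [h1, Xb_aj]
        simp only [map_mul, map_inv, h1, h2, h3]
      · rw [Xb_a_mid h j hk hk2, (X_mid h j (h6 k hk hk2).1).2]
        simp only [map_mul, map_inv, h2, h3]
      · subst hk
        rw [h3, Xb_al]
        simp only [map_mul, map_inv, h2, h3]
    · intro k
      rw [MulAut.mul_apply, MulAut.mul_apply]
      rcases seg_cases j k with hk | hk | ⟨hk, hk2⟩ | hk
      · rw [Xb_b_lt h j hk, (X_low h j (h5 k hk).2).2]
      · subst hk
        rw [h2, Xb_bj]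
        simp only [map_mul, map_inv, h2, h3]
      · rw [Xb_b_mid h j hk hk2, (X_mid h j (h6 k hk hk2).2).2]
        simp only [map_mul, map_inv, h2, h3]
      · subst hk
        rw [h4, Xb_bl]
        simp only [map_mul, map_inv, h2, h3, h4]

end values

end Pool.MP_59b15d_al.H76R
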