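import Mathlib
import Pool.Agent.H.MP_59b15d_al.h76r.Rb
import Pool.Agent.H.MP_59b15d_al.h76r.Rd

set_option autoImplicit false

namespace Pool.MP_59b15d_al.H76R

open Pool.MP_59b15d_al.H24T

section special

variable {G : Type*} [Group G] {n : ℕ} {a b : Fin (n + 1) → G} (h : IsSurf a b)

theorem last_ne_cs (j : Fin n) : Fin.last n ≠ j.castSucc := (Fin.castSucc_lt_last j).ne'

theorem TA_Xa (j : Fin n) : TA h j.castSucc * Xa h j = Xa h j * TA h j.castSucc := by
  have hl := last_ne_cs j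
  apply aut_ext h
  · intro k
    rw [MulAut.mul_apply, MulAut.mul_apply]
    rcases seg_cases j k with hk | hk | ⟨hk, hk2⟩ | hk
    · simp only [Xa_a_lt h j hk, TA_a]
    · subst hk
      simp only [Xa_aj, TA_a, map_mul, map_inv]
    · simp only [Xa_a_mid h j hk hk2, TA_a, map_mul, map_inv]
    · subst hk
      simp only [Xa_al, TA_a, map_mul, map_inv]
  · intro k
    rw [MulAut.mul_apply, MulAut.mul_apply]
    rcases seg_cases j k with hk | hk | ⟨hk, hk2⟩ | hk
    · simp only [Xa_b_lt h j hk, TA_b_ne h hk.ne]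
    · subst hk
      simp only [Xa_bj, Xa_aj, TA_a, TA_b, map_mul, map_inv]
      group
    · simp only [Xa_b_mid h j hk hk2, TA_a, TA_b_ne h hk.ne', map_mul, map_inv]
    · subst hk
      simp only [Xa_bl, TA_a, TA_b_ne h hl, map_mul]

theorem TA_Xb (j : Fin n) :
    TA h j.castSucc * Xb h j = Xb h j * Xa h j * TA h j.castSucc := by
  have hl := last_ne_cs j
  apply aut_ext h
  · intro k
    rw [MulAut.mul_apply, MulAut.mul_apply, MulAut.mul_apply]
    rcases seg_cases j k with hk | hk | ⟨hk, hk2⟩ | hk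
    · simp only [Xa_a_lt h j hk, Xb_a_lt h j hk, TA_a]
    · subst hk
      simp only [Xa_aj, Xb_aj, Xb_al, TA_a, TA_b, map_mul, map_inv]
      group
    · simp only [Xa_a_mid h j hk hk2, Xb_a_mid h j hk hk2, Xb_aj, Xb_al, TA_a, TA_b,
        map_mul, map_inv]
      group
    · subst hk
      simp only [Xa_al, Xb_al, Xb_aj, TA_a, TA_b, map_mul, map_inv]
      group
  · intro k
    rw [MulAut.mul_apply, MulAut.mul_apply, MulAut.mul_apply]
    rcases seg_cases j k with hk | hk | ⟨hk, hk2⟩ | hk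
    · simp only [Xa_b_lt h j hk, Xb_b_lt h j hk, TA_b_ne h hk.ne]
    · subst hk
      simp only [Xa_bj, Xa_aj, Xb_bj, Xb_aj, Xb_al, TA_a, TA_b, map_mul, map_inv]
      group
    · simp only [Xa_b_mid h j hk hk2, Xb_b_mid h j hk hk2, Xb_aj, Xb_al, TA_a, TA_b,
        TA_b_ne h hk.ne', map_mul, map_inv]
      group
    · subst hk
      simp only [Xa_bl, Xb_bl, Xb_aj, Xb_al, TA_a, TA_b, TA_b_ne h hl, map_mul, map_inv]
      group

theorem TB_Xb (j : Fin n) : TB h j.castSucc * Xb h j = Xb h j * TB h j.castSucc := by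
  have hl := last_ne_cs j
  apply aut_ext h
  · intro k
    rw [MulAut.mul_apply, MulAut.mul_apply]
    rcases seg_cases j k with hk | hk | ⟨hk, hk2⟩ | hk
    · simp only [Xb_a_lt h j hk, TB_a_ne h hk.ne]
    · subst hk
      simp only [Xb_aj, Xb_bj, TB_a, TB_b, TB_a_ne h hl, map_mul, map_inv]
      group
    · simp only [Xb_a_mid h j hk hk2, TB_b, TB_a_ne h hk.ne', TB_a_ne h hl, map_mul, map_inv]
    · subst hk
      simp only [Xb_al, TB_b, TB_a_ne h hl, map_mul, map_inv]
  · intro k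
    rw [MulAut.mul_apply, MulAut.mul_apply]
    rcases seg_cases j k with hk | hk | ⟨hk, hk2⟩ | hk
    · simp only [Xb_b_lt h j hk, TB_b]
    · subst hk
      simp only [Xb_bj, TB_b, TB_a_ne h hl, map_mul, map_inv]
    · simp only [Xb_b_mid h j hk hk2, TB_b, TB_a_ne h hl, map_mul, map_inv]
    · subst hk
      simp only [Xb_bl, TB_b, TB_a_ne h hl, map_mul, map_inv]

theorem TB_Xa (j : Fin n) :
    TB h j.castSucc * Xa h j = Xa h j * Xb h j * TB h j.castSucc := by
  have hl := last_ne_cs j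
  apply aut_ext h
  · intro k
    rw [MulAut.mul_apply, MulAut.mul_apply, MulAut.mul_apply]
    rcases seg_cases j k with hk | hk | ⟨hk, hk2⟩ | hk
    · simp only [Xa_a_lt h j hk, Xb_a_lt h j hk, TB_a_ne h hk.ne]
    · subst hk
      simp only [Xa_aj, Xb_aj, Xb_bj, Xa_bj, Xa_al, TB_a, TB_a_ne h hl, map_mul, map_inv]
      group
    · simp only [Xa_a_mid h j hk hk2, Xb_a_mid h j hk hk2, Xa_bj, Xa_al, TB_a,
        TB_a_ne h hk.ne', TB_a_ne h hl, map_mul, map_inv]
      group
    · subst hk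
      simp only [Xa_al, Xb_al, Xa_bj, TB_a, TB_a_ne h hl, map_mul, map_inv]
      group
  · intro k
    rw [MulAut.mul_apply, MulAut.mul_apply, MulAut.mul_apply]
    rcases seg_cases j k with hk | hk | ⟨hk, hk2⟩ | hk
    · simp only [Xa_b_lt h j hk, Xb_b_lt h j hk, TB_b]
    · subst hk
      simp only [Xa_bj, Xb_bj, Xa_al, TB_a, TB_b, TB_a_ne h hl, map_mul, map_inv]
      group
    · simp only [Xa_b_mid h j hk hk2, Xb_b_mid h j hk hk2, Xa_bj, Xa_al, TB_a, TB_b,
        TB_a_ne h hl, map_mul, map_inv]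
      group
    · subst hk
      simp only [Xa_bl, Xb_bl, Xa_bj, Xa_al, TB_a, TB_b, TB_a_ne h hl, map_mul, map_inv]
      group

end special

end Pool.MP_59b15d_al.H76R
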