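import Mathlib
import Pool.Agent.H.MP_59b15d_al.h76r.Re

set_option autoImplicit false

namespace Pool.MP_59b15d_al.H76R

open Pool.MP_59b15d_al.H24T

section pairs

variable {G : Type*} [Group G] {n : ℕ} {a b : Fin (n + 1) → G}

/-- The fundamental group of the subsurface of the first `n` handles. -/
abbrev Fr (n : ℕ) : Type := FreeGroup (Fin n ⊕ Fin n)

/-- Its homomorphism to `G`. -/
def jR (a b : Fin (n + 1) → G) : Fr n →* G :=
  FreeGroup.lift (Sum.elim (fun k => a k.castSucc) (fun k => b k.castSucc))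

theorem jR_a (k : Fin n) : jR a b (FreeGroup.of (Sum.inl k)) = a k.castSucc := by simp [jR]
theorem jR_b (k : Fin n) : jR a b (FreeGroup.of (Sum.inr k)) = b k.castSucc := by simp [jR]

/-- The pushes. -/
noncomputable def XX (h : IsSurf a b) : Fr n →* MulAut G :=
  FreeGroup.lift (Sum.elim (Xa h) (Xb h))

theorem XX_a (h : IsSurf a b) (k : Fin n) : XX h (FreeGroup.of (Sum.inl k)) = Xa h k := by
  simp [XX]
theorem XX_b (h : IsSurf a b) (k : Fin n) : XX h (FreeGroup.of (Sum.inr k)) = Xb h k := by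
  simp [XX]

/-- The twist about the last `a`. -/
noncomputable def TT (h : IsSurf a b) : MulAut G := TA h (Fin.last n)

theorem fr_induction {P : Fr n → Prop} (h1 : P 1) (ha : ∀ k, P (FreeGroup.of (Sum.inl k)))
    (hb : ∀ k, P (FreeGroup.of (Sum.inr k))) (hm : ∀ x y, P x → P y → P (x * y))
    (hi : ∀ x, P x → P x⁻¹) (x : Fr n) : P x := by
  induction x using FreeGroup.induction_on with
  | C1 => exact h1
  | of i =>
    rcases i with k | k
    · exact ha k
    · exact hb k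
  | inv_of i hx => exact hi _ hx
  | mul x y hx hy => exact hm x y hx hy

theorem TT_Xa (h : IsSurf a b) (j : Fin n) : TT h * Xa h j = Xa h j * TT h := by
  have hl := last_ne_cs j
  apply aut_ext h
  · intro k
    rw [TT, MulAut.mul_apply, MulAut.mul_apply]
    rcases seg_cases j k with hk | hk | ⟨hk, hk2⟩ | hk
    · simp only [Xa_a_lt h j hk, TA_a]
    · subst hk
      simp only [Xa_aj, TA_a, map_mul, map_inv]
    · simp only [Xa_a_mid h j hk hk2, TA_a, map_mul, map_inv]
    · subst hk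
      simp only [Xa_al, TA_a, map_mul, map_inv]
  · intro k
    rw [TT, MulAut.mul_apply, MulAut.mul_apply]
    rcases seg_cases j k with hk | hk | ⟨hk, hk2⟩ | hk
    · simp only [Xa_b_lt h j hk, TA_b_ne h (hk.trans (Fin.castSucc_lt_last j)).ne]
    · subst hk
      simp only [Xa_bj, TA_a, TA_b_ne h hl.symm, map_mul, map_inv]
    · simp only [Xa_b_mid h j hk hk2, TA_a, TA_b_ne h hk2.ne, map_mul, map_inv]
    · subst hk
      simp only [Xa_bl, Xa_al, TA_a, TA_b, map_mul]
      group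

theorem TT_Xb (h : IsSurf a b) (j : Fin n) : TT h * Xb h j = Xb h j * TT h := by
  have hl := last_ne_cs j
  apply aut_ext h
  · intro k
    rw [TT, MulAut.mul_apply, MulAut.mul_apply]
    rcases seg_cases j k with hk | hk | ⟨hk, hk2⟩ | hk
    · simp only [Xb_a_lt h j hk, TA_a]
    · subst hk
      simp only [Xb_aj, TA_a, TA_b_ne h hl.symm, map_mul, map_inv]
    · simp only [Xb_a_mid h j hk hk2, TA_a, TA_b_ne h hl.symm, map_mul, map_inv]
    · subst hk
      simp only [Xb_al, TA_a, TA_b_ne h hl.symm, map_mul, map_inv]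
  · intro k
    rw [TT, MulAut.mul_apply, MulAut.mul_apply]
    rcases seg_cases j k with hk | hk | ⟨hk, hk2⟩ | hk
    · simp only [Xb_b_lt h j hk, TA_b_ne h (hk.trans (Fin.castSucc_lt_last j)).ne]
    · subst hk
      simp only [Xb_bj, TA_a, TA_b_ne h hl.symm, map_mul, map_inv]
    · simp only [Xb_b_mid h j hk hk2, TA_a, TA_b_ne h hl.symm, TA_b_ne h hk2.ne, map_mul, map_inv]
    · subst hk
      simp only [Xb_bl, Xb_al, TA_a, TA_b, TA_b_ne h hl.symm, map_mul, map_inv]
      group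

theorem TT_XX (h : IsSurf a b) (y : Fr n) : Commute (TT h) (XX h y) := by
  induction y using fr_induction with
  | h1 => rw [map_one]; exact Commute.one_right _
  | ha k => rw [XX_a]; exact TT_Xa h k
  | hb k => rw [XX_b]; exact TT_Xb h k
  | hm x y hx hy => rw [map_mul]; exact hx.mul_right hy
  | hi x hx => rw [map_inv]; exact hx.inv_right

/-- Automorphisms supported on the first `n` handles. -/
structure Pair (h : IsSurf a b) (f' : MulAut (Fr n)) (f : MulAut G) : Prop where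
  fj : ∀ z, f (jR a b z) = jR a b (f' z)
  fa : f (a (Fin.last n)) = a (Fin.last n)
  fb : f (b (Fin.last n)) = b (Fin.last n)
  fX : ∀ y, ∃ k : ℤ, f * XX h y * f⁻¹ = XX h (f' y) * TT h ^ k

theorem ext_jR (h : IsSurf a b) {F F' : MulAut G} (h1 : ∀ z, F (jR a b z) = F' (jR a b z))
    (h2 : F (a (Fin.last n)) = F' (a (Fin.last n)))
    (h3 : F (b (Fin.last n)) = F' (b (Fin.last n))) : F = F' := by
  apply aut_ext h
  · intro k
    refine Fin.lastCases h2 (fun k => ?_) k
    rw [← jR_a (a := a) (b := b)]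
    exact h1 _
  · intro k
    refine Fin.lastCases h3 (fun k => ?_) k
    rw [← jR_b (a := a) (b := b)]
    exact h1 _

theorem TT_jR (h : IsSurf a b) (z : Fr n) : TT h (jR a b z) = jR a b z := by
  have h1 : (TT h).toMonoidHom.comp (jR a b) = jR a b := by
    ext i
    rcases i with k | k
    · change TT h (jR a b (FreeGroup.of (Sum.inl k))) = _
      rw [jR_a, TT, TA_a]
    · change TT h (jR a b (FreeGroup.of (Sum.inr k))) = _
      rw [jR_b, TT, TA_b_ne h (Fin.castSucc_lt_last k).ne]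
  exact DFunLike.congr_fun h1 z

theorem TBl_jR (h : IsSurf a b) (z : Fr n) : TB h (Fin.last n) (jR a b z) = jR a b z := by
  have h1 : (TB h (Fin.last n)).toMonoidHom.comp (jR a b) = jR a b := by
    ext i
    rcases i with k | k
    · change TB h (Fin.last n) (jR a b (FreeGroup.of (Sum.inl k))) = _
      rw [jR_a, TB_a_ne h (Fin.castSucc_lt_last k).ne]
    · change TB h (Fin.last n) (jR a b (FreeGroup.of (Sum.inr k))) = _
      rw [jR_b, TB_b]
  exact DFunLike.congr_fun h1 z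

/-- The last two twists commute with automorphisms of the first handles. -/
theorem comm_TT (h : IsSurf a b) {f' : MulAut (Fr n)} {f : MulAut G}
    (fj : ∀ z, f (jR a b z) = jR a b (f' z)) (fa : f (a (Fin.last n)) = a (Fin.last n))
    (fb : f (b (Fin.last n)) = b (Fin.last n)) : Commute f (TT h) := by
  change f * TT h = TT h * f
  apply ext_jR h
  · intro z
    rw [MulAut.mul_apply, MulAut.mul_apply, TT_jR, fj, TT_jR]
  · rw [MulAut.mul_apply, MulAut.mul_apply, TT, TA_a, fa, TA_a]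
  · rw [MulAut.mul_apply, MulAut.mul_apply, TT, TA_b, fb, TA_b, map_mul, fa, fb]

theorem comm_TBl (h : IsSurf a b) {f' : MulAut (Fr n)} {f : MulAut G}
    (fj : ∀ z, f (jR a b z) = jR a b (f' z)) (fa : f (a (Fin.last n)) = a (Fin.last n))
    (fb : f (b (Fin.last n)) = b (Fin.last n)) : Commute f (TB h (Fin.last n)) := by
  change f * TB h (Fin.last n) = TB h (Fin.last n) * f
  apply ext_jR h
  · intro z
    rw [MulAut.mul_apply, MulAut.mul_apply, TBl_jR, fj, TBl_jR]
  · rw [MulAut.mul_apply, MulAut.mul_apply, TB_a, fa, TB_a, map_mul, fa, fb]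
  · rw [MulAut.mul_apply, MulAut.mul_apply, TB_b, fb, TB_b]

/-- The equivariance need only be checked on the generators. -/
theorem Pair.of_gens (h : IsSurf a b) {f' : MulAut (Fr n)} {f : MulAut G}
    (fj : ∀ z, f (jR a b z) = jR a b (f' z)) (fa : f (a (Fin.last n)) = a (Fin.last n))
    (fb : f (b (Fin.last n)) = b (Fin.last n))
    (h1 : ∀ k, ∃ l : ℤ, f * Xa h k = XX h (f' (FreeGroup.of (Sum.inl k))) * TT h ^ l * f)
    (h2 : ∀ k, ∃ l : ℤ, f * Xb h k = XX h (f' (FreeGroup.of (Sum.inr k))) * TT h ^ l * f) :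
    Pair h f' f := by
  refine ⟨fj, fa, fb, fun y => ?_⟩
  induction y using fr_induction with
  | h1 => exact ⟨0, by simp⟩
  | ha k =>
    obtain ⟨l, hl⟩ := h1 k
    exact ⟨l, by rw [XX_a, hl, mul_inv_cancel_right]⟩
  | hb k =>
    obtain ⟨l, hl⟩ := h2 k
    exact ⟨l, by rw [XX_b, hl, mul_inv_cancel_right]⟩
  | hm x y hx hy =>
    obtain ⟨l, hl⟩ := hx
    obtain ⟨l', hl'⟩ := hy
    refine ⟨l + l', ?_⟩
    have h3 : f * XX h (x * y) * f⁻¹ = (f * XX h x * f⁻¹) * (f * XX h y * f⁻¹) := by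
      rw [map_mul]; group
    have h4 := ((TT_XX h (f' y)).zpow_left l).eq
    rw [h3, hl, hl', map_mul, map_mul, zpow_add]
    calc XX h (f' x) * TT h ^ l * (XX h (f' y) * TT h ^ l') =
        XX h (f' x) * (TT h ^ l * XX h (f' y)) * TT h ^ l' := by group
      _ = _ := by rw [h4]; group
  | hi x hx =>
    obtain ⟨l, hl⟩ := hx
    refine ⟨-l, ?_⟩
    have h3 : f * XX h x⁻¹ * f⁻¹ = (f * XX h x * f⁻¹)⁻¹ := by
      rw [map_inv]; group
    have h4 := ((TT_XX h (f' x)).zpow_left l).eq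
    rw [h3, hl, mul_inv_rev, map_inv, map_inv, zpow_neg]
    have h5 := ((TT_XX h (f' x)).zpow_left l).inv_inv.eq
    exact h5

theorem Pair.one (h : IsSurf a b) : Pair h 1 1 :=
  ⟨fun _ => rfl, rfl, rfl, fun y => ⟨0, by simp⟩⟩

theorem Pair.mul {h : IsSurf a b} {f' g' : MulAut (Fr n)} {f g : MulAut G} (hf : Pair h f' f)
    (hg : Pair h g' g) : Pair h (f' * g') (f * g) := by
  refine ⟨fun z => ?_, ?_, ?_, fun y => ?_⟩
  · rw [MulAut.mul_apply, hg.fj, hf.fj, MulAut.mul_apply]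
  · rw [MulAut.mul_apply, hg.fa, hf.fa]
  · rw [MulAut.mul_apply, hg.fb, hf.fb]
  · obtain ⟨k, hk⟩ := hg.fX y
    obtain ⟨l, hl⟩ := hf.fX (g' y)
    refine ⟨l + k, ?_⟩
    have h1 := (comm_TT h hf.fj hf.fa hf.fb).zpow_right k
    calc f * g * XX h y * (f * g)⁻¹ = f * (g * XX h y * g⁻¹) * f⁻¹ := by group
      _ = f * (XX h (g' y) * TT h ^ k) * f⁻¹ := by rw [hk]
      _ = f * XX h (g' y) * f⁻¹ * (f * TT h ^ k * f⁻¹) := by group
      _ = XX h (f' (g' y)) * TT h ^ l * TT h ^ k := by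
        rw [hl, h1.eq, mul_inv_cancel_right]
      _ = _ := by rw [zpow_add, MulAut.mul_apply, mul_assoc]

theorem Pair.inv {h : IsSurf a b} {f' : MulAut (Fr n)} {f : MulAut G} (hf : Pair h f' f) :
    Pair h f'⁻¹ f⁻¹ := by
  refine ⟨fun z => ?_, ?_, ?_, fun y => ?_⟩
  · have h1 := hf.fj (f'⁻¹ z)
    rw [MulAut.apply_inv_self] at h1
    rw [← h1, MulAut.inv_apply_self]
  · have h1 := hf.fa
    conv_lhs => rw [← h1]
    rw [MulAut.inv_apply_self]
  · have h1 := hf.fb
    conv_lhs => rw [← h1]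
    rw [MulAut.inv_apply_self]
  · obtain ⟨k, hk⟩ := hf.fX (f'⁻¹ y)
    rw [MulAut.apply_inv_self] at hk
    refine ⟨-k, ?_⟩
    have h1 := (comm_TT h hf.fj hf.fa hf.fb).zpow_right k
    have h2 : XX h y = f * XX h (f'⁻¹ y) * f⁻¹ * (TT h ^ k)⁻¹ := by
      rw [hk, mul_inv_cancel_right]
    rw [h2, inv_inv, zpow_neg]
    have h3 : f⁻¹ * (TT h ^ k)⁻¹ * f = (TT h ^ k)⁻¹ := by
      have h4 := h1.inv_left.inv_right.eq
      rw [h4, inv_mul_cancel_right]
    calc f⁻¹ * (f * XX h (f'⁻¹ y) * f⁻¹ * (TT h ^ k)⁻¹) * f =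
        XX h (f'⁻¹ y) * (f⁻¹ * (TT h ^ k)⁻¹ * f) := by group
      _ = _ := by rw [h3]

end pairs

end Pool.MP_59b15d_al.H76R
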