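import Mathlib
import Pool.Agent.H.MP_59b15d_al.h76r.Rh

set_option autoImplicit false

namespace Pool.MP_59b15d_al.H76R

open Pool.MP_59b15d_al.H24T
open FreeGroup (of)

section boundary

variable {G : Type*} [Group G] {n : ℕ} {a b : Fin (n + 1) → G} (h : IsSurf a b)

/-- The commutator of a handle. -/
def kk (i : Fin n) : Fr n :=
  of (Sum.inl i) * of (Sum.inr i) * (of (Sum.inl i))⁻¹ * (of (Sum.inr i))⁻¹

/-- The commutator of a handle, in `G`. -/
def kG (a b : Fin (n + 1) → G) (i : Fin n) : G :=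
  a i.castSucc * b i.castSucc * (a i.castSucc)⁻¹ * (b i.castSucc)⁻¹

theorem jR_kk (i : Fin n) : jR a b (kk i) = kG a b i := by
  rw [kk, kG, map_mul, map_mul, map_mul, map_inv, map_inv, jR_a, jR_b]

theorem XK_eq (i : Fin n) : XX h (kk i) = Xa h i * Xb h i * (Xa h i)⁻¹ * (Xb h i)⁻¹ := by
  rw [kk, map_mul, map_mul, map_mul, map_inv, map_inv, XX_a, XX_b]

theorem XK_a_lt (i : Fin n) {k : Fin (n + 1)} (hk : k < i.castSucc) :
    XX h (kk i) (a k) = a k := by
  rw [XK_eq]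
  simp only [MulAut.mul_apply, Xbi_a_lt h i hk, Xai_a_lt h i hk, Xb_a_lt h i hk, Xa_a_lt h i hk]
theorem XK_b_lt (i : Fin n) {k : Fin (n + 1)} (hk : k < i.castSucc) :
    XX h (kk i) (b k) = b k := by
  rw [XK_eq]
  simp only [MulAut.mul_apply, Xbi_b_lt h i hk, Xai_b_lt h i hk, Xb_b_lt h i hk, Xa_b_lt h i hk]

theorem XK_al (i : Fin n) : XX h (kk i) (a (Fin.last n)) =
    (kG a b i * a (Fin.last n))⁻¹ * a (Fin.last n) * (kG a b i * a (Fin.last n)) := by
  rw [XK_eq, kG]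
  simp only [MulAut.mul_apply, Xbi_al, Xai_al, Xai_bj, Xb_al, Xb_aj,
    Xb_bj, Xa_al, Xa_aj, Xa_bj, map_mul, map_inv]
  group
theorem XK_ai (i : Fin n) : XX h (kk i) (a i.castSucc) =
    (a (Fin.last n))⁻¹ * a i.castSucc * a (Fin.last n) := by
  rw [XK_eq]
  simp only [MulAut.mul_apply, Xbi_aj, Xai_al, Xai_aj, Xb_al, Xb_aj,
    Xb_bj, Xa_al, Xa_aj, Xa_bj, map_mul, map_inv]
  group
theorem XK_bi (i : Fin n) : XX h (kk i) (b i.castSucc) =
    (a (Fin.last n))⁻¹ * b i.castSucc * a (Fin.last n) := by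
  rw [XK_eq]
  simp only [MulAut.mul_apply, Xbi_bj, Xai_al, Xai_bj, Xb_al, Xb_aj,
    Xb_bj, Xa_al, Xa_aj, Xa_bj, map_mul, map_inv]
  group
theorem XK_bl (i : Fin n) : XX h (kk i) (b (Fin.last n)) =
    b (Fin.last n) * a (Fin.last n) * kG a b i * a (Fin.last n) := by
  rw [XK_eq, kG]
  simp only [MulAut.mul_apply, Xbi_bl, Xai_al, Xai_bj, Xai_bl, Xb_al, Xb_aj,
    Xb_bj, Xb_bl, Xa_al, Xa_aj, Xa_bj, Xa_bl, map_mul, map_inv]
  group
theorem XK_a_mid (i : Fin n) {k : Fin (n + 1)} (hk : i.castSucc < k) (hk2 : k < Fin.last n) :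
    XX h (kk i) (a k) =
    ((a (Fin.last n))⁻¹ * (kG a b i)⁻¹ * a (Fin.last n) * kG a b i) * a k *
      ((a (Fin.last n))⁻¹ * (kG a b i)⁻¹ * a (Fin.last n) * kG a b i)⁻¹ := by
  rw [XK_eq, kG]
  simp only [MulAut.mul_apply, Xbi_a_mid h i hk hk2, Xai_a_mid h i hk hk2, Xb_a_mid h i hk hk2,
    Xa_a_mid h i hk hk2, Xai_al, Xai_bj, Xb_al, Xb_aj, Xb_bj, Xa_al, Xa_aj, Xa_bj,
    map_mul, map_inv]
  group
theorem XK_b_mid (i : Fin n) {k : Fin (n + 1)} (hk : i.castSucc < k) (hk2 : k < Fin.last n) :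
    XX h (kk i) (b k) =
    ((a (Fin.last n))⁻¹ * (kG a b i)⁻¹ * a (Fin.last n) * kG a b i) * b k *
      ((a (Fin.last n))⁻¹ * (kG a b i)⁻¹ * a (Fin.last n) * kG a b i)⁻¹ := by
  rw [XK_eq, kG]
  simp only [MulAut.mul_apply, Xbi_b_mid h i hk hk2, Xai_b_mid h i hk hk2, Xb_b_mid h i hk hk2,
    Xa_b_mid h i hk hk2, Xai_al, Xai_bj, Xb_al, Xb_aj, Xb_bj, Xa_al, Xa_aj, Xa_bj,
    map_mul, map_inv]
  group

/-- The boundary of the first `m` handles. -/
def dl : ℕ → Fr n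
  | 0 => 1
  | m + 1 => dl m * (if hm : m < n then kk ⟨m, hm⟩ else 1)

theorem dl_succ (m : ℕ) (hm : m < n) : (dl (m + 1) : Fr n) = dl m * kk ⟨m, hm⟩ := by
  rw [dl, dif_pos hm]

/-- The boundary of the first `m` handles, in `G`. -/
def dG (a b : Fin (n + 1) → G) (m : ℕ) : G := jR a b (dl m)

theorem dG_succ (m : ℕ) (hm : m < n) : dG a b (m + 1) = dG a b m * kG a b ⟨m, hm⟩ := by
  rw [dG, dG, dl_succ m hm, map_mul, jR_kk]

theorem dG_zero : dG a b 0 = 1 := by rw [dG, dl, map_one]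

/-- The push around the boundary of the first `m` handles. -/
theorem Xdl (m : ℕ) (hm : m ≤ n) :
    (∀ k : Fin (n + 1), (k : ℕ) < m →
      XX h (dl m) (a k) = (a (Fin.last n))⁻¹ * a k * a (Fin.last n) ∧
      XX h (dl m) (b k) = (a (Fin.last n))⁻¹ * b k * a (Fin.last n)) ∧
    (∀ k : Fin (n + 1), m ≤ (k : ℕ) → (k : ℕ) < n →
      XX h (dl m) (a k) = ((a (Fin.last n))⁻¹ * (dG a b m)⁻¹ * a (Fin.last n) * dG a b m) * a k *
        ((a (Fin.last n))⁻¹ * (dG a b m)⁻¹ * a (Fin.last n) * dG a b m)⁻¹ ∧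
      XX h (dl m) (b k) = ((a (Fin.last n))⁻¹ * (dG a b m)⁻¹ * a (Fin.last n) * dG a b m) * b k *
        ((a (Fin.last n))⁻¹ * (dG a b m)⁻¹ * a (Fin.last n) * dG a b m)⁻¹) ∧
    XX h (dl m) (a (Fin.last n)) =
      (dG a b m * a (Fin.last n))⁻¹ * a (Fin.last n) * (dG a b m * a (Fin.last n)) ∧
    ∃ l : ℤ, XX h (dl m) (b (Fin.last n)) =
      b (Fin.last n) * a (Fin.last n) ^ l * dG a b m * a (Fin.last n) := by
  induction m with
  | zero =>
    have h0 : XX h (dl 0) = 1 := by rw [dl, map_one]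
    rw [h0, dG_zero]
    refine ⟨fun k hk => absurd hk (Nat.not_lt_zero _), fun k _ _ => ?_, ?_, -1, ?_⟩
    · simp only [MulAut.one_apply]
      constructor <;> group
    · simp only [MulAut.one_apply]
      group
    · simp only [MulAut.one_apply]
      group
  | succ m ih =>
    have hmn : m < n := hm
    obtain ⟨i1, i2, i3, l, i4⟩ := ih hmn.le
    let i : Fin n := ⟨m, hmn⟩
    have hX : XX h (dl (m + 1)) = XX h (dl m) * XX h (kk i) := by
      rw [dl_succ m hmn, map_mul]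
    have hd : dG a b (m + 1) = dG a b m * kG a b i := dG_succ m hmn
    have hci : (i.castSucc : ℕ) = m := rfl
    have hkG : XX h (dl m) (kG a b i) =
        ((a (Fin.last n))⁻¹ * (dG a b m)⁻¹ * a (Fin.last n) * dG a b m) * kG a b i *
        ((a (Fin.last n))⁻¹ * (dG a b m)⁻¹ * a (Fin.last n) * dG a b m)⁻¹ := by
      have k1 := i2 i.castSucc hci.ge hmn
      rw [kG]
      simp only [map_mul, map_inv, k1.1, k1.2]
      group
    rw [hX, hd]
    simp only [MulAut.mul_apply]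
    refine ⟨fun k hk => ?_, fun k hk hk2 => ?_, ?_, l + 2, ?_⟩
    · rcases Nat.lt_succ_iff_lt_or_eq.mp hk with hk | hk
      · have hk' : k < i.castSucc := hk
        rw [XK_a_lt h i hk', XK_b_lt h i hk']
        exact i1 k hk
      · have hk' : k = i.castSucc := Fin.ext hk
        have k1 := i2 i.castSucc hci.ge hmn
        subst hk'
        rw [XK_ai, XK_bi]
        simp only [map_mul, map_inv, i3, k1.1, k1.2]
        constructor <;> group
    · have hk' : i.castSucc < k := hk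
      have hk2' : k < Fin.last n := hk2
      have k1 := i2 k (by omega) hk2
      rw [XK_a_mid h i hk' hk2', XK_b_mid h i hk' hk2']
      simp only [map_mul, map_inv, i3, hkG, k1.1, k1.2]
      constructor <;> group
    · rw [XK_al]
      simp only [map_mul, map_inv, i3, hkG]
      group
    · rw [XK_bl]
      simp only [map_mul, i3, i4, hkG]
      group

end boundary

end Pool.MP_59b15d_al.H76R
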