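import Mathlib
import Pool.Agent.H.MP_59b15d_al.h76m.Defs
import Pool.Agent.H.MP_59b15d_al.h76r.Rl

set_option autoImplicit false

namespace Pool.MP_59b15d_al.H76R

open Pool.MP_59b15d_al.H24T Pool.MP_59b15d_al.H76
open FreeGroup (of)

section sheets

/-- Two sheets, with the left multiplications. -/
def LL (P : Type*) [Group P] : P × P →* Equiv.Perm (P × Bool) where
  toFun := fun uv =>
    { toFun := fun y => (if y.2 then uv.2 * y.1 else uv.1 * y.1, y.2)
      invFun := fun y => (if y.2 then uv.2⁻¹ * y.1 else uv.1⁻¹ * y.1, y.2)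
      left_inv := by
        rintro ⟨y, c⟩
        cases c <;> simp
      right_inv := by
        rintro ⟨y, c⟩
        cases c <;> simp }
  map_one' := by
    ext ⟨y, c⟩ <;> cases c <;> simp
  map_mul' := by
    intro u v
    ext ⟨y, c⟩ <;> cases c <;> simp [mul_assoc]

/-- The swap of the two sheets. -/
def sw (P : Type*) : Equiv.Perm (P × Bool) where
  toFun := fun y => (y.1, !y.2)
  invFun := fun y => (y.1, !y.2)
  left_inv := by rintro ⟨y, c⟩; simp
  right_inv := by rintro ⟨y, c⟩; simp

theorem sw_LL {P : Type*} [Group P] (u v : P) :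
    sw P * LL P (u, v) * (sw P)⁻¹ = LL P (v, u) := by
  rw [mul_inv_eq_iff_eq_mul]
  ext ⟨y, c⟩ <;> cases c <;> simp [sw, LL]

theorem LL_false {P : Type*} [Group P] (u v : P) :
    LL P (u, v) (1, false) = (u, false) := by
  simp [LL]

variable {n : ℕ}

theorem dl_eq (m : ℕ) (hm : m ≤ n) : (dl m : Fr n) =
    relWord (fun i : Fin m => of (Sum.inl (⟨i, by omega⟩ : Fin n)))
      (fun i : Fin m => of (Sum.inr (⟨i, by omega⟩ : Fin n))) := by
  induction m with
  | zero => rw [dl, relWord_zero]
  | succ m ih =>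
    rw [dl_succ m hm, ih (by omega), relWord_last]
    rfl

theorem dl_eq' : (dl n : Fr n) =
    relWord (fun i : Fin n => of (Sum.inl i)) (fun i : Fin n => of (Sum.inr i)) := by
  rw [dl_eq n le_rfl]

/-- The reversal of the handles. -/
def rv (n : ℕ) : Fr n →* Fr n :=
  FreeGroup.lift (Sum.elim (fun i => of (Sum.inr i.rev)) (fun i => of (Sum.inl i.rev)))

theorem rv_dl : rv n (dl n) = (dl n)⁻¹ := by
  rw [dl_eq', map_relWord]
  have h1 : ∀ i : Fin n, rv n (of (Sum.inl i)) = of (Sum.inr i.rev) := by intro i; simp [rv]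
  have h2 : ∀ i : Fin n, rv n (of (Sum.inr i)) = of (Sum.inl i.rev) := by intro i; simp [rv]
  simp only [h1, h2]
  unfold relWord
  rw [List.prod_inv_reverse, List.map_ofFn]
  congr 1
  apply List.ext_getElem
  · simp
  · intro k h3 h4
    simp only [List.getElem_ofFn, List.getElem_reverse, List.length_ofFn, Function.comp]
    have h5 : (⟨k, by simpa using h3⟩ : Fin n).rev = ⟨n - 1 - k, by
        have : k < n := by simpa using h3
        omega⟩ := by
      apply Fin.ext
      simp only [Fin.val_rev]
      omega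
    rw [h5]
    group

variable {G : Type*} [Group G] {a b : Fin (n + 1) → G} (h : IsSurf a b)

/-- The free group on the generators of the first handles and the last `a`. -/
abbrev Fp (n : ℕ) : Type := FreeGroup (Option (Fin n ⊕ Fin n))

/-- Its homomorphism to `G`. -/
def jA (a b : Fin (n + 1) → G) : Fp n →* G :=
  FreeGroup.lift (fun x => x.elim (a (Fin.last n)) (fun y => jR a b (of y)))

/-- The homomorphism killing the last `a`. -/
def p1 {P : Type*} [Group P] (π : Fr n →* P) : Fp n →* P :=
  FreeGroup.lift (fun x => x.elim 1 (fun y => π (of y)))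

/-- The homomorphism of the other sheet. -/
def p2 {P : Type*} [Group P] (π : Fr n →* P) : Fp n →* P :=
  FreeGroup.lift (fun x => x.elim (π (dl n)) (fun y => π (rv n (of y))))

theorem jA_none : jA a b (of none) = a (Fin.last n) := by simp [jA]
theorem jA_a (k : Fin n) : jA a b (of (some (Sum.inl k))) = a k.castSucc := by
  simp [jA, jR_a]
theorem jA_b (k : Fin n) : jA a b (of (some (Sum.inr k))) = b k.castSucc := by
  simp [jA, jR_b]
theorem p1_none {P : Type*} [Group P] (π : Fr n →* P) : p1 π (of none) = 1 := by simp [p1]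
theorem p1_some {P : Type*} [Group P] (π : Fr n →* P) (y : Fin n ⊕ Fin n) :
    p1 π (of (some y)) = π (of y) := by simp [p1]
theorem p2_none {P : Type*} [Group P] (π : Fr n →* P) : p2 π (of none) = π (dl n) := by
  simp [p2]
theorem p2_some {P : Type*} [Group P] (π : Fr n →* P) (y : Fin n ⊕ Fin n) :
    p2 π (of (some y)) = π (rv n (of y)) := by simp [p2]

include h in
/-- The action on two sheets. -/
theorem exists_Psi {P : Type*} [Group P] (π : Fr n →* P) :
    ∃ Ψ : G →* Equiv.Perm (P × Bool), (∀ w, Ψ (jA a b w) = LL P (p1 π w, p2 π w)) ∧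
      Ψ (b (Fin.last n)) = sw P := by
  obtain ⟨Ψ, h1, h2⟩ := h.lift
    (Fin.snoc (α := fun _ => Equiv.Perm (P × Bool))
      (fun i => LL P (π (of (Sum.inl i)), π (rv n (of (Sum.inl i))))) (LL P (1, π (dl n))))
    (Fin.snoc (α := fun _ => Equiv.Perm (P × Bool))
      (fun i => LL P (π (of (Sum.inr i)), π (rv n (of (Sum.inr i))))) (sw P)) (by
      rw [relWord_last]
      simp only [Fin.snoc_castSucc, Fin.snoc_last]
      have h3 := map_relWord ((LL P).comp (π.prod (π.comp (rv n))))
        (fun i : Fin n => of (Sum.inl i)) (fun i : Fin n => of (Sum.inr i))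
      rw [← dl_eq'] at h3
      have h4 : ((LL P).comp (π.prod (π.comp (rv n)))) (dl n) =
          LL P (π (dl n), (π (dl n))⁻¹) := by
        simp only [MonoidHom.comp_apply, MonoidHom.prod_apply, rv_dl, map_inv]
      rw [h4] at h3
      have h5 : relWord (fun i : Fin n => LL P (π (of (Sum.inl i)), π (rv n (of (Sum.inl i)))))
          (fun i : Fin n => LL P (π (of (Sum.inr i)), π (rv n (of (Sum.inr i))))) =
          LL P (π (dl n), (π (dl n))⁻¹) := h3.symm
      rw [h5]
      have h6 : sw P * (LL P (1, π (dl n)))⁻¹ * (sw P)⁻¹ = LL P ((π (dl n))⁻¹, 1) := by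
        rw [← map_inv, Prod.inv_mk, inv_one, sw_LL]
      have h7 : LL P (1, π (dl n)) * sw P * (LL P (1, π (dl n)))⁻¹ * (sw P)⁻¹ =
          LL P (1, π (dl n)) * (sw P * (LL P (1, π (dl n)))⁻¹ * (sw P)⁻¹) := by group
      rw [h7, h6, ← map_mul, ← map_mul]
      simp only [Prod.mk_mul_mk, one_mul, mul_one, mul_inv_cancel, inv_mul_cancel]
      exact map_one (LL P))
  refine ⟨Ψ, fun w => ?_, ?_⟩
  · have h3 : Ψ.comp (jA a b) = (LL P).comp ((p1 π).prod (p2 π)) := by
      ext1 x
      rcases x with _ | (k | k)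
      · change Ψ (jA a b (of none)) = LL P (p1 π (of none), p2 π (of none))
        rw [jA_none, p1_none, p2_none, h1, Fin.snoc_last]
      · change Ψ (jA a b (of (some (Sum.inl k)))) =
          LL P (p1 π (of (some (Sum.inl k))), p2 π (of (some (Sum.inl k))))
        rw [jA_a, p1_some, p2_some, h1, Fin.snoc_castSucc]
      · change Ψ (jA a b (of (some (Sum.inr k)))) =
          LL P (p1 π (of (some (Sum.inr k))), p2 π (of (some (Sum.inr k))))
        rw [jA_b, p1_some, p2_some, h2, Fin.snoc_castSucc]
    exact DFunLike.congr_fun h3 w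
  · rw [h2, Fin.snoc_last]

end sheets

end Pool.MP_59b15d_al.H76R
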