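import Mathlib
import Pool.Agent.H.MP_59b15d_al.h76r.Re

set_option autoImplicit false

namespace Pool.MP_59b15d_al.H76R

open Pool.MP_59b15d_al.H24T

section braid

variable {G : Type*} [Group G] {m : ℕ} {a b : Fin m → G} (h : IsSurf a b)

theorem TBi_a (i : Fin m) : (TB h i)⁻¹ (a i) = a i * (b i)⁻¹ := by
  have := (exists_TB h i).choose_spec.2.2.1 i
  rwa [if_pos rfl] at this
theorem TBi_a_ne {i k : Fin m} (hk : k ≠ i) : (TB h i)⁻¹ (a k) = a k := by
  have := (exists_TB h i).choose_spec.2.2.1 k
  rwa [if_neg hk] at this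
theorem TBi_b (i k : Fin m) : (TB h i)⁻¹ (b k) = b k := (exists_TB h i).choose_spec.2.2.2 k

theorem TAi_a (i k : Fin m) : (TA h i)⁻¹ (a k) = a k := (exists_TA h i).choose_spec.2.2.1 k
theorem TAi_b (i : Fin m) : (TA h i)⁻¹ (b i) = b i * (a i)⁻¹ := by
  have := (exists_TA h i).choose_spec.2.2.2 i
  rwa [if_pos rfl] at this
theorem TAi_b_ne {i k : Fin m} (hk : k ≠ i) : (TA h i)⁻¹ (b k) = b k := by
  have := (exists_TA h i).choose_spec.2.2.2 k
  rwa [if_neg hk] at this

theorem TB_comm_TB {i j : Fin m} (hij : i ≠ j) : Commute (TB h i) (TB h j) := by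
  change TB h i * TB h j = TB h j * TB h i
  apply aut_ext h
  · intro k
    rw [MulAut.mul_apply, MulAut.mul_apply]
    by_cases hi : k = i
    · subst hi
      simp only [TB_a_ne h hij, TB_a, TB_b, map_mul]
    · by_cases hj : k = j
      · subst hj
        simp only [TB_a_ne h hij.symm, TB_a, TB_b, map_mul]
      · simp only [TB_a_ne h hi, TB_a_ne h hj]
  · intro k
    rw [MulAut.mul_apply, MulAut.mul_apply]
    simp only [TB_b]

/-- The braid relation of the two twists of a handle. -/
theorem braid_AB (i : Fin m) :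
    TA h i * (TB h i)⁻¹ * TA h i = (TB h i)⁻¹ * TA h i * (TB h i)⁻¹ := by
  apply aut_ext h
  · intro k
    simp only [MulAut.mul_apply]
    by_cases hi : k = i
    · subst hi
      simp only [TBi_a, TBi_b, TA_a, TA_b, map_mul, map_inv]
      group
    · simp only [TBi_a_ne h hi, TA_a]
  · intro k
    simp only [MulAut.mul_apply]
    by_cases hi : k = i
    · subst hi
      simp only [TBi_a, TBi_b, TA_a, TA_b, map_mul, map_inv]
      group
    · simp only [TBi_b, TA_b_ne h hi]

theorem ne_of_hij' {i j : Fin m} (hij : (j : ℕ) = i + 1) : j ≠ i := by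
  intro h1
  rw [h1] at hij
  omega

/-- The braid relation of `C` and `B`. -/
theorem braid_CB {i j : Fin m} (hij : (j : ℕ) = i + 1) :
    TC h i j hij * TB h j * TC h i j hij = TB h j * TC h i j hij * TB h j := by
  have hji := ne_of_hij' hij
  apply aut_ext h
  · intro k
    simp only [MulAut.mul_apply]
    by_cases hi : k = i
    · subst hi
      simp only [TC_ai, TC_aj, TC_bi, TC_bj, TB_a, TB_b, TB_a_ne h hji.symm, map_mul, map_inv]
      group
    · by_cases hj : k = j
      · subst hj
        simp only [TC_aj, TC_bi, TC_bj, TB_a, TB_b, map_mul, map_inv]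
        group
      · simp only [TC_a_ne h hij hi hj, TB_a_ne h hj]
  · intro k
    simp only [MulAut.mul_apply]
    by_cases hi : k = i
    · subst hi
      simp only [TC_aj, TC_bi, TC_bj, TB_a, TB_b, map_mul, map_inv]
      group
    · by_cases hj : k = j
      · subst hj
        simp only [TC_aj, TC_bi, TC_bj, TB_a, TB_b, map_mul, map_inv]
        group
      · simp only [TC_b_ne h hij hi hj, TB_b]

/-- The braid relation of `C` and `A`. -/
theorem braid_CA {i j : Fin m} (hij : (j : ℕ) = i + 1) :
    TC h i j hij * (TA h i)⁻¹ * TC h i j hij = (TA h i)⁻¹ * TC h i j hij * (TA h i)⁻¹ := by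
  have hji := ne_of_hij' hij
  apply aut_ext h
  · intro k
    simp only [MulAut.mul_apply]
    by_cases hi : k = i
    · subst hi
      simp only [TC_ai, TC_aj, TC_bi, TAi_a, TAi_b, map_mul, map_inv]
      group
    · by_cases hj : k = j
      · subst hj
        simp only [TC_ai, TC_aj, TC_bi, TAi_a, TAi_b, map_mul, map_inv]
        group
      · simp only [TC_a_ne h hij hi hj, TAi_a]
  · intro k
    simp only [MulAut.mul_apply]
    by_cases hi : k = i
    · subst hi
      simp only [TC_ai, TC_aj, TC_bi, TAi_a, TAi_b, map_mul, map_inv]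
      group
    · by_cases hj : k = j
      · subst hj
        simp only [TC_ai, TC_aj, TC_bi, TC_bj, TAi_a, TAi_b, TAi_b_ne h hji, map_mul, map_inv]
        group
      · simp only [TC_b_ne h hij hi hj, TAi_b_ne h hi]

/-- In a group, the second element of a braid relation is obtained from the first one. -/
theorem braid_solve {P : Type*} [Group P] {s t : P} (hst : s * t * s = t * s * t)
    (S : Subgroup P) (hs : s ∈ S) (h1 : t * s * t⁻¹ ∈ S) : t ∈ S := by
  have h3 : t * s * t⁻¹ = s⁻¹ * t * s := by
    rw [mul_inv_eq_iff_eq_mul, ← mul_right_inj s]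
    calc s * (t * s) = s * t * s := by group
      _ = t * s * t := hst
      _ = s * (s⁻¹ * t * s * t) := by group
  have h2 : t = s * (t * s * t⁻¹) * s⁻¹ := by
    rw [h3]
    group
  rw [h2]
  exact S.mul_mem (S.mul_mem hs h1) (S.inv_mem hs)

end braid

section xzero

variable {G : Type*} [Group G] {n : ℕ} {a b : Fin (n + 1) → G} (h : IsSurf a b)

/-- The push around the last `b` is a product of two twists. -/
theorem X0_eq (j : Fin n) (hj : ((Fin.last n : Fin (n + 1)) : ℕ) = j.castSucc + 1) :
    Xb h j * TB h j.castSucc = TC h j.castSucc (Fin.last n) hj := by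
  have hl := last_ne_cs j
  have hnomid : ∀ k : Fin (n + 1), j.castSucc < k → k < Fin.last n → False := by
    intro k hk hk2
    rw [Fin.lt_def] at hk hk2
    omega
  apply aut_ext h
  · intro k
    rw [MulAut.mul_apply]
    rcases seg_cases j k with hk | hk | ⟨hk, hk2⟩ | hk
    · rw [TB_a_ne h hk.ne, Xb_a_lt h j hk, TC_a_ne h hj hk.ne
        (hk.trans (Fin.castSucc_lt_last j)).ne]
    · subst hk
      simp only [TB_a, Xb_aj, Xb_bj, TC_ai, map_mul]
      group
    · exact (hnomid k hk hk2).elim
    · subst hk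
      simp only [TB_a_ne h hl, Xb_al, TC_aj]
      group
  · intro k
    rw [MulAut.mul_apply, TB_b]
    rcases seg_cases j k with hk | hk | ⟨hk, hk2⟩ | hk
    · rw [Xb_b_lt h j hk, TC_b_ne h hj hk.ne (hk.trans (Fin.castSucc_lt_last j)).ne]
    · subst hk
      simp only [Xb_bj, TC_bi]
      group
    · exact (hnomid k hk hk2).elim
    · subst hk
      simp only [Xb_bl, TC_bj]
      group

end xzero

end Pool.MP_59b15d_al.H76R
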