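import Mathlib
import Pool.Agent.H.MP_59b15d_al.h76r.Re

set_option autoImplicit false

namespace Pool.MP_59b15d_al.H76R

open Pool.MP_59b15d_al.H24T

section special

variable {G : Type*} [Group G] {n : ℕ} {a b : Fin (n + 1) → G} (h : IsSurf a b)

theorem cs_hij {i j : Fin n} (hij : (j : ℕ) = i + 1) : (j.castSucc : ℕ) = i.castSucc + 1 := hij

/-- The push around the curve joining the handles `i` and `j`. -/
noncomputable def Xu (i j : Fin n) : MulAut G := (Xa h j)⁻¹ * Xb h i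

section vals

variable {i j : Fin n} (hij : (j : ℕ) = i + 1)

theorem lt_cs {i j : Fin n} (hij : (j : ℕ) = i + 1) : i.castSucc < j.castSucc := by
  rw [Fin.lt_def]
  simp only [Fin.val_castSucc]
  omega

theorem five_cases {i j : Fin n} (hij : (j : ℕ) = i + 1) (k : Fin (n + 1)) :
    k < i.castSucc ∨ k = i.castSucc ∨ k = j.castSucc ∨ (j.castSucc < k ∧ k < Fin.last n) ∨
      k = Fin.last n := by
  rcases seg_cases j k with hk | hk | hk | hk
  · rcases seg_cases i k with hk' | hk' | ⟨hk', _⟩ | hk'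
    · exact Or.inl hk'
    · exact Or.inr (Or.inl hk')
    · exfalso
      rw [Fin.lt_def] at hk hk'
      simp only [Fin.val_castSucc] at hk hk'
      omega
    · exact Or.inr (Or.inr (Or.inr (Or.inr hk')))
  · exact Or.inr (Or.inr (Or.inl hk))
  · exact Or.inr (Or.inr (Or.inr (Or.inl hk)))
  · exact Or.inr (Or.inr (Or.inr (Or.inr hk)))

theorem Xu_a_lt {k : Fin (n + 1)} (hij : (j : ℕ) = i + 1) (hk : k < i.castSucc) :
    Xu h i j (a k) = a k := by
  have hk2 := hk.trans (lt_cs hij)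
  rw [Xu, MulAut.mul_apply, Xb_a_lt h i hk, Xai_a_lt h j hk2]
theorem Xu_b_lt {k : Fin (n + 1)} (hij : (j : ℕ) = i + 1) (hk : k < i.castSucc) :
    Xu h i j (b k) = b k := by
  have hk2 := hk.trans (lt_cs hij)
  rw [Xu, MulAut.mul_apply, Xb_b_lt h i hk, Xai_b_lt h j hk2]
theorem Xu_ai (hij : (j : ℕ) = i + 1) : Xu h i j (a i.castSucc) =
    a i.castSucc * ((b i.castSucc)⁻¹ * a j.castSucc * (a (Fin.last n))⁻¹ * (a j.castSucc)⁻¹ *
      b i.castSucc) := by
  rw [Xu, MulAut.mul_apply]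
  simp only [Xb_aj, map_mul, map_inv, Xai_a_lt h j (lt_cs hij), Xai_b_lt h j (lt_cs hij), Xai_al]
  group
theorem Xu_bi (hij : (j : ℕ) = i + 1) : Xu h i j (b i.castSucc) =
    (b i.castSucc)⁻¹ * a j.castSucc * a (Fin.last n) * (a j.castSucc)⁻¹ * b i.castSucc *
      a j.castSucc * (a (Fin.last n))⁻¹ * (a j.castSucc)⁻¹ * b i.castSucc := by
  rw [Xu, MulAut.mul_apply]
  simp only [Xb_bj, map_mul, map_inv, Xai_b_lt h j (lt_cs hij), Xai_al]
  group
theorem Xu_al (hij : (j : ℕ) = i + 1) : Xu h i j (a (Fin.last n)) =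
    (b i.castSucc)⁻¹ * a j.castSucc * a (Fin.last n) * (a j.castSucc)⁻¹ * b i.castSucc := by
  rw [Xu, MulAut.mul_apply]
  simp only [Xb_al, map_mul, map_inv, Xai_b_lt h j (lt_cs hij), Xai_al]
  group
theorem Xu_bl (hij : (j : ℕ) = i + 1) : Xu h i j (b (Fin.last n)) =
    b (Fin.last n) * (a (Fin.last n))⁻¹ * (a (Fin.last n))⁻¹ * (a j.castSucc)⁻¹ *
      b i.castSucc := by
  rw [Xu, MulAut.mul_apply]
  simp only [Xb_bl, map_mul, map_inv, Xai_b_lt h j (lt_cs hij), Xai_al, Xai_bl]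
  group
theorem Xu_aj (hij : (j : ℕ) = i + 1) : Xu h i j (a j.castSucc) =
    (b i.castSucc)⁻¹ * a j.castSucc * a (Fin.last n) * (a j.castSucc)⁻¹ * b i.castSucc *
      a j.castSucc *
    ((b i.castSucc)⁻¹ * a j.castSucc * a (Fin.last n) * (a j.castSucc)⁻¹ * b i.castSucc)⁻¹ := by
  rw [Xu, MulAut.mul_apply]
  simp only [Xb_a_mid h i (lt_cs hij) (Fin.castSucc_lt_last j), map_mul, map_inv,
    Xai_b_lt h j (lt_cs hij), Xai_al, Xai_aj]
  group
theorem Xu_bj (hij : (j : ℕ) = i + 1) : Xu h i j (b j.castSucc) =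
    (b i.castSucc)⁻¹ * a j.castSucc * a (Fin.last n) * (a j.castSucc)⁻¹ * b i.castSucc *
      (a (Fin.last n))⁻¹ * b j.castSucc *
    ((b i.castSucc)⁻¹ * a j.castSucc * a (Fin.last n) * (a j.castSucc)⁻¹ * b i.castSucc)⁻¹ := by
  rw [Xu, MulAut.mul_apply]
  simp only [Xb_b_mid h i (lt_cs hij) (Fin.castSucc_lt_last j), map_mul, map_inv,
    Xai_b_lt h j (lt_cs hij), Xai_al, Xai_bj]
  group
theorem Xu_a_mid (hij : (j : ℕ) = i + 1) {k : Fin (n + 1)} (hk : j.castSucc < k)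
    (hk2 : k < Fin.last n) : Xu h i j (a k) =
    ((b i.castSucc)⁻¹ * a j.castSucc * a (Fin.last n) * (a j.castSucc)⁻¹ * b i.castSucc *
      (a (Fin.last n))⁻¹) * a k *
    ((b i.castSucc)⁻¹ * a j.castSucc * a (Fin.last n) * (a j.castSucc)⁻¹ * b i.castSucc *
      (a (Fin.last n))⁻¹)⁻¹ := by
  rw [Xu, MulAut.mul_apply]
  simp only [Xb_a_mid h i ((lt_cs hij).trans hk) hk2, map_mul, map_inv,
    Xai_b_lt h j (lt_cs hij), Xai_al, Xai_a_mid h j hk hk2]
  group
theorem Xu_b_mid (hij : (j : ℕ) = i + 1) {k : Fin (n + 1)} (hk : j.castSucc < k)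
    (hk2 : k < Fin.last n) : Xu h i j (b k) =
    ((b i.castSucc)⁻¹ * a j.castSucc * a (Fin.last n) * (a j.castSucc)⁻¹ * b i.castSucc *
      (a (Fin.last n))⁻¹) * b k *
    ((b i.castSucc)⁻¹ * a j.castSucc * a (Fin.last n) * (a j.castSucc)⁻¹ * b i.castSucc *
      (a (Fin.last n))⁻¹)⁻¹ := by
  rw [Xu, MulAut.mul_apply]
  simp only [Xb_b_mid h i ((lt_cs hij).trans hk) hk2, map_mul, map_inv,
    Xai_b_lt h j (lt_cs hij), Xai_al, Xai_b_mid h j hk hk2]
  group

end vals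

/-- The twist joining the handles `i` and `j`. -/
noncomputable def TCc {i j : Fin n} (hij : (j : ℕ) = i + 1) : MulAut G :=
  TC h i.castSucc j.castSucc (cs_hij hij)

section tcvals

variable {i j : Fin n} (hij : (j : ℕ) = i + 1)

theorem TCc_ai : TCc h hij (a i.castSucc) =
    a i.castSucc * ((a j.castSucc)⁻¹ * b i.castSucc) := TC_ai h _ _ _
theorem TCc_aj : TCc h hij (a j.castSucc) =
    ((a j.castSucc)⁻¹ * b i.castSucc)⁻¹ * a j.castSucc * ((a j.castSucc)⁻¹ * b i.castSucc) :=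
  TC_aj h _ _ _
theorem TCc_bi : TCc h hij (b i.castSucc) =
    ((a j.castSucc)⁻¹ * b i.castSucc)⁻¹ * a j.castSucc * ((a j.castSucc)⁻¹ * b i.castSucc) *
      ((a j.castSucc)⁻¹ * b i.castSucc) := TC_bi h _ _ _
theorem TCc_bj : TCc h hij (b j.castSucc) =
    b j.castSucc * ((a j.castSucc)⁻¹ * b i.castSucc) := TC_bj h _ _ _
theorem TCc_a_ne {k : Fin (n + 1)} (h1 : k ≠ i.castSucc) (h2 : k ≠ j.castSucc) :
    TCc h hij (a k) = a k := TC_a_ne h _ h1 h2
theorem TCc_b_ne {k : Fin (n + 1)} (h1 : k ≠ i.castSucc) (h2 : k ≠ j.castSucc) :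
    TCc h hij (b k) = b k := TC_b_ne h _ h1 h2

end tcvals

theorem TC_Xu {i j : Fin n} (hij : (j : ℕ) = i + 1) :
    TCc h hij * Xu h i j = Xu h i j * TCc h hij := by
  have hlt := lt_cs hij
  apply aut_ext h
  · intro k
    rw [MulAut.mul_apply, MulAut.mul_apply]
    rcases five_cases hij k with hk | hk | hk | ⟨hk, hk2⟩ | hk
    · simp only [Xu_a_lt h hij hk, TCc_a_ne h hij hk.ne (hk.trans hlt).ne]
    · subst hk
      simp only [Xu_ai h hij, Xu_aj h hij, Xu_bi h hij, TCc_ai, TCc_aj, TCc_bi,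
        TCc_a_ne h hij (last_ne_cs i) (last_ne_cs j), map_mul, map_inv]
      group
    · subst hk
      simp only [Xu_aj h hij, Xu_bi h hij, TCc_aj, TCc_bi,
        TCc_a_ne h hij (last_ne_cs i) (last_ne_cs j), map_mul, map_inv]
      group
    · simp only [Xu_a_mid h hij hk hk2, TCc_aj, TCc_bi,
        TCc_a_ne h hij (last_ne_cs i) (last_ne_cs j), TCc_a_ne h hij (hlt.trans hk).ne' hk.ne',
        map_mul, map_inv]
      group
    · subst hk
      simp only [Xu_al h hij, TCc_aj, TCc_bi,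
        TCc_a_ne h hij (last_ne_cs i) (last_ne_cs j), map_mul, map_inv]
      group
  · intro k
    rw [MulAut.mul_apply, MulAut.mul_apply]
    rcases five_cases hij k with hk | hk | hk | ⟨hk, hk2⟩ | hk
    · simp only [Xu_b_lt h hij hk, TCc_b_ne h hij hk.ne (hk.trans hlt).ne]
    · subst hk
      simp only [Xu_aj h hij, Xu_bi h hij, TCc_aj, TCc_bi,
        TCc_a_ne h hij (last_ne_cs i) (last_ne_cs j), map_mul, map_inv]
      group
    · subst hk
      simp only [Xu_aj h hij, Xu_bi h hij, Xu_bj h hij, TCc_aj, TCc_bi, TCc_bj,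
        TCc_a_ne h hij (last_ne_cs i) (last_ne_cs j), map_mul, map_inv]
      group
    · simp only [Xu_b_mid h hij hk hk2, TCc_aj, TCc_bi,
        TCc_a_ne h hij (last_ne_cs i) (last_ne_cs j), TCc_b_ne h hij (hlt.trans hk).ne' hk.ne',
        map_mul, map_inv]
      group
    · subst hk
      simp only [Xu_bl h hij, TCc_aj, TCc_bi,
        TCc_a_ne h hij (last_ne_cs i) (last_ne_cs j), TCc_b_ne h hij (last_ne_cs i) (last_ne_cs j),
        map_mul, map_inv]
      group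

end special

end Pool.MP_59b15d_al.H76R
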