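import Mathlib
import Pool.Agent.H.MP_59b15d_al.h76r.Rf

set_option autoImplicit false

namespace Pool.MP_59b15d_al.H76R

open Pool.MP_59b15d_al.H24T

section special

variable {G : Type*} [Group G] {n : ℕ} {a b : Fin (n + 1) → G} (h : IsSurf a b)

theorem TC_Xa1 {i j : Fin n} (hij : (j : ℕ) = i + 1) :
    TCc h hij * Xa h i = Xa h i * Xu h i j * TA h (Fin.last n) * TCc h hij := by
  have hlt := lt_cs hij
  have hjl := Fin.castSucc_lt_last j
  have hil := Fin.castSucc_lt_last i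
  apply aut_ext h
  · intro k
    rw [MulAut.mul_apply, MulAut.mul_apply, MulAut.mul_apply, MulAut.mul_apply]
    rcases five_cases hij k with hk | hk | hk | ⟨hk, hk2⟩ | hk
    · simp only [Xu_a_lt h hij hk, TCc_a_ne h hij hk.ne (hk.trans hlt).ne, Xa_a_lt h i hk, TA_a]
    · subst hk
      simp only [Xa_aj, Xa_bj, Xa_al, Xa_a_mid h i hlt hjl, Xu_ai h hij, Xu_aj h hij, Xu_bi h hij,
        TCc_ai,
        TCc_a_ne h hij (last_ne_cs i) (last_ne_cs j), TA_a, TA_b_ne h hil.ne, map_mul, map_inv]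
      group
    · subst hk
      simp only [Xa_aj, Xa_bj, Xa_al, Xa_a_mid h i hlt hjl, Xu_aj h hij, Xu_bi h hij,
        TCc_ai, TCc_aj,
        TCc_a_ne h hij (last_ne_cs i) (last_ne_cs j), TA_a, TA_b_ne h hil.ne, map_mul, map_inv]
      group
    · simp only [Xa_aj, Xa_bj, Xa_al, Xa_a_mid h i (hlt.trans hk) hk2, Xa_a_mid h i hlt hjl,
        Xu_a_mid h hij hk hk2,
        TCc_ai, TCc_a_ne h hij (last_ne_cs i) (last_ne_cs j),
        TCc_a_ne h hij (hlt.trans hk).ne' hk.ne', TA_a, map_mul, map_inv]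
      group
    · subst hk
      simp only [Xa_bj, Xa_al, Xa_a_mid h i hlt hjl, Xu_al h hij,
        TCc_ai, TCc_a_ne h hij (last_ne_cs i) (last_ne_cs j), TA_a, map_mul, map_inv]
      group
  · intro k
    rw [MulAut.mul_apply, MulAut.mul_apply, MulAut.mul_apply, MulAut.mul_apply]
    rcases five_cases hij k with hk | hk | hk | ⟨hk, hk2⟩ | hk
    · simp only [Xu_b_lt h hij hk, TCc_b_ne h hij hk.ne (hk.trans hlt).ne, Xa_b_lt h i hk,
        TA_b_ne h (hk.trans hil).ne]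
    · subst hk
      simp only [Xa_bj, Xa_al, Xa_a_mid h i hlt hjl, Xu_aj h hij, Xu_bi h hij,
        TCc_ai, TCc_bi,
        TCc_a_ne h hij (last_ne_cs i) (last_ne_cs j), TA_a, TA_b_ne h hil.ne, map_mul, map_inv]
      group
    · subst hk
      simp only [Xa_bj, Xa_al, Xa_a_mid h i hlt hjl, Xa_b_mid h i hlt hjl, Xu_aj h hij,
        Xu_bi h hij, Xu_bj h hij, TCc_ai, TCc_bj,
        TCc_a_ne h hij (last_ne_cs i) (last_ne_cs j), TA_a, TA_b_ne h hil.ne, TA_b_ne h hjl.ne,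
        map_mul, map_inv]
      group
    · simp only [Xa_bj, Xa_al, Xa_b_mid h i (hlt.trans hk) hk2, Xa_a_mid h i hlt hjl,
        Xu_b_mid h hij hk hk2,
        TCc_ai, TCc_a_ne h hij (last_ne_cs i) (last_ne_cs j),
        TCc_b_ne h hij (hlt.trans hk).ne' hk.ne', TA_b_ne h hk2.ne, map_mul, map_inv]
      group
    · subst hk
      simp only [Xa_bj, Xa_al, Xa_bl, Xa_a_mid h i hlt hjl, Xu_al h hij, Xu_bl h hij,
        TCc_ai, TCc_a_ne h hij (last_ne_cs i) (last_ne_cs j),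
        TCc_b_ne h hij (last_ne_cs i) (last_ne_cs j), TA_a, TA_b, map_mul, map_inv]
      group

theorem TC_Xa2 {i j : Fin n} (hij : (j : ℕ) = i + 1) :
    Xu h i j * TCc h hij * Xa h j = Xa h j * Xu h i j * TCc h hij := by
  have hlt := lt_cs hij
  have hjl := Fin.castSucc_lt_last j
  have hil := Fin.castSucc_lt_last i
  apply aut_ext h
  · intro k
    rw [MulAut.mul_apply, MulAut.mul_apply, MulAut.mul_apply, MulAut.mul_apply]
    rcases five_cases hij k with hk | hk | hk | ⟨hk, hk2⟩ | hk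
    · simp only [Xu_a_lt h hij hk, TCc_a_ne h hij hk.ne (hk.trans hlt).ne,
        Xa_a_lt h j (hk.trans hlt)]
    · subst hk
      simp only [Xa_aj, Xa_al, Xa_a_lt h j hlt, Xa_b_lt h j hlt, Xu_ai h hij, Xu_aj h hij,
        Xu_bi h hij, TCc_ai, map_mul, map_inv]
      group
    · subst hk
      simp only [Xa_aj, Xa_al, Xa_b_lt h j hlt, Xu_aj h hij, Xu_bi h hij, Xu_al h hij,
        TCc_aj, TCc_a_ne h hij (last_ne_cs i) (last_ne_cs j), map_mul, map_inv]
      group
    · simp only [Xa_aj, Xa_al, Xa_a_mid h j hk hk2, Xa_b_lt h j hlt,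
        Xu_a_mid h hij hk hk2, Xu_aj h hij, Xu_bi h hij, Xu_al h hij,
        TCc_aj, TCc_a_ne h hij (last_ne_cs i) (last_ne_cs j),
        TCc_a_ne h hij (hlt.trans hk).ne' hk.ne', map_mul, map_inv]
      group
    · subst hk
      simp only [Xa_aj, Xa_al, Xa_b_lt h j hlt, Xu_aj h hij, Xu_bi h hij, Xu_al h hij,
        TCc_aj, TCc_a_ne h hij (last_ne_cs i) (last_ne_cs j), map_mul, map_inv]
      group
  · intro k
    rw [MulAut.mul_apply, MulAut.mul_apply, MulAut.mul_apply, MulAut.mul_apply]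
    rcases five_cases hij k with hk | hk | hk | ⟨hk, hk2⟩ | hk
    · simp only [Xu_b_lt h hij hk, TCc_b_ne h hij hk.ne (hk.trans hlt).ne,
        Xa_b_lt h j (hk.trans hlt)]
    · subst hk
      simp only [Xa_aj, Xa_al, Xa_b_lt h j hlt, Xu_aj h hij,
        Xu_bi h hij, TCc_bi, map_mul, map_inv]
      group
    · subst hk
      simp only [Xa_aj, Xa_bj, Xa_al, Xa_b_lt h j hlt, Xu_aj h hij, Xu_bi h hij, Xu_bj h hij,
        Xu_al h hij,
        TCc_aj, TCc_bj, TCc_a_ne h hij (last_ne_cs i) (last_ne_cs j), map_mul, map_inv]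
      group
    · simp only [Xa_aj, Xa_al, Xa_b_mid h j hk hk2, Xa_b_lt h j hlt,
        Xu_b_mid h hij hk hk2, Xu_aj h hij, Xu_bi h hij, Xu_al h hij,
        TCc_aj, TCc_a_ne h hij (last_ne_cs i) (last_ne_cs j),
        TCc_b_ne h hij (hlt.trans hk).ne' hk.ne', map_mul, map_inv]
      group
    · subst hk
      simp only [Xa_aj, Xa_al, Xa_bl, Xa_b_lt h j hlt, Xu_aj h hij, Xu_bi h hij, Xu_al h hij,
        Xu_bl h hij,
        TCc_aj, TCc_a_ne h hij (last_ne_cs i) (last_ne_cs j),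
        TCc_b_ne h hij (last_ne_cs i) (last_ne_cs j), map_mul, map_inv]
      group

theorem TC_Xb {i j : Fin n} (hij : (j : ℕ) = i + 1) :
    TCc h hij * Xb h j = Xb h j * Xu h i j * TA h (Fin.last n) * TCc h hij := by
  have hlt := lt_cs hij
  have hjl := Fin.castSucc_lt_last j
  have hil := Fin.castSucc_lt_last i
  apply aut_ext h
  · intro k
    rw [MulAut.mul_apply, MulAut.mul_apply, MulAut.mul_apply, MulAut.mul_apply]
    rcases five_cases hij k with hk | hk | hk | ⟨hk, hk2⟩ | hk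
    · simp only [Xu_a_lt h hij hk, TCc_a_ne h hij hk.ne (hk.trans hlt).ne,
        Xb_a_lt h j (hk.trans hlt), TA_a]
    · subst hk
      simp only [Xb_aj, Xb_al, Xb_a_lt h j hlt, Xb_b_lt h j hlt, Xu_ai h hij, Xu_aj h hij,
        Xu_bi h hij, TCc_ai, TA_a, TA_b_ne h hil.ne, map_mul, map_inv]
      group
    · subst hk
      simp only [Xb_aj, Xb_al, Xb_b_lt h j hlt, Xu_aj h hij, Xu_bi h hij,
        TCc_aj, TCc_bj, TCc_a_ne h hij (last_ne_cs i) (last_ne_cs j), TA_a, TA_b_ne h hil.ne,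
        map_mul, map_inv]
      group
    · simp only [Xb_aj, Xb_al, Xb_bj, Xb_a_mid h j hk hk2, Xb_b_lt h j hlt,
        Xu_a_mid h hij hk hk2,
        TCc_bj, TCc_a_ne h hij (last_ne_cs i) (last_ne_cs j),
        TCc_a_ne h hij (hlt.trans hk).ne' hk.ne', TA_a, map_mul, map_inv]
      group
    · subst hk
      simp only [Xb_aj, Xb_al, Xb_b_lt h j hlt, Xu_al h hij,
        TCc_bj, TCc_a_ne h hij (last_ne_cs i) (last_ne_cs j), TA_a, map_mul, map_inv]
      group
  · intro k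
    rw [MulAut.mul_apply, MulAut.mul_apply, MulAut.mul_apply, MulAut.mul_apply]
    rcases five_cases hij k with hk | hk | hk | ⟨hk, hk2⟩ | hk
    · simp only [Xu_b_lt h hij hk, TCc_b_ne h hij hk.ne (hk.trans hlt).ne,
        Xb_b_lt h j (hk.trans hlt), TA_b_ne h (hk.trans hil).ne]
    · subst hk
      simp only [Xb_aj, Xb_al, Xb_b_lt h j hlt, Xu_aj h hij,
        Xu_bi h hij, TCc_bi, TA_a, TA_b_ne h hil.ne, map_mul, map_inv]
      group
    · subst hk
      simp only [Xb_aj, Xb_bj, Xb_al, Xb_b_lt h j hlt, Xu_aj h hij, Xu_bi h hij, Xu_bj h hij,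
        TCc_bj, TCc_a_ne h hij (last_ne_cs i) (last_ne_cs j), TA_a, TA_b_ne h hil.ne,
        TA_b_ne h hjl.ne, map_mul, map_inv]
      group
    · simp only [Xb_aj, Xb_al, Xb_b_mid h j hk hk2, Xb_b_lt h j hlt,
        Xu_b_mid h hij hk hk2,
        TCc_bj, TCc_a_ne h hij (last_ne_cs i) (last_ne_cs j),
        TCc_b_ne h hij (hlt.trans hk).ne' hk.ne', TA_b_ne h hk2.ne, map_mul, map_inv]
      group
    · subst hk
      simp only [Xb_aj, Xb_al, Xb_bl, Xb_b_lt h j hlt, Xu_al h hij, Xu_bl h hij,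
        TCc_bj, TCc_a_ne h hij (last_ne_cs i) (last_ne_cs j),
        TCc_b_ne h hij (last_ne_cs i) (last_ne_cs j), TA_a, TA_b, map_mul, map_inv]
      group

end special

end Pool.MP_59b15d_al.H76R
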