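import Mathlib
import Pool.Agent.H.MP_59b15d_al.h76r.Rg
import Pool.Agent.H.MP_59b15d_al.h76r.Rh

set_option autoImplicit false

namespace Pool.MP_59b15d_al.H76R

open Pool.MP_59b15d_al.H24T
open FreeGroup (of)

section freeauts

/-- Automorphisms of a free group from values on the generators. -/
def mkA {ι : Type*} (f g : ι → FreeGroup ι) (h1 : ∀ i, FreeGroup.lift f (g i) = of i)
    (h2 : ∀ i, FreeGroup.lift g (f i) = of i) : MulAut (FreeGroup ι) :=
  MonoidHom.toMulEquiv (FreeGroup.lift f) (FreeGroup.lift g)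
    (by
      ext i
      rw [MonoidHom.comp_apply, FreeGroup.lift_apply_of, h2, MonoidHom.id_apply])
    (by
      ext i
      rw [MonoidHom.comp_apply, FreeGroup.lift_apply_of, h1, MonoidHom.id_apply])

theorem mkA_of {ι : Type*} (f g : ι → FreeGroup ι) (h1 : ∀ i, FreeGroup.lift f (g i) = of i)
    (h2 : ∀ i, FreeGroup.lift g (f i) = of i) (i : ι) : mkA f g h1 h2 (of i) = f i := by
  change FreeGroup.lift f (of i) = f i
  rw [FreeGroup.lift_apply_of]

variable {n : ℕ}

def FA (i : Fin n) : MulAut (Fr n) :=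
  mkA (fun x => if x = Sum.inr i then of (Sum.inr i) * of (Sum.inl i) else of x)
    (fun x => if x = Sum.inr i then of (Sum.inr i) * (of (Sum.inl i))⁻¹ else of x)
    (by
      intro x
      by_cases hx : x = Sum.inr i
      · subst hx; simp
      · simp [hx])
    (by
      intro x
      by_cases hx : x = Sum.inr i
      · subst hx; simp
      · simp [hx])

def FB (i : Fin n) : MulAut (Fr n) :=
  mkA (fun x => if x = Sum.inl i then of (Sum.inl i) * of (Sum.inr i) else of x)
    (fun x => if x = Sum.inl i then of (Sum.inl i) * (of (Sum.inr i))⁻¹ else of x)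
    (by
      intro x
      by_cases hx : x = Sum.inl i
      · subst hx; simp
      · simp [hx])
    (by
      intro x
      by_cases hx : x = Sum.inl i
      · subst hx; simp
      · simp [hx])

def FC (i j : Fin n) (hij : i ≠ j) : MulAut (Fr n) :=
  mkA (fun x => if x = Sum.inl i then of (Sum.inl i) * ((of (Sum.inl j))⁻¹ * of (Sum.inr i)) else
      if x = Sum.inr i then ((of (Sum.inl j))⁻¹ * of (Sum.inr i))⁻¹ * of (Sum.inl j) *
        ((of (Sum.inl j))⁻¹ * of (Sum.inr i)) * ((of (Sum.inl j))⁻¹ * of (Sum.inr i)) else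
      if x = Sum.inl j then ((of (Sum.inl j))⁻¹ * of (Sum.inr i))⁻¹ * of (Sum.inl j) *
        ((of (Sum.inl j))⁻¹ * of (Sum.inr i)) else
      if x = Sum.inr j then of (Sum.inr j) * ((of (Sum.inl j))⁻¹ * of (Sum.inr i)) else of x)
    (fun x => if x = Sum.inl i then of (Sum.inl i) * ((of (Sum.inl j))⁻¹ * of (Sum.inr i))⁻¹ else
      if x = Sum.inr i then ((of (Sum.inl j))⁻¹ * of (Sum.inr i)) * of (Sum.inl j) else
      if x = Sum.inl j then ((of (Sum.inl j))⁻¹ * of (Sum.inr i)) * of (Sum.inl j) *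
        ((of (Sum.inl j))⁻¹ * of (Sum.inr i))⁻¹ else
      if x = Sum.inr j then of (Sum.inr j) * ((of (Sum.inl j))⁻¹ * of (Sum.inr i))⁻¹ else of x)
    (by
      have hji : ¬ j = i := fun h => hij h.symm
      intro x
      by_cases h1 : x = Sum.inl i
      · subst h1; simp [hji]; try group
      · by_cases h2 : x = Sum.inr i
        · subst h2; simp [hji]; try group
        · by_cases h3 : x = Sum.inl j
          · subst h3; simp [hji]; try group
          · by_cases h4 : x = Sum.inr j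
            · subst h4; simp [hji]; try group
            · simp [h1, h2, h3, h4])
    (by
      have hji : ¬ j = i := fun h => hij h.symm
      intro x
      by_cases h1 : x = Sum.inl i
      · subst h1; simp [hji]; try group
      · by_cases h2 : x = Sum.inr i
        · subst h2; simp [hji]; try group
        · by_cases h3 : x = Sum.inl j
          · subst h3; simp [hji]; try group
          · by_cases h4 : x = Sum.inr j
            · subst h4; simp [hji]; try group
            · simp [h1, h2, h3, h4])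

theorem FA_self (i : Fin n) : FA i (of (Sum.inr i)) = of (Sum.inr i) * of (Sum.inl i) := by
  rw [FA, mkA_of, if_pos rfl]
theorem FA_ne (i : Fin n) {x : Fin n ⊕ Fin n} (hx : x ≠ Sum.inr i) : FA i (of x) = of x := by
  rw [FA, mkA_of, if_neg hx]
theorem FB_self (i : Fin n) : FB i (of (Sum.inl i)) = of (Sum.inl i) * of (Sum.inr i) := by
  rw [FB, mkA_of, if_pos rfl]
theorem FB_ne (i : Fin n) {x : Fin n ⊕ Fin n} (hx : x ≠ Sum.inl i) : FB i (of x) = of x := by
  rw [FB, mkA_of, if_neg hx]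

theorem FC_ai (i j : Fin n) (hij : i ≠ j) : FC i j hij (of (Sum.inl i)) =
    of (Sum.inl i) * ((of (Sum.inl j))⁻¹ * of (Sum.inr i)) := by
  rw [FC, mkA_of, if_pos rfl]
theorem FC_bi (i j : Fin n) (hij : i ≠ j) : FC i j hij (of (Sum.inr i)) =
    ((of (Sum.inl j))⁻¹ * of (Sum.inr i))⁻¹ * of (Sum.inl j) *
        ((of (Sum.inl j))⁻¹ * of (Sum.inr i)) * ((of (Sum.inl j))⁻¹ * of (Sum.inr i)) := by
  rw [FC, mkA_of, if_neg (by simp), if_pos rfl]
theorem FC_aj (i j : Fin n) (hij : i ≠ j) : FC i j hij (of (Sum.inl j)) =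
    ((of (Sum.inl j))⁻¹ * of (Sum.inr i))⁻¹ * of (Sum.inl j) *
        ((of (Sum.inl j))⁻¹ * of (Sum.inr i)) := by
  have h1 : ¬ j = i := fun h => hij h.symm
  rw [FC, mkA_of, if_neg (by simp [h1]), if_neg (by simp), if_pos rfl]
theorem FC_bj (i j : Fin n) (hij : i ≠ j) : FC i j hij (of (Sum.inr j)) =
    of (Sum.inr j) * ((of (Sum.inl j))⁻¹ * of (Sum.inr i)) := by
  have h1 : ¬ j = i := fun h => hij h.symm
  rw [FC, mkA_of, if_neg (by simp), if_neg (by simp [h1]), if_neg (by simp), if_pos rfl]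
theorem FC_a_ne (i j : Fin n) (hij : i ≠ j) {k : Fin n} (h1 : k ≠ i) (h2 : k ≠ j) :
    FC i j hij (of (Sum.inl k)) = of (Sum.inl k) := by
  rw [FC, mkA_of, if_neg (by simp [h1]), if_neg (by simp), if_neg (by simp [h2]),
    if_neg (by simp)]
theorem FC_b_ne (i j : Fin n) (hij : i ≠ j) {k : Fin n} (h1 : k ≠ i) (h2 : k ≠ j) :
    FC i j hij (of (Sum.inr k)) = of (Sum.inr k) := by
  rw [FC, mkA_of, if_neg (by simp), if_neg (by simp [h1]), if_neg (by simp),
    if_neg (by simp [h2])]

end freeauts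

section pairinst

variable {G : Type*} [Group G] {n : ℕ} {a b : Fin (n + 1) → G} (h : IsSurf a b)

theorem fj_of (f' : MulAut (Fr n)) (f : MulAut G)
    (h1 : ∀ k, f (a (Fin.castSucc k)) = jR a b (f' (of (Sum.inl k))))
    (h2 : ∀ k, f (b (Fin.castSucc k)) = jR a b (f' (of (Sum.inr k)))) (z : Fr n) :
    f (jR a b z) = jR a b (f' z) := by
  have h3 : f.toMonoidHom.comp (jR a b) = (jR a b).comp f'.toMonoidHom := by
    ext i
    rcases i with k | k
    · change f (jR a b (of (Sum.inl k))) = jR a b (f' (of (Sum.inl k)))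
      rw [jR_a, h1]
    · change f (jR a b (of (Sum.inr k))) = jR a b (f' (of (Sum.inr k)))
      rw [jR_b, h2]
  exact DFunLike.congr_fun h3 z

theorem cs_ne {i j : Fin n} (hij : i ≠ j) : i.castSucc ≠ j.castSucc :=
  fun h1 => hij (Fin.castSucc_injective n h1)

theorem TA_comm {i j : Fin n} (hij : i ≠ j) :
    TA h i.castSucc * Xa h j = Xa h j * TA h i.castSucc ∧
    TA h i.castSucc * Xb h j = Xb h j * TA h i.castSucc := by
  refine comm_of h j _ (TA_a _ _ _) (TA_b_ne h (cs_ne hij).symm) (TA_a _ _ _)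
    (TA_b_ne h (last_ne_cs i)) ?_ ?_
  · intro k hk
    refine ⟨by rw [TA_a]; exact a_low j hk, ?_⟩
    by_cases hki : k = i.castSucc
    · rw [hki, TA_b]
      rw [hki] at hk
      exact Subgroup.mul_mem _ (b_low j hk) (a_low j hk)
    · rw [TA_b_ne h hki]; exact b_low j hk
  · intro k hk hk2
    refine ⟨by rw [TA_a]; exact a_mid j hk hk2, ?_⟩
    by_cases hki : k = i.castSucc
    · rw [hki, TA_b]
      rw [hki] at hk hk2
      exact Subgroup.mul_mem _ (b_mid j hk hk2) (a_mid j hk hk2)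
    · rw [TA_b_ne h hki]; exact b_mid j hk hk2

theorem TB_comm {i j : Fin n} (hij : i ≠ j) :
    TB h i.castSucc * Xa h j = Xa h j * TB h i.castSucc ∧
    TB h i.castSucc * Xb h j = Xb h j * TB h i.castSucc := by
  refine comm_of h j _ (TB_a_ne h (cs_ne hij).symm) (TB_b _ _ _) (TB_a_ne h (last_ne_cs i))
    (TB_b _ _ _) ?_ ?_
  · intro k hk
    refine ⟨?_, by rw [TB_b]; exact b_low j hk⟩
    by_cases hki : k = i.castSucc
    · rw [hki, TB_a]
      rw [hki] at hk
      exact Subgroup.mul_mem _ (a_low j hk) (b_low j hk)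
    · rw [TB_a_ne h hki]; exact a_low j hk
  · intro k hk hk2
    refine ⟨?_, by rw [TB_b]; exact b_mid j hk hk2⟩
    by_cases hki : k = i.castSucc
    · rw [hki, TB_a]
      rw [hki] at hk hk2
      exact Subgroup.mul_mem _ (a_mid j hk hk2) (b_mid j hk hk2)
    · rw [TB_a_ne h hki]; exact a_mid j hk hk2

theorem TC_comm {i i' j : Fin n} (hij : (i' : ℕ) = i + 1) (h1 : i ≠ j) (h2 : i' ≠ j) :
    TCc h hij * Xa h j = Xa h j * TCc h hij ∧ TCc h hij * Xb h j = Xb h j * TCc h hij := by
  have hb : ∀ (S : Subgroup G), a i.castSucc ∈ S → b i.castSucc ∈ S → a i'.castSucc ∈ S →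
      b i'.castSucc ∈ S → TCc h hij (a i.castSucc) ∈ S ∧ TCc h hij (b i.castSucc) ∈ S ∧
      TCc h hij (a i'.castSucc) ∈ S ∧ TCc h hij (b i'.castSucc) ∈ S := by
    intro S k1 k2 k3 k4
    have hu : (a i'.castSucc)⁻¹ * b i.castSucc ∈ S := S.mul_mem (S.inv_mem k3) k2
    refine ⟨?_, ?_, ?_, ?_⟩
    · rw [TCc_ai]; exact S.mul_mem k1 hu
    · rw [TCc_bi]
      exact S.mul_mem (S.mul_mem (S.mul_mem (S.inv_mem hu) k3) hu) hu
    · rw [TCc_aj]
      exact S.mul_mem (S.mul_mem (S.inv_mem hu) k3) hu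
    · rw [TCc_bj]; exact S.mul_mem k4 hu
  have hne1 : j.castSucc ≠ i.castSucc := (cs_ne h1).symm
  have hne2 : j.castSucc ≠ i'.castSucc := (cs_ne h2).symm
  have hlt := lt_cs hij
  refine comm_of h j _ (TCc_a_ne h hij hne1 hne2) (TCc_b_ne h hij hne1 hne2)
    (TCc_a_ne h hij (last_ne_cs i) (last_ne_cs i')) (TCc_b_ne h hij (last_ne_cs i) (last_ne_cs i'))
    ?_ ?_
  · intro k hk
    by_cases hki : k = i.castSucc
    · have hi' : i'.castSucc < j.castSucc := by
        rw [Fin.lt_def] at hk ⊢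
        rw [Fin.ne_iff_vne] at hne2
        rw [hki] at hk
        simp only [Fin.val_castSucc] at *
        omega
      rw [hki] at hk ⊢
      obtain ⟨k1, k2, -, -⟩ := hb (Low a b j) (a_low j hk) (b_low j hk) (a_low j hi') (b_low j hi')
      exact ⟨k1, k2⟩
    · by_cases hki' : k = i'.castSucc
      · rw [hki'] at hk ⊢
        have hi := hlt.trans hk
        obtain ⟨-, -, k1, k2⟩ := hb (Low a b j) (a_low j hi) (b_low j hi) (a_low j hk) (b_low j hk)
        exact ⟨k1, k2⟩
      · rw [TCc_a_ne h hij hki hki', TCc_b_ne h hij hki hki']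
        exact ⟨a_low j hk, b_low j hk⟩
  · intro k hk hk2
    by_cases hki : k = i.castSucc
    · rw [hki] at hk hk2 ⊢
      have hi' := hk.trans hlt
      have hi2 := Fin.castSucc_lt_last i'
      obtain ⟨k1, k2, -, -⟩ := hb (Mid a b j) (a_mid j hk hk2) (b_mid j hk hk2)
        (a_mid j hi' hi2) (b_mid j hi' hi2)
      exact ⟨k1, k2⟩
    · by_cases hki' : k = i'.castSucc
      · have hi : j.castSucc < i.castSucc := by
          rw [Fin.lt_def] at hk ⊢
          rw [Fin.ne_iff_vne] at hne1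
          rw [hki'] at hk
          simp only [Fin.val_castSucc] at *
          omega
        rw [hki'] at hk hk2 ⊢
        have hi2 := Fin.castSucc_lt_last i
        obtain ⟨-, -, k1, k2⟩ := hb (Mid a b j) (a_mid j hi hi2) (b_mid j hi hi2)
          (a_mid j hk hk2) (b_mid j hk hk2)
        exact ⟨k1, k2⟩
      · rw [TCc_a_ne h hij hki hki', TCc_b_ne h hij hki hki']
        exact ⟨a_mid j hk hk2, b_mid j hk hk2⟩

theorem pair_TA (i : Fin n) : Pair h (FA i) (TA h i.castSucc) := by
  apply Pair.of_gens h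
  · apply fj_of
    · intro k
      rw [TA_a, FA_ne i (by simp), jR_a]
    · intro k
      by_cases hk : k = i
      · rw [hk, TA_b, FA_self, map_mul, jR_a, jR_b]
      · rw [TA_b_ne h (cs_ne hk), FA_ne i (by simp [hk]), jR_b]
  · exact TA_a _ _ _
  · exact TA_b_ne h (last_ne_cs i)
  · intro k
    refine ⟨0, ?_⟩
    rw [FA_ne i (by simp), XX_a, zpow_zero, mul_one]
    by_cases hk : i = k
    · rw [← hk]; exact TA_Xa h i
    · exact (TA_comm h hk).1
  · intro k
    refine ⟨0, ?_⟩
    by_cases hk : i = k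
    · rw [← hk, FA_self, map_mul, XX_a, XX_b, zpow_zero, mul_one]
      exact TA_Xb h i
    · rw [FA_ne i (by simp [Ne.symm hk]), XX_b, zpow_zero, mul_one]
      exact (TA_comm h hk).2

theorem pair_TB (i : Fin n) : Pair h (FB i) (TB h i.castSucc) := by
  apply Pair.of_gens h
  · apply fj_of
    · intro k
      by_cases hk : k = i
      · rw [hk, TB_a, FB_self, map_mul, jR_a, jR_b]
      · rw [TB_a_ne h (cs_ne hk), FB_ne i (by simp [hk]), jR_a]
    · intro k
      rw [TB_b, FB_ne i (by simp), jR_b]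
  · exact TB_a_ne h (last_ne_cs i)
  · exact TB_b _ _ _
  · intro k
    refine ⟨0, ?_⟩
    by_cases hk : i = k
    · rw [← hk, FB_self, map_mul, XX_a, XX_b, zpow_zero, mul_one]
      exact TB_Xa h i
    · rw [FB_ne i (by simp [Ne.symm hk]), XX_a, zpow_zero, mul_one]
      exact (TB_comm h hk).1
  · intro k
    refine ⟨0, ?_⟩
    rw [FB_ne i (by simp), XX_b, zpow_zero, mul_one]
    by_cases hk : i = k
    · rw [← hk]; exact TB_Xb h i
    · exact (TB_comm h hk).2

theorem ne_of_hij {i j : Fin n} (hij : (j : ℕ) = i + 1) : i ≠ j := by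
  intro h1
  rw [h1] at hij
  omega

theorem Xb_eq (i j : Fin n) : Xb h i = Xa h j * Xu h i j := by
  rw [Xu, mul_inv_cancel_left]

theorem pair_TC {i j : Fin n} (hij : (j : ℕ) = i + 1) :
    Pair h (FC i j (ne_of_hij hij)) (TCc h hij) := by
  have hne := ne_of_hij hij
  have hXu : XX h ((of (Sum.inl j))⁻¹ * of (Sum.inr i)) = Xu h i j := by
    rw [map_mul, map_inv, XX_a, XX_b, Xu]
  apply Pair.of_gens h
  · apply fj_of
    · intro k
      by_cases hk : k = i
      · rw [hk, TCc_ai, FC_ai]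
        simp only [map_mul, map_inv, jR_a, jR_b]
      · by_cases hk2 : k = j
        · rw [hk2, TCc_aj, FC_aj]
          simp only [map_mul, map_inv, jR_a, jR_b]
        · rw [TCc_a_ne h hij (cs_ne hk) (cs_ne hk2), FC_a_ne i j hne hk hk2, jR_a]
    · intro k
      by_cases hk : k = i
      · rw [hk, TCc_bi, FC_bi]
        simp only [map_mul, map_inv, jR_a, jR_b]
      · by_cases hk2 : k = j
        · rw [hk2, TCc_bj, FC_bj]
          simp only [map_mul, map_inv, jR_a, jR_b]
        · rw [TCc_b_ne h hij (cs_ne hk) (cs_ne hk2), FC_b_ne i j hne hk hk2, jR_b]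
  · exact TCc_a_ne h hij (last_ne_cs i) (last_ne_cs j)
  · exact TCc_b_ne h hij (last_ne_cs i) (last_ne_cs j)
  · intro k
    by_cases hk : k = i
    · refine ⟨1, ?_⟩
      rw [hk, FC_ai, map_mul, hXu, XX_a, zpow_one]
      exact TC_Xa1 h hij
    · by_cases hk2 : k = j
      · refine ⟨0, ?_⟩
        rw [hk2, FC_aj, map_mul, map_mul, map_inv, hXu, XX_a, zpow_zero, mul_one]
        have h1 := TC_Xa2 h hij
        have h2 : TCc h hij * Xa h j = (Xu h i j)⁻¹ * (Xu h i j * TCc h hij * Xa h j) := by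
          group
        rw [h2, h1]
        group
      · refine ⟨0, ?_⟩
        rw [FC_a_ne i j hne hk hk2, XX_a, zpow_zero, mul_one]
        exact (TC_comm h hij (Ne.symm hk) (Ne.symm hk2)).1
  · intro k
    by_cases hk : k = i
    · refine ⟨0, ?_⟩
      rw [hk, FC_bi, map_mul, map_mul, map_mul, map_inv, hXu, XX_a, zpow_zero, mul_one]
      have h1 := TC_Xa2 h hij
      have h2 := TC_Xu h hij
      rw [Xb_eq h i j]
      have h3 : TCc h hij * (Xa h j * Xu h i j) =
          (Xu h i j)⁻¹ * (Xu h i j * TCc h hij * Xa h j) * Xu h i j := by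
        group
      rw [h3, h1]
      calc (Xu h i j)⁻¹ * (Xa h j * Xu h i j * TCc h hij) * Xu h i j =
          (Xu h i j)⁻¹ * Xa h j * Xu h i j * (TCc h hij * Xu h i j) := by group
        _ = _ := by rw [h2]; group
    · by_cases hk2 : k = j
      · refine ⟨1, ?_⟩
        rw [hk2, FC_bj, map_mul, hXu, XX_b, zpow_one]
        exact TC_Xb h hij
      · refine ⟨0, ?_⟩
        rw [FC_b_ne i j hne hk hk2, XX_b, zpow_zero, mul_one]
        exact (TC_comm h hij (Ne.symm hk) (Ne.symm hk2)).2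

end pairinst

end Pool.MP_59b15d_al.H76R
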