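import Mathlib
import Pool.Agent.H.MP_59b15d_al.h76r.Rk
import Pool.Agent.H.MP_59b15d_al.h76r.Rl

set_option autoImplicit false

namespace Pool.MP_59b15d_al.H76R

open Pool.MP_59b15d_al.H24T Pool.MP_59b15d_al.H76
open FreeGroup (of)

section dtwist

variable {G : Type*} [Group G] {n : ℕ} {a b : Fin (n + 1) → G} (h : IsSurf a b)

theorem dG_eq (m : ℕ) (hm : m ≤ n) : dG a b m =
    relWord (fun i : Fin m => a ⟨i, by omega⟩) (fun i : Fin m => b ⟨i, by omega⟩) := by
  induction m with
  | zero => rw [dG_zero, relWord_zero]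
  | succ m ih =>
    rw [dG_succ m hm, ih (by omega), relWord_last]
    rfl

/-- The other side of the last handle. -/
def aP (a b : Fin (n + 1) → G) : G := b (Fin.last n) * a (Fin.last n) * (b (Fin.last n))⁻¹

include h in
theorem aP_eq : aP a b = dG a b n * a (Fin.last n) := by
  have h1 := h.relWord_eq
  rw [relWord_last] at h1
  have h2 : relWord (fun i : Fin n => a i.castSucc) (fun i : Fin n => b i.castSucc) = dG a b n := by
    rw [dG_eq n le_rfl]
    rfl
  rw [h2] at h1
  rw [aP]
  have h3 := eq_inv_of_mul_eq_one_left h1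
  rw [h3]
  group

theorem XX_aP (y : Fr n) : XX h y (aP a b) = aP a b := by
  induction y using fr_induction with
  | h1 => rw [map_one]; rfl
  | ha k =>
    rw [XX_a, aP]
    simp only [map_mul, map_inv, Xa_al, Xa_bl]
    group
  | hb k =>
    rw [XX_b, aP]
    simp only [map_mul, map_inv, Xb_al, Xb_bl]
    group
  | hm x y hx hy => rw [map_mul, MulAut.mul_apply, hy, hx]
  | hi x hx =>
    rw [map_inv]
    conv_lhs => rw [← hx]
    rw [MulAut.inv_apply_self]

theorem XX_conj_aP (y : Fr n) : Commute (XX h y) (MulAut.conj (aP a b)) := by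
  change XX h y * MulAut.conj (aP a b) = MulAut.conj (aP a b) * XX h y
  rw [conj_comm_G, XX_aP]

theorem TT_aP (k : ℤ) : (TT h ^ k) (aP a b) = aP a b := by
  rw [aP, map_mul, map_mul, map_inv, (TT_zpow h k).1, (TT_zpow h k).2]
  group

/-- The push around the boundary of the first `n` handles is a product of twists, up to an inner
automorphism. -/
theorem exists_DT : ∃ (D : MulAut G) (l : ℤ), Pair h (MulAut.conj (dl n)) D ∧
    XX h (dl n) = MulAut.conj (aP a b)⁻¹ * D * TT h ^ l := by
  obtain ⟨i1, -, i3, l, i4⟩ := Xdl h n le_rfl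
  have ha := aP_eq h
  let D : MulAut G := MulAut.conj (aP a b) * XX h (dl n) * TT h ^ (-(l + 1))
  refine ⟨D, l + 1, ⟨?_, ?_, ?_, ?_⟩, ?_⟩
  · apply fj_of
    · intro k
      have k1 := (TT_jR h (of (Sum.inl k)))
      have k2 : (TT h ^ (-(l + 1))) (a k.castSucc) = a k.castSucc := by
        rw [jR_a] at k1
        have k3 : TT h ∈ MulAction.stabilizer (MulAut G) (a k.castSucc) := k1
        exact (MulAction.stabilizer (MulAut G) (a k.castSucc)).zpow_mem k3 _
      simp only [D, MulAut.mul_apply]
      rw [k2, (i1 k.castSucc k.2).1, MulAut.conj_apply, MulAut.conj_apply, map_mul, map_mul,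
        map_inv, jR_a, ha]
      change _ = dG a b n * a k.castSucc * (dG a b n)⁻¹
      group
    · intro k
      have k1 := (TT_jR h (of (Sum.inr k)))
      have k2 : (TT h ^ (-(l + 1))) (b k.castSucc) = b k.castSucc := by
        rw [jR_b] at k1
        have k3 : TT h ∈ MulAction.stabilizer (MulAut G) (b k.castSucc) := k1
        exact (MulAction.stabilizer (MulAut G) (b k.castSucc)).zpow_mem k3 _
      simp only [D, MulAut.mul_apply]
      rw [k2, (i1 k.castSucc k.2).2, MulAut.conj_apply, MulAut.conj_apply, map_mul, map_mul,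
        map_inv, jR_b, ha]
      change _ = dG a b n * b k.castSucc * (dG a b n)⁻¹
      group
  · simp only [D, MulAut.mul_apply]
    rw [(TT_zpow h _).1, i3, MulAut.conj_apply, ha]
    group
  · simp only [D, MulAut.mul_apply]
    rw [(TT_zpow h _).2, map_mul, map_zpow, i3, i4, MulAut.conj_apply]
    have h5 : aP a b * b (Fin.last n) = b (Fin.last n) * a (Fin.last n) := by
      rw [aP]; group
    have h6 : (dG a b n * a (Fin.last n))⁻¹ * a (Fin.last n) * (dG a b n * a (Fin.last n)) =
        (aP a b)⁻¹ * a (Fin.last n) * aP a b := by rw [ha]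
    have h7 : ∀ k : ℤ, ((aP a b)⁻¹ * a (Fin.last n) * aP a b) ^ k =
        (aP a b)⁻¹ * a (Fin.last n) ^ k * aP a b := by
      intro k
      have := conj_zpow (i := k) (a := (aP a b)⁻¹) (b := a (Fin.last n))
      rw [inv_inv] at this
      exact this
    rw [h6, h7, mul_assoc (b (Fin.last n) * a (Fin.last n) ^ l), ← ha]
    calc aP a b * (b (Fin.last n) * a (Fin.last n) ^ l * aP a b *
          ((aP a b)⁻¹ * a (Fin.last n) ^ (-(l + 1)) * aP a b)) * (aP a b)⁻¹ =
        (aP a b * b (Fin.last n)) * a (Fin.last n) ^ l * a (Fin.last n) ^ (-(l + 1)) := by group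
      _ = _ := by rw [h5]; group
  · intro y
    refine ⟨0, ?_⟩
    have c1 := ((TT_XX h y).zpow_left (-(l + 1))).eq
    have c2 := (XX_conj_aP h (dl n * y * (dl n)⁻¹)).eq
    rw [zpow_zero, mul_one, MulAut.conj_apply]
    calc D * XX h y * D⁻¹ = MulAut.conj (aP a b) * XX h (dl n) *
          (TT h ^ (-(l + 1)) * XX h y) * (TT h ^ (-(l + 1)))⁻¹ * (XX h (dl n))⁻¹ *
          (MulAut.conj (aP a b))⁻¹ := by
          simp only [D]
          group
      _ = MulAut.conj (aP a b) * XX h (dl n * y * (dl n)⁻¹) * (MulAut.conj (aP a b))⁻¹ := by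
          rw [c1]
          simp only [map_mul, map_inv]
          group
      _ = _ := by rw [← c2, mul_inv_cancel_right]
  · simp only [D]
    rw [map_inv]
    group

end dtwist

end Pool.MP_59b15d_al.H76R
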