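import Mathlib
import Pool.Agent.H.MP_59b15d_al.h76r.Ro

set_option autoImplicit false

namespace Pool.MP_59b15d_al.H76R

open Pool.MP_59b15d_al.H24T Pool.MP_59b15d_al.H76
open FreeGroup (of)

section detect

variable {n : ℕ} {G : Type*} [Group G] {a b : Fin (n + 1) → G} {P : Type*} [Group P]

/-- `φ` is trivial on the sheet. -/
def Zp (a b : Fin (n + 1) → G) (π : Fr n →* P) (φ : MulAut G) : Prop :=
  ∀ w : Fp n, ∃ w' : Fp n, φ (jA a b w) = jA a b w' ∧ p1 π w' = p1 π w

theorem Zp_of_gens (π : Fr n →* P) (φ : MulAut G)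
    (h0 : ∃ w' : Fp n, φ (a (Fin.last n)) = jA a b w' ∧ p1 π w' = 1)
    (h1 : ∀ k : Fin n, ∃ w' : Fp n, φ (a k.castSucc) = jA a b w' ∧
      p1 π w' = π (of (Sum.inl k)))
    (h2 : ∀ k : Fin n, ∃ w' : Fp n, φ (b k.castSucc) = jA a b w' ∧
      p1 π w' = π (of (Sum.inr k))) : Zp a b π φ := by
  intro w
  induction w using FreeGroup.induction_on with
  | C1 => exact ⟨1, by simp, rfl⟩
  | of x =>
    rcases x with _ | (k | k)
    · rw [jA_none, p1_none]; exact h0
    · rw [jA_a, p1_some]; exact h1 k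
    · rw [jA_b, p1_some]; exact h2 k
  | inv_of x hx =>
    obtain ⟨w', h3, h4⟩ := hx
    exact ⟨w'⁻¹, by rw [map_inv, map_inv, map_inv, h3], by rw [map_inv, map_inv, h4]⟩
  | mul x y hx hy =>
    obtain ⟨w, h3, h4⟩ := hx
    obtain ⟨w', h5, h6⟩ := hy
    exact ⟨w * w', by rw [map_mul, map_mul, map_mul, h3, h5], by rw [map_mul, map_mul, h4, h6]⟩

theorem Zp_mul {π : Fr n →* P} {φ ψ : MulAut G} (h1 : Zp a b π φ) (h2 : Zp a b π ψ) :
    Zp a b π (φ * ψ) := by
  intro w
  obtain ⟨w', h3, h4⟩ := h2 w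
  obtain ⟨w'', h5, h6⟩ := h1 w'
  exact ⟨w'', by rw [MulAut.mul_apply, h3, h5], by rw [h6, h4]⟩

theorem Zp_one {π : Fr n →* P} : Zp a b π 1 := fun w => ⟨w, rfl, rfl⟩

variable (h : IsSurf a b)

theorem cs_cases (j k : Fin n) : k.castSucc < j.castSucc ∨ k = j ∨
    (j.castSucc < k.castSucc ∧ k.castSucc < Fin.last n) := by
  rcases lt_trichotomy k j with h1 | h1 | h1
  · exact Or.inl h1
  · exact Or.inr (Or.inl h1)
  · exact Or.inr (Or.inr ⟨h1, Fin.castSucc_lt_last k⟩)

theorem Zp_Xa (π : Fr n →* P) (j : Fin n) : Zp a b π (Xa h j) := by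
  apply Zp_of_gens
  · refine ⟨(of none)⁻¹ * (of (some (Sum.inl j)))⁻¹ * of none * of (some (Sum.inl j)) * of none,
      ?_, ?_⟩
    · rw [Xa_al]; simp only [map_mul, map_inv, jA_none, jA_a]
    · simp only [map_mul, map_inv, p1_none, p1_some]; group
  · intro k
    rcases cs_cases j k with hk | hk | ⟨hk, hk2⟩
    · exact ⟨of (some (Sum.inl k)), by rw [Xa_a_lt h j hk, jA_a], p1_some _ _⟩
    · subst hk
      refine ⟨(of none)⁻¹ * of (some (Sum.inl k)) * of none, ?_, ?_⟩
      · rw [Xa_aj]; simp only [map_mul, map_inv, jA_none, jA_a]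
      · simp only [map_mul, map_inv, p1_none, p1_some]; group
    · refine ⟨((of none)⁻¹ * (of (some (Sum.inl j)))⁻¹ * of none * of (some (Sum.inl j))) *
        of (some (Sum.inl k)) *
        ((of none)⁻¹ * (of (some (Sum.inl j)))⁻¹ * of none * of (some (Sum.inl j)))⁻¹, ?_, ?_⟩
      · rw [Xa_a_mid h j hk hk2]; simp only [map_mul, map_inv, jA_none, jA_a]
      · simp only [map_mul, map_inv, p1_none, p1_some]; group
  · intro k
    rcases cs_cases j k with hk | hk | ⟨hk, hk2⟩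
    · exact ⟨of (some (Sum.inr k)), by rw [Xa_b_lt h j hk, jA_b], p1_some _ _⟩
    · subst hk
      refine ⟨(of none)⁻¹ * (of (some (Sum.inl k)))⁻¹ * of none * of (some (Sum.inl k)) *
        of (some (Sum.inr k)) * of none, ?_, ?_⟩
      · rw [Xa_bj]; simp only [map_mul, map_inv, jA_none, jA_a, jA_b]
      · simp only [map_mul, map_inv, p1_none, p1_some]; group
    · refine ⟨((of none)⁻¹ * (of (some (Sum.inl j)))⁻¹ * of none * of (some (Sum.inl j))) *
        of (some (Sum.inr k)) *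
        ((of none)⁻¹ * (of (some (Sum.inl j)))⁻¹ * of none * of (some (Sum.inl j)))⁻¹, ?_, ?_⟩
      · rw [Xa_b_mid h j hk hk2]; simp only [map_mul, map_inv, jA_none, jA_a, jA_b]
      · simp only [map_mul, map_inv, p1_none, p1_some]; group

theorem Zp_Xb (π : Fr n →* P) (j : Fin n) : Zp a b π (Xb h j) := by
  apply Zp_of_gens
  · refine ⟨(of (some (Sum.inr j)))⁻¹ * of none * of (some (Sum.inr j)), ?_, ?_⟩
    · rw [Xb_al]; simp only [map_mul, map_inv, jA_none, jA_b]
    · simp only [map_mul, map_inv, p1_none, p1_some]; group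
  · intro k
    rcases cs_cases j k with hk | hk | ⟨hk, hk2⟩
    · exact ⟨of (some (Sum.inl k)), by rw [Xb_a_lt h j hk, jA_a], p1_some _ _⟩
    · subst hk
      refine ⟨of (some (Sum.inl k)) *
        ((of (some (Sum.inr k)))⁻¹ * of none * of (some (Sum.inr k)))⁻¹, ?_, ?_⟩
      · rw [Xb_aj]; simp only [map_mul, map_inv, jA_none, jA_a, jA_b]
      · simp only [map_mul, map_inv, p1_none, p1_some]; group
    · refine ⟨((of (some (Sum.inr j)))⁻¹ * of none * of (some (Sum.inr j)) * (of none)⁻¹) *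
        of (some (Sum.inl k)) *
        ((of (some (Sum.inr j)))⁻¹ * of none * of (some (Sum.inr j)) * (of none)⁻¹)⁻¹, ?_, ?_⟩
      · rw [Xb_a_mid h j hk hk2]; simp only [map_mul, map_inv, jA_none, jA_a, jA_b]
      · simp only [map_mul, map_inv, p1_none, p1_some]; group
  · intro k
    rcases cs_cases j k with hk | hk | ⟨hk, hk2⟩
    · exact ⟨of (some (Sum.inr k)), by rw [Xb_b_lt h j hk, jA_b], p1_some _ _⟩
    · subst hk
      refine ⟨((of (some (Sum.inr k)))⁻¹ * of none * of (some (Sum.inr k))) *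
        of (some (Sum.inr k)) *
        ((of (some (Sum.inr k)))⁻¹ * of none * of (some (Sum.inr k)))⁻¹, ?_, ?_⟩
      · rw [Xb_bj]; simp only [map_mul, map_inv, jA_none, jA_b]
      · simp only [map_mul, map_inv, p1_none, p1_some]; group
    · refine ⟨((of (some (Sum.inr j)))⁻¹ * of none * of (some (Sum.inr j)) * (of none)⁻¹) *
        of (some (Sum.inr k)) *
        ((of (some (Sum.inr j)))⁻¹ * of none * of (some (Sum.inr j)) * (of none)⁻¹)⁻¹, ?_, ?_⟩
      · rw [Xb_b_mid h j hk hk2]; simp only [map_mul, map_inv, jA_none, jA_b]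
      · simp only [map_mul, map_inv, p1_none, p1_some]; group

theorem Zp_Xai (π : Fr n →* P) (j : Fin n) : Zp a b π (Xa h j)⁻¹ := by
  apply Zp_of_gens
  · refine ⟨of (some (Sum.inl j)) * of none * (of (some (Sum.inl j)))⁻¹, ?_, ?_⟩
    · rw [Xai_al]; simp only [map_mul, map_inv, jA_none, jA_a]
    · simp only [map_mul, map_inv, p1_none, p1_some]; group
  · intro k
    rcases cs_cases j k with hk | hk | ⟨hk, hk2⟩
    · exact ⟨of (some (Sum.inl k)), by rw [Xai_a_lt h j hk, jA_a], p1_some _ _⟩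
    · subst hk
      refine ⟨of (some (Sum.inl k)) * of none *
        (of (some (Sum.inl k)) * of none * (of (some (Sum.inl k)))⁻¹)⁻¹, ?_, ?_⟩
      · rw [Xai_aj]; simp only [map_mul, map_inv, jA_none, jA_a]
      · simp only [map_mul, map_inv, p1_none, p1_some]; group
    · refine ⟨(of (some (Sum.inl j)) * of none * (of (some (Sum.inl j)))⁻¹ * (of none)⁻¹) *
        of (some (Sum.inl k)) *
        (of (some (Sum.inl j)) * of none * (of (some (Sum.inl j)))⁻¹ * (of none)⁻¹)⁻¹, ?_, ?_⟩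
      · rw [Xai_a_mid h j hk hk2]; simp only [map_mul, map_inv, jA_none, jA_a]
      · simp only [map_mul, map_inv, p1_none, p1_some]; group
  · intro k
    rcases cs_cases j k with hk | hk | ⟨hk, hk2⟩
    · exact ⟨of (some (Sum.inr k)), by rw [Xai_b_lt h j hk, jA_b], p1_some _ _⟩
    · subst hk
      refine ⟨of (some (Sum.inl k)) * of none * (of (some (Sum.inl k)))⁻¹ * (of none)⁻¹ *
        of (some (Sum.inr k)) *
        (of (some (Sum.inl k)) * of none * (of (some (Sum.inl k)))⁻¹)⁻¹, ?_, ?_⟩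
      · rw [Xai_bj]; simp only [map_mul, map_inv, jA_none, jA_a, jA_b]
      · simp only [map_mul, map_inv, p1_none, p1_some]; group
    · refine ⟨(of (some (Sum.inl j)) * of none * (of (some (Sum.inl j)))⁻¹ * (of none)⁻¹) *
        of (some (Sum.inr k)) *
        (of (some (Sum.inl j)) * of none * (of (some (Sum.inl j)))⁻¹ * (of none)⁻¹)⁻¹, ?_, ?_⟩
      · rw [Xai_b_mid h j hk hk2]; simp only [map_mul, map_inv, jA_none, jA_a, jA_b]
      · simp only [map_mul, map_inv, p1_none, p1_some]; group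

theorem Zp_Xbi (π : Fr n →* P) (j : Fin n) : Zp a b π (Xb h j)⁻¹ := by
  apply Zp_of_gens
  · refine ⟨(of none)⁻¹ * of (some (Sum.inr j)) * of none * (of (some (Sum.inr j)))⁻¹ * of none,
      ?_, ?_⟩
    · rw [Xbi_al]; simp only [map_mul, map_inv, jA_none, jA_b]
    · simp only [map_mul, map_inv, p1_none, p1_some]; group
  · intro k
    rcases cs_cases j k with hk | hk | ⟨hk, hk2⟩
    · exact ⟨of (some (Sum.inl k)), by rw [Xbi_a_lt h j hk, jA_a], p1_some _ _⟩
    · subst hk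
      refine ⟨of (some (Sum.inl k)) * of none, ?_, ?_⟩
      · rw [Xbi_aj]; simp only [map_mul, jA_none, jA_a]
      · simp only [map_mul, p1_none, p1_some]; group
    · refine ⟨((of none)⁻¹ * of (some (Sum.inr j)) * of none * (of (some (Sum.inr j)))⁻¹) *
        of (some (Sum.inl k)) *
        ((of none)⁻¹ * of (some (Sum.inr j)) * of none * (of (some (Sum.inr j)))⁻¹)⁻¹, ?_, ?_⟩
      · rw [Xbi_a_mid h j hk hk2]; simp only [map_mul, map_inv, jA_none, jA_a, jA_b]
      · simp only [map_mul, map_inv, p1_none, p1_some]; group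
  · intro k
    rcases cs_cases j k with hk | hk | ⟨hk, hk2⟩
    · exact ⟨of (some (Sum.inr k)), by rw [Xbi_b_lt h j hk, jA_b], p1_some _ _⟩
    · subst hk
      refine ⟨(of none)⁻¹ * of (some (Sum.inr k)) * of none, ?_, ?_⟩
      · rw [Xbi_bj]; simp only [map_mul, map_inv, jA_none, jA_b]
      · simp only [map_mul, map_inv, p1_none, p1_some]; group
    · refine ⟨((of none)⁻¹ * of (some (Sum.inr j)) * of none * (of (some (Sum.inr j)))⁻¹) *
        of (some (Sum.inr k)) *
        ((of none)⁻¹ * of (some (Sum.inr j)) * of none * (of (some (Sum.inr j)))⁻¹)⁻¹, ?_, ?_⟩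
      · rw [Xbi_b_mid h j hk hk2]; simp only [map_mul, map_inv, jA_none, jA_b]
      · simp only [map_mul, map_inv, p1_none, p1_some]; group

/-- The action on the last `b`. -/
def Hp (a b : Fin (n + 1) → G) (π : Fr n →* P) (φ : MulAut G) (y : Fr n) : Prop :=
  ∃ w : Fp n, φ (b (Fin.last n)) = b (Fin.last n) * jA a b w ∧ p1 π w = π y

theorem XX_sheet (π : Fr n →* P) (y : Fr n) :
    Zp a b π (XX h y) ∧ Zp a b π (XX h y)⁻¹ ∧ Hp a b π (XX h y) y := by
  induction y using fr_induction with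
  | h1 =>
    rw [map_one, inv_one]
    exact ⟨Zp_one, Zp_one, 1, by simp, by simp⟩
  | ha k =>
    rw [XX_a]
    refine ⟨Zp_Xa h π k, Zp_Xai h π k, of (some (Sum.inl k)) * of none, ?_, ?_⟩
    · rw [Xa_bl]; simp only [map_mul, jA_none, jA_a, mul_assoc]
    · simp only [map_mul, p1_none, p1_some, mul_one]
  | hb k =>
    rw [XX_b]
    refine ⟨Zp_Xb h π k, Zp_Xbi h π k, of (some (Sum.inr k)) *
      ((of (some (Sum.inr k)))⁻¹ * of none * of (some (Sum.inr k)))⁻¹, ?_, ?_⟩
    · rw [Xb_bl]; simp only [map_mul, map_inv, jA_none, jA_b, mul_assoc]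
    · simp only [map_mul, map_inv, p1_none, p1_some]; group
  | hm x y hx hy =>
    obtain ⟨h1, h2, w, h3, h4⟩ := hx
    obtain ⟨h5, h6, w', h7, h8⟩ := hy
    rw [map_mul, mul_inv_rev]
    obtain ⟨w'', h9, h10⟩ := h1 w'
    refine ⟨Zp_mul h1 h5, Zp_mul h6 h2, w * w'', ?_, ?_⟩
    · rw [MulAut.mul_apply, h7, map_mul, h3, h9, map_mul, mul_assoc]
    · rw [map_mul, map_mul, h4, h10, h8]
  | hi x hx =>
    obtain ⟨h1, h2, w, h3, h4⟩ := hx
    rw [map_inv, inv_inv]
    obtain ⟨w', h5, h6⟩ := h2 w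
    refine ⟨h2, h1, w'⁻¹, ?_, ?_⟩
    · have h7 : (XX h x)⁻¹ (XX h x (b (Fin.last n))) = b (Fin.last n) := MulAut.inv_apply_self _ _ _
      rw [h3, map_mul, h5] at h7
      rw [map_inv, ← eq_mul_inv_iff_mul_eq.mpr h7]
    · rw [map_inv, map_inv, h6, h4]

end detect

end Pool.MP_59b15d_al.H76R
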