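import Mathlib
import Pool.Agent.H.MP_59b15d_al.h76r.Rm
import Pool.Agent.H.MP_59b15d_al.h76r.Rp

set_option autoImplicit false

namespace Pool.MP_59b15d_al.H76R

open Pool.MP_59b15d_al.H24T Pool.MP_59b15d_al.H76
open FreeGroup (of)

section detect

variable {n : ℕ} {G : Type*} [Group G] {a b : Fin (n + 1) → G} (h : IsSurf a b)

/-- The inclusion of the free groups. -/
def inc (n : ℕ) : Fr n →* Fp n := FreeGroup.lift (fun y => of (some y))

theorem jA_inc (z : Fr n) : jA a b (inc n z) = jR a b z := by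
  have h1 : (jA a b).comp (inc n) = jR a b := by
    ext1 x
    change jA a b (inc n (of x)) = jR a b (of x)
    simp [inc, jA]
  exact DFunLike.congr_fun h1 z

theorem p1_inc {P : Type*} [Group P] (π : Fr n →* P) (z : Fr n) : p1 π (inc n z) = π z := by
  have h1 : (p1 π).comp (inc n) = π := by
    ext1 x
    change p1 π (inc n (of x)) = π (of x)
    simp [inc, p1]
  exact DFunLike.congr_fun h1 z

theorem aP_conj_b (j : ℤ) : aP a b ^ j * b (Fin.last n) * (aP a b ^ j)⁻¹ =
    b (Fin.last n) * (a (Fin.last n) ^ j * (aP a b ^ j)⁻¹) := by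
  have h1 : aP a b ^ j = b (Fin.last n) * a (Fin.last n) ^ j * (b (Fin.last n))⁻¹ := by
    rw [aP, conj_zpow]
  nth_rewrite 1 [h1]
  group

include h in
/-- Detection of the action on the subsurface. -/
theorem detect (U : Subgroup (Fr n)) (hn : U.Normal) (hf : U.FiniteIndex) :
    ∃ Γ : Subgroup G, Γ.Normal ∧ Γ.FiniteIndex ∧ (∀ z : Fr n, jR a b z ∈ Γ → z ∈ U) ∧
      ∀ (y : Fr n) (k j : ℤ) (f' : MulAut (Fr n)) (f : MulAut G),
        (∀ z, f (jR a b z) = jR a b (f' z)) → f (b (Fin.last n)) = b (Fin.last n) →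
        (∀ x, (XX h y * TT h ^ k * f) x * (aP a b ^ j * x * (aP a b ^ j)⁻¹)⁻¹ ∈ Γ) →
        (∀ z, f' z * (dl n ^ j * z * (dl n ^ j)⁻¹)⁻¹ ∈ U) ∧ y * dl n ^ j ∈ U := by
  have : Finite (Fr n ⧸ U) := Subgroup.finite_quotient_of_finiteIndex
  let π : Fr n →* Fr n ⧸ U := QuotientGroup.mk' U
  have hπ : ∀ z, π z = 1 ↔ z ∈ U := fun z => QuotientGroup.eq_one_iff z
  obtain ⟨Ψ, hΨ1, hΨ2⟩ := exists_Psi h π
  have hfin : Finite (Equiv.Perm ((Fr n ⧸ U) × Bool)) := inferInstance
  refine ⟨Ψ.ker, inferInstance, Subgroup.finiteIndex_ker Ψ, ?_, ?_⟩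
  · intro z hz
    rw [MonoidHom.mem_ker, ← jA_inc, hΨ1, p1_inc] at hz
    have h1 := congrArg (fun e : Equiv.Perm ((Fr n ⧸ U) × Bool) => (e (1, false)).1) hz
    simp only [LL_false, Equiv.Perm.one_apply] at h1
    exact (hπ z).mp h1
  · intro y k j f' f fj fb hx
    have hP : ∀ j : ℤ, Ψ (aP a b ^ j) = LL (Fr n ⧸ U) (π (dl n) ^ j, 1) := by
      intro j
      have h1 : Ψ (aP a b) = LL (Fr n ⧸ U) (π (dl n), 1) := by
        rw [aP, ← jA_none (a := a) (b := b), map_mul, map_mul, map_inv, hΨ1, hΨ2, p1_none,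
          p2_none, sw_LL]
      rw [map_zpow, h1, ← map_zpow]
      simp
    have hTj : ∀ z, (TT h ^ k) (jR a b z) = jR a b z := by
      intro z
      have k1 := TT_jR h z
      have k3 : TT h ∈ MulAction.stabilizer (MulAut G) (jR a b z) := k1
      exact (MulAction.stabilizer (MulAut G) (jR a b z)).zpow_mem k3 _
    obtain ⟨s1, -, w, s3, s4⟩ := XX_sheet h π y
    constructor
    · intro z
      have h1 := hx (jR a b z)
      rw [MonoidHom.mem_ker, map_mul, map_inv, mul_inv_eq_one] at h1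
      simp only [MulAut.mul_apply] at h1
      obtain ⟨w', h2, h3⟩ := s1 (inc n (f' z))
      rw [jA_inc] at h2
      rw [fj, hTj, h2, hΨ1, map_mul, map_mul, map_inv, hP, ← jA_inc (a := a) (b := b) z, hΨ1,
        ← map_inv, ← map_mul, ← map_mul, h3, p1_inc, p1_inc] at h1
      have h4 := congrArg (fun e : Equiv.Perm ((Fr n ⧸ U) × Bool) => (e (1, false)).1) h1
      simp only [Prod.mk_mul_mk, Prod.inv_mk, LL_false] at h4
      rw [← hπ, map_mul, h4]
      simp only [map_mul, map_inv, map_zpow]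
      group
    · have h1 := hx (b (Fin.last n))
      rw [MonoidHom.mem_ker, map_mul, map_inv, mul_inv_eq_one] at h1
      simp only [MulAut.mul_apply] at h1
      obtain ⟨w', h2, h3⟩ := s1 (of none ^ k)
      rw [map_zpow, jA_none] at h2
      rw [fb, (TT_zpow h k).2, map_mul, s3, h2, aP_conj_b, mul_assoc, ← map_mul, map_mul,
        map_mul Ψ (b (Fin.last n)), mul_right_inj, hΨ1, map_mul Ψ, map_inv Ψ,
        hP, ← jA_none (a := a) (b := b), ← map_zpow, hΨ1, ← map_inv (LL (Fr n ⧸ U)), ← map_mul (LL (Fr n ⧸ U))]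
        at h1
      have h4 := congrArg (fun e : Equiv.Perm ((Fr n ⧸ U) × Bool) => (e (1, false)).1) h1
      simp only [Prod.mk_mul_mk, Prod.inv_mk, LL_false, map_mul, map_zpow, p1_none, one_zpow,
        one_mul, h3, s4, mul_one] at h4
      rw [← hπ, map_mul, map_zpow, h4]
      group

end detect

end Pool.MP_59b15d_al.H76R
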