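import Mathlib
import Pool.Agent.H.MP_59b15d_al.h76m.Ha
import Pool.Agent.H.MP_59b15d_al.h76r.Rl

set_option autoImplicit false

namespace Pool.MP_59b15d_al.H76R

open Pool.MP_59b15d_al.H24T Pool.MP_59b15d_al.H76
open FreeGroup (of)

section bend

open Classical in
/-- The indicator function of the cyclic group generated by `δ`. -/
noncomputable def uu {P : Type*} [Group P] (δ : P) : P → Multiplicative (ZMod 5) :=
  fun x => if x ∈ Subgroup.zpowers δ then Multiplicative.ofAdd 1 else 1

theorem uu_pos {P : Type*} [Group P] {δ x : P} (hx : x ∈ Subgroup.zpowers δ) :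
    uu δ x = Multiplicative.ofAdd 1 := by
  rw [uu, if_pos hx]
theorem uu_neg {P : Type*} [Group P] {δ x : P} (hx : x ∉ Subgroup.zpowers δ) :
    uu δ x = 1 := by
  rw [uu, if_neg hx]

theorem shift_uu {P : Type*} [Group P] (δ : P) :
    shift P (Multiplicative (ZMod 5)) δ (uu δ) = uu δ := by
  funext x
  rw [shift_apply]
  have h1 : δ⁻¹ * x ∈ Subgroup.zpowers δ ↔ x ∈ Subgroup.zpowers δ :=
    Subgroup.mul_mem_cancel_left _ (Subgroup.inv_mem _ (Subgroup.mem_zpowers δ))
  by_cases hx : x ∈ Subgroup.zpowers δ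
  · rw [uu_pos hx, uu_pos (h1.mpr hx)]
  · rw [uu_neg hx, uu_neg (fun h => hx (h1.mp h))]

/-- The four point argument. -/
theorem four_point {P : Type*} [Group P] (δ w l r : P) (c d : P → Multiplicative (ZMod 5))
    (hcd : ∀ x, c x * uu δ (w⁻¹ * x) = uu δ x * d x) (hc : ∀ x, c (l⁻¹ * x) = c x)
    (hd : ∀ x, d (r⁻¹ * x) = d x) (hlr : l * r = r * l) (hl : l ∉ Subgroup.zpowers δ)
    (hr : r ∉ Subgroup.zpowers δ) (hlr' : l * r ∉ Subgroup.zpowers δ) :
    w⁻¹ ∈ Subgroup.zpowers δ ∨ w⁻¹ * (l * r) ∈ Subgroup.zpowers δ := by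
  by_contra hcon
  rw [not_or] at hcon
  obtain ⟨n1, n2⟩ := hcon
  have e1 := hcd 1
  have e2 := hcd l
  have e3 := hcd r
  have e4 := hcd (l * r)
  have c1 : c l = c 1 := by
    have := hc l
    rw [inv_mul_cancel] at this
    exact this.symm
  have c2 : c (l * r) = c r := by
    have := hc (l * r)
    rw [inv_mul_cancel_left] at this
    exact this.symm
  have d1 : d r = d 1 := by
    have := hd r
    rw [inv_mul_cancel] at this
    exact this.symm
  have d2 : d (l * r) = d l := by
    have := hd (l * r)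
    rw [hlr, inv_mul_cancel_left] at this
    rw [hlr]
    exact this.symm
  rw [uu_pos (Subgroup.one_mem _), mul_one, uu_neg n1, mul_one] at e1
  rw [uu_neg hl, one_mul, c1] at e2
  rw [uu_neg hr, one_mul, d1] at e3
  rw [uu_neg hlr', one_mul, uu_neg n2, mul_one, c2, d2] at e4
  -- c 1 = ζ d 1, c 1 * u(w⁻¹ l) = d l, c r * u(w⁻¹ r) = d 1, c r = d l
  have e5 : uu δ (w⁻¹ * l) * uu δ (w⁻¹ * r) * Multiplicative.ofAdd (1 : ZMod 5) = 1 := by
    have e6 : d 1 * (uu δ (w⁻¹ * l) * uu δ (w⁻¹ * r) * Multiplicative.ofAdd (1 : ZMod 5)) =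
        d 1 * 1 := by
      calc d 1 * (uu δ (w⁻¹ * l) * uu δ (w⁻¹ * r) * Multiplicative.ofAdd (1 : ZMod 5)) =
          (Multiplicative.ofAdd (1 : ZMod 5) * d 1) * uu δ (w⁻¹ * l) * uu δ (w⁻¹ * r) := by
            simp only [mul_comm, mul_left_comm, mul_assoc]
        _ = c 1 * uu δ (w⁻¹ * l) * uu δ (w⁻¹ * r) := by rw [e1]
        _ = c r * uu δ (w⁻¹ * r) := by rw [e2, e4]
        _ = d 1 * 1 := by rw [e3, mul_one]
    exact mul_left_cancel e6
  revert e5
  by_cases h1 : w⁻¹ * l ∈ Subgroup.zpowers δ <;> by_cases h2 : w⁻¹ * r ∈ Subgroup.zpowers δ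
  · rw [uu_pos h1, uu_pos h2]; decide
  · rw [uu_pos h1, uu_neg h2]; decide
  · rw [uu_neg h1, uu_pos h2]; decide
  · rw [uu_neg h1, uu_neg h2]; decide

end bend

section cssep

variable {n : ℕ} {G : Type*} [Group G] {a b : Fin (n + 1) → G} (h : IsSurf a b)

/-- The subgroup of the first `m` handles. -/
def GLo (a b : Fin (n + 1) → G) (m : ℕ) : Subgroup G :=
  Subgroup.closure {z | ∃ k : Fin (n + 1), (k : ℕ) < m ∧ (z = a k ∨ z = b k)}

/-- The subgroup of the remaining handles. -/
def GHi (a b : Fin (n + 1) → G) (m : ℕ) : Subgroup G :=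
  Subgroup.closure {z | ∃ k : Fin (n + 1), ¬ (k : ℕ) < m ∧ (z = a k ∨ z = b k)}

include h in
/-- Bending. -/
theorem exists_bendW {W : Type*} [Group W] (ρ : G →* W) (U : W) (m : ℕ) (hm : m ≤ n)
    (hU : ρ (dG a b m) * U = U * ρ (dG a b m)) :
    ∃ Θ : G →* W, (∀ x ∈ GLo a b m, Θ x = ρ x) ∧ (∀ x ∈ GHi a b m, Θ x = U * ρ x * U⁻¹) := by
  have h3 : relWord (fun k => ρ (a k)) (fun k => ρ (b k)) = 1 := by
    have h4 := map_relWord ρ a b
    rw [h.relWord_eq, map_one] at h4
    exact h4.symm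
  obtain ⟨Θ, h1, h2⟩ := h.lift
    (fun k => if (k : ℕ) < m then ρ (a k) else U * ρ (a k) * U⁻¹)
    (fun k => if (k : ℕ) < m then ρ (b k) else U * ρ (b k) * U⁻¹) (by
      rw [relWord_tele (fun k => ρ (a k)) (fun k => ρ (b k)) _ _
        (fun j => if j ≤ m then (ρ (dG a b j))⁻¹ * U * ρ (dG a b j) else U) ?_]
      · rw [h3, if_pos (Nat.zero_le _), if_neg (by omega), dG_zero, map_one]
        group
      · intro k
        by_cases hk : (k : ℕ) < m
        · have hkn : (k : ℕ) < n := by omega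
          simp only [if_pos hk]
          rw [if_pos (by omega), if_pos (by omega), dG_succ (k : ℕ) hkn, kG]
          have hk' : (⟨k, hkn⟩ : Fin n).castSucc = k := Fin.ext rfl
          rw [hk']
          simp only [map_mul, map_inv]
          group
        · simp only [if_neg hk]
          by_cases hk2 : (k : ℕ) = m
          · rw [if_pos (by omega), if_neg (by omega), hk2]
            have h4 : (ρ (dG a b m))⁻¹ * U * ρ (dG a b m) = U := by
              rw [mul_assoc, ← hU, inv_mul_cancel_left]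
            rw [h4]
            group
          · rw [if_neg (by omega), if_neg (by omega)]
            group)
  refine ⟨Θ, ?_, ?_⟩
  · intro x hx
    have h3 : GLo a b m ≤ MonoidHom.eqLocus Θ ρ := by
      rw [GLo, Subgroup.closure_le]
      rintro z ⟨k, hk, rfl | rfl⟩
      · change Θ _ = ρ _
        rw [h1]; simp only [if_pos hk]
      · change Θ _ = ρ _
        rw [h2]; simp only [if_pos hk]
    exact h3 hx
  · intro x hx
    have h3 : GHi a b m ≤ MonoidHom.eqLocus Θ ((MulAut.conj U).toMonoidHom.comp ρ) := by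
      rw [GHi, Subgroup.closure_le]
      rintro z ⟨k, hk, rfl | rfl⟩
      · change Θ _ = U * ρ _ * U⁻¹
        rw [h1]; simp only [if_neg hk]
      · change Θ _ = U * ρ _ * U⁻¹
        rw [h2]; simp only [if_neg hk]
    exact h3 hx

theorem gen_cases (m : ℕ) (k : Fin (n + 1)) :
    (a k ∈ GLo a b m ∧ b k ∈ GLo a b m) ∨ (a k ∈ GHi a b m ∧ b k ∈ GHi a b m) := by
  by_cases hk : (k : ℕ) < m
  · left
    exact ⟨Subgroup.subset_closure ⟨k, hk, Or.inl rfl⟩, Subgroup.subset_closure ⟨k, hk, Or.inr rfl⟩⟩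
  · right
    exact ⟨Subgroup.subset_closure ⟨k, hk, Or.inl rfl⟩, Subgroup.subset_closure ⟨k, hk, Or.inr rfl⟩⟩

/-- The wreath product. -/
abbrev Wr (P : Type*) [Group P] : Type _ :=
  (P → Multiplicative (ZMod 5)) ⋊[shift P (Multiplicative (ZMod 5))] P

theorem wr_left {P : Type*} [Group P] (c : P → Multiplicative (ZMod 5)) (X : Wr P) :
    ((SemidirectProduct.inl c : Wr P) * X).left = c * X.left := by
  rw [SemidirectProduct.mul_left, SemidirectProduct.left_inl, SemidirectProduct.right_inl, map_one,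
    MulAut.one_apply]

include h in
/-- The bending homomorphism to the wreath product. -/
theorem exists_bend {P : Type*} [Group P] (q : G →* P) (m : ℕ) (hm : m ≤ n) :
    ∃ Θ : G →* Wr P, (∀ x ∈ GLo a b m, Θ x = SemidirectProduct.inr (q x)) ∧
      (∀ x ∈ GHi a b m, Θ x = SemidirectProduct.inl (uu (q (dG a b m))) *
        SemidirectProduct.inr (q x) * (SemidirectProduct.inl (uu (q (dG a b m))))⁻¹) ∧
      ∀ x, (Θ x).right = q x := by
  obtain ⟨Θ, h1, h2⟩ := exists_bendW h ((SemidirectProduct.inr : P →* Wr P).comp q)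
    (SemidirectProduct.inl (uu (q (dG a b m)))) m hm (by
      have h1 := SemidirectProduct.inl_aut (φ := shift P (Multiplicative (ZMod 5)))
        (q (dG a b m)) (uu (q (dG a b m)))
      rw [shift_uu, map_inv, eq_mul_inv_iff_mul_eq] at h1
      exact h1.symm)
  refine ⟨Θ, h1, h2, ?_⟩
  intro x
  have h3 : (SemidirectProduct.rightHom : Wr P →* P).comp Θ = q := by
    have h4 : ∀ x ∈ GHi a b m, SemidirectProduct.rightHom (Θ x) = q x := by
      intro x hx
      rw [h2 x hx, map_mul, map_mul, map_inv, MonoidHom.comp_apply,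
        SemidirectProduct.rightHom_inl, SemidirectProduct.rightHom_inr]
      group
    have h5 : ∀ x ∈ GLo a b m, SemidirectProduct.rightHom (Θ x) = q x := by
      intro x hx
      rw [h1 x hx, MonoidHom.comp_apply, SemidirectProduct.rightHom_inr]
    apply hom_ext h
    · intro k
      rcases gen_cases (a := a) (b := b) m k with hk | hk
      · exact h5 _ hk.1
      · exact h4 _ hk.1
    · intro k
      rcases gen_cases (a := a) (b := b) m k with hk | hk
      · exact h5 _ hk.2
      · exact h4 _ hk.2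
  exact DFunLike.congr_fun h3 x

end cssep

end Pool.MP_59b15d_al.H76R
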