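import Mathlib
import Pool.Agent.H.MP_59b15d_al.h76r.Rk
import Pool.Agent.H.MP_59b15d_al.h76r.Rw

set_option autoImplicit false

namespace Pool.MP_59b15d_al.H76R

open Pool.MP_59b15d_al.H24T Pool.MP_59b15d_al.H76
open FreeGroup (of)

section cssep

variable {n : ℕ} {G : Type*} [Group G] {a b : Fin (n + 1) → G} (h : IsSurf a b)

theorem wr_inv {P : Type*} [Group P] {V : Wr P} {x y : P}
    (hV : V * SemidirectProduct.inr x = SemidirectProduct.inr y * V) (z : P) :
    V.left (y⁻¹ * z) = V.left z := by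
  have h1 := congrArg SemidirectProduct.left hV
  rw [SemidirectProduct.mul_left, SemidirectProduct.mul_left, SemidirectProduct.left_inr,
    SemidirectProduct.left_inr, map_one, mul_one, one_mul, SemidirectProduct.right_inr] at h1
  exact (congrFun h1 z).symm

include h in
theorem exists_chi (k : Fin (n + 1)) (N : ℕ) :
    ∃ χ : G →* Multiplicative (ZMod N), ∀ i, χ (b i) =
      if i = k then Multiplicative.ofAdd 1 else 1 := by
  obtain ⟨χ, -, h2⟩ := h.lift (T := Multiplicative (ZMod N)) (fun _ => 1)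
    (fun i => if i = k then Multiplicative.ofAdd 1 else 1) (relWord_comm _ _)
  exact ⟨χ, h2⟩

theorem chi_dG {T : Type*} [CommGroup T] (χ : G →* T) (m : ℕ) (hm : m ≤ n) :
    χ (dG a b m) = 1 := by
  induction m with
  | zero => rw [dG_zero, map_one]
  | succ m ih =>
    rw [dG_succ m hm, map_mul, ih (by omega), one_mul, kG]
    simp only [map_mul, map_inv]
    rw [mul_comm (χ (a _)) (χ (b _))]
    group

theorem ofAdd_ne {N k : ℕ} (hk : 0 < k) (hk2 : k < N) :
    (Multiplicative.ofAdd (1 : ZMod N)) ^ k ≠ 1 := by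
  intro h1
  rw [← ofAdd_nsmul] at h1
  have h2 : k • (1 : ZMod N) = 0 := ofAdd_eq_one.mp h1
  rw [nsmul_one, ZMod.natCast_eq_zero_iff] at h2
  have := Nat.le_of_dvd hk h2
  omega

/-- The element conjugates the two sides to themselves only if it is a power of the boundary. -/
theorem bend_app {P : Type*} [Group P] (q : G →* P) (m : ℕ) (Θ : G →* Wr P)
    (h1 : ∀ x ∈ GLo a b m, Θ x = SemidirectProduct.inr (q x))
    (h2 : ∀ x ∈ GHi a b m, Θ x = SemidirectProduct.inl (uu (q (dG a b m))) *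
        SemidirectProduct.inr (q x) * (SemidirectProduct.inl (uu (q (dG a b m))))⁻¹)
    (h3 : ∀ x, (Θ x).right = q x) (w : G)
    (hL : ∀ y ∈ GLo a b m, ∃ x ∈ GLo a b m, Θ y = Θ (w * x * w⁻¹))
    (hR : ∀ y ∈ GHi a b m, ∃ x ∈ GHi a b m, Θ y = Θ (w * x * w⁻¹))
    (l r : G) (hl : l ∈ GLo a b m) (hr : r ∈ GHi a b m) (hlr : q l * q r = q r * q l)
    (n1 : q l ∉ Subgroup.zpowers (q (dG a b m))) (n2 : q r ∉ Subgroup.zpowers (q (dG a b m)))
    (n3 : q l * q r ∉ Subgroup.zpowers (q (dG a b m))) :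
    (q w)⁻¹ ∈ Subgroup.zpowers (q (dG a b m)) ∨
      (q w)⁻¹ * (q l * q r) ∈ Subgroup.zpowers (q (dG a b m)) := by
  set δ := q (dG a b m) with hδ
  let U : Wr P := SemidirectProduct.inl (uu δ)
  have h2' : ∀ x ∈ GHi a b m, Θ x = U * SemidirectProduct.inr (q x) * U⁻¹ := h2
  have h2i : ∀ x ∈ GHi a b m, (SemidirectProduct.inr (q x) : Wr P) = U⁻¹ * Θ x * U := by
    intro x hx
    rw [h2' x hx]; group
  refine four_point δ (q w) (q l) (q r) (Θ w).left
    (U⁻¹ * Θ w * U).left ?_ ?_ ?_ hlr n1 n2 n3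
  · intro x
    have h4 : Θ w * U = U * (U⁻¹ * Θ w * U) := by group
    have h5 := congrArg SemidirectProduct.left h4
    rw [wr_left, SemidirectProduct.mul_left, SemidirectProduct.left_inl, h3] at h5
    exact congrFun h5 x
  · obtain ⟨x, hx, hx2⟩ := hL l hl
    have h4 : Θ w * SemidirectProduct.inr (q x) = SemidirectProduct.inr (q l) * Θ w := by
      rw [← h1 x hx, ← h1 l hl, hx2, map_mul, map_mul, map_inv, inv_mul_cancel_right]
    exact fun z => wr_inv h4 z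
  · obtain ⟨x, hx, hx2⟩ := hR r hr
    have h4 : (U⁻¹ * Θ w * U) * SemidirectProduct.inr (q x) =
        SemidirectProduct.inr (q r) * (U⁻¹ * Θ w * U) := by
      rw [h2i x hx, h2i r hr, hx2, map_mul, map_mul, map_inv]
      group
    exact fun z => wr_inv h4 z

include h in
/-- Elements conjugating the two sides to themselves modulo a deep subgroup of finite index. -/
theorem CSsep (m : ℕ) (hm0 : 0 < m) (hm : m ≤ n) (Γ₀ : Subgroup G) (hn : Γ₀.Normal)
    (hf : Γ₀.FiniteIndex) :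
    ∃ Γ' : Subgroup G, Γ'.Normal ∧ Γ'.FiniteIndex ∧ ∀ w : G,
      (∀ y ∈ GLo a b m, ∃ x ∈ GLo a b m, y * (w * x * w⁻¹)⁻¹ ∈ Γ') →
      (∀ y ∈ GHi a b m, ∃ x ∈ GHi a b m, y * (w * x * w⁻¹)⁻¹ ∈ Γ') →
      ∃ j : ℤ, w * (dG a b m) ^ j ∈ Γ₀ := by
  obtain ⟨e, he, hpow⟩ := exists_pow_mem Γ₀
  have : NeZero (3 * e) := ⟨by omega⟩
  obtain ⟨χ₁, hχ₁⟩ := exists_chi h 0 (3 * e)
  obtain ⟨χ₂, hχ₂⟩ := exists_chi h (Fin.last n) (3 * e)
  have k1 : χ₁.ker.FiniteIndex := Subgroup.finiteIndex_ker χ₁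
  have k2 : χ₂.ker.FiniteIndex := Subgroup.finiteIndex_ker χ₂
  let Γ₂ : Subgroup G := Γ₀ ⊓ (χ₁.ker ⊓ χ₂.ker)
  have g1 : Γ₂.FiniteIndex := inferInstance
  have g2 : Γ₂.Normal := inferInstance
  have hfin : Finite (G ⧸ Γ₂) := Subgroup.finite_quotient_of_finiteIndex
  let q : G →* G ⧸ Γ₂ := QuotientGroup.mk' Γ₂
  have hq : ∀ z, q z = 1 ↔ z ∈ Γ₂ := fun z => QuotientGroup.eq_one_iff z
  obtain ⟨Θ, t1, t2, t3⟩ := exists_bend h q m hm
  have hW : Finite (Wr (G ⧸ Γ₂)) := Finite.of_equiv _ SemidirectProduct.equivProd.symm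
  refine ⟨Θ.ker, inferInstance, Subgroup.finiteIndex_ker Θ, ?_⟩
  intro w hL hR
  have hL' : ∀ y ∈ GLo a b m, ∃ x ∈ GLo a b m, Θ y = Θ (w * x * w⁻¹) := by
    intro y hy
    obtain ⟨x, hx, hx2⟩ := hL y hy
    refine ⟨x, hx, ?_⟩
    rw [MonoidHom.mem_ker, map_mul, map_inv, mul_inv_eq_one] at hx2
    exact hx2
  have hR' : ∀ y ∈ GHi a b m, ∃ x ∈ GHi a b m, Θ y = Θ (w * x * w⁻¹) := by
    intro y hy
    obtain ⟨x, hx, hx2⟩ := hR y hy
    refine ⟨x, hx, ?_⟩
    rw [MonoidHom.mem_ker, map_mul, map_inv, mul_inv_eq_one] at hx2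
    exact hx2
  have hz1 : ∀ x, q x ∈ Subgroup.zpowers (q (dG a b m)) → χ₁ x = 1 := by
    intro x hx
    obtain ⟨j, hj⟩ := Subgroup.mem_zpowers_iff.mp hx
    have h4 : q (x * (dG a b m ^ j)⁻¹) = 1 := by
      rw [map_mul, map_inv, map_zpow, hj, mul_inv_cancel]
    have h5 : χ₁ (x * (dG a b m ^ j)⁻¹) = 1 := ((hq _).mp h4).2.1
    rw [map_mul, map_inv, map_zpow, chi_dG χ₁ m hm, one_zpow, inv_one,
      mul_one] at h5
    exact h5
  have hz2 : ∀ x, q x ∈ Subgroup.zpowers (q (dG a b m)) → χ₂ x = 1 := by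
    intro x hx
    obtain ⟨j, hj⟩ := Subgroup.mem_zpowers_iff.mp hx
    have h4 : q (x * (dG a b m ^ j)⁻¹) = 1 := by
      rw [map_mul, map_inv, map_zpow, hj, mul_inv_cancel]
    have h5 : χ₂ (x * (dG a b m ^ j)⁻¹) = 1 := ((hq _).mp h4).2.2
    rw [map_mul, map_inv, map_zpow, chi_dG χ₂ m hm, one_zpow, inv_one,
      mul_one] at h5
    exact h5
  let l : G := b 0 ^ e
  let r : G := b (Fin.last n) ^ e
  have hl : l ∈ GLo a b m := by
    refine Subgroup.pow_mem _ ?_ _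
    exact Subgroup.subset_closure ⟨0, by simpa using hm0, Or.inr rfl⟩
  have hr : r ∈ GHi a b m := by
    refine Subgroup.pow_mem _ ?_ _
    exact Subgroup.subset_closure ⟨Fin.last n, by rw [Fin.val_last]; omega, Or.inr rfl⟩
  have hne : (0 : Fin (n + 1)) ≠ Fin.last n := by
    intro h4
    have := congrArg Fin.val h4
    simp only [Fin.val_last, Fin.val_zero] at this
    omega
  have x1 : χ₁ l = Multiplicative.ofAdd (1 : ZMod (3 * e)) ^ e := by
    simp only [l, map_pow, hχ₁, if_true]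
  have x2 : χ₁ r = 1 := by
    simp only [r, map_pow, hχ₁, if_neg hne.symm, one_pow]
  have x3 : χ₂ r = Multiplicative.ofAdd (1 : ZMod (3 * e)) ^ e := by
    simp only [r, map_pow, hχ₂, if_true]
  have m1 : Multiplicative.ofAdd (1 : ZMod (3 * e)) ^ e ≠ 1 := ofAdd_ne he (by omega)
  have m2 : Multiplicative.ofAdd (1 : ZMod (3 * e)) ^ (e + e) ≠ 1 :=
    ofAdd_ne (by omega) (by omega)
  have hcomm : ∀ u v : G, u ∈ Γ₀ → v ∈ Γ₀ → q u * q v = q v * q u := by
    intro u v hu hv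
    have h4 : q ((u * v) * (v * u)⁻¹) = 1 := by
      rw [hq]
      refine ⟨Γ₀.mul_mem (Γ₀.mul_mem hu hv) (Γ₀.inv_mem (Γ₀.mul_mem hv hu)), ?_, ?_⟩
      · change χ₁ ((u * v) * (v * u)⁻¹) = 1
        simp only [map_mul, map_inv]
        rw [mul_comm (χ₁ v), mul_inv_cancel]
      · change χ₂ ((u * v) * (v * u)⁻¹) = 1
        simp only [map_mul, map_inv]
        rw [mul_comm (χ₂ v), mul_inv_cancel]
    rw [map_mul, map_inv, mul_inv_eq_one, map_mul, map_mul] at h4
    exact h4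
  have a1 := bend_app q m Θ t1 t2 t3 w hL' hR' l r hl hr (hcomm _ _ (hpow _) (hpow _))
    (fun h4 => m1 (x1.symm.trans (hz1 _ h4)))
    (fun h4 => m1 (x3.symm.trans (hz2 _ h4)))
    (fun h4 => m1 (by
      rw [← map_mul] at h4
      have h5 := hz1 _ h4
      rw [map_mul, x2, mul_one, x1] at h5
      exact h5))
  have a2 := bend_app q m Θ t1 t2 t3 w hL' hR' (l * l) r (Subgroup.mul_mem _ hl hl) hr
    (hcomm _ _ (Γ₀.mul_mem (hpow _) (hpow _)) (hpow _))
    (fun h4 => m2 (by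
      have h5 := hz1 _ h4
      rw [map_mul, x1, ← pow_add] at h5
      exact h5))
    (fun h4 => m1 (x3.symm.trans (hz2 _ h4)))
    (fun h4 => m2 (by
      rw [← map_mul] at h4
      have h5 := hz1 _ h4
      rw [map_mul, x2, mul_one, map_mul, x1, ← pow_add] at h5
      exact h5))
  have hfinal : (q w)⁻¹ ∈ Subgroup.zpowers (q (dG a b m)) := by
    rcases a1 with a1 | a1
    · exact a1
    · rcases a2 with a2 | a2
      · exact a2
      · exfalso
        have h4 := Subgroup.mul_mem _ (Subgroup.inv_mem _ a1) a2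
        have h5 : ((q w)⁻¹ * (q l * q r))⁻¹ * ((q w)⁻¹ * (q (l * l) * q r)) =
            q (r⁻¹ * l * r) := by
          simp only [map_mul, map_inv]
          group
        rw [h5] at h4
        have h6 := hz1 _ h4
        simp only [map_mul, map_inv, x2, inv_one, one_mul, mul_one, x1] at h6
        exact m1 h6
  obtain ⟨j, hj⟩ := Subgroup.mem_zpowers_iff.mp hfinal
  refine ⟨j, ?_⟩
  have h4 : q (w * dG a b m ^ j) = 1 := by
    rw [map_mul, map_zpow, hj, mul_inv_cancel]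
  exact ((hq _).mp h4).1

end cssep

end Pool.MP_59b15d_al.H76R
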