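import Mathlib
import Pool.Agent.H.MP_59b15d_al.h76m.Defs
import Pool.Agent.H.MP_59b15d_al.h76r.Rl

set_option autoImplicit false

namespace Pool.MP_59b15d_al.H76R

open Pool.MP_59b15d_al.H24T Pool.MP_59b15d_al.H76
open FreeGroup (of)

section dsep

variable {n : ℕ} {G : Type*} [Group G] {a b : Fin (n + 1) → G} (h : IsSurf a b)

/-- A homomorphism that conjugates the first handles conjugates their boundary. -/
theorem conj_dG (φ : G →* G) (c : G) (m : ℕ) (hm : m ≤ n)
    (h1 : ∀ k : Fin n, (k : ℕ) < m → φ (a k.castSucc) = c * a k.castSucc * c⁻¹ ∧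
      φ (b k.castSucc) = c * b k.castSucc * c⁻¹) (l : ℕ) (hl : l ≤ m) :
    φ (dG a b l) = c * dG a b l * c⁻¹ := by
  induction l with
  | zero => rw [dG_zero, map_one]; group
  | succ l ih =>
    have hln : l < n := by omega
    rw [dG_succ l hln, map_mul, ih (by omega), kG]
    obtain ⟨k1, k2⟩ := h1 ⟨l, hln⟩ (show l < m by omega)
    simp only [map_mul, map_inv, k1, k2]
    group

include h in
/-- The twist about the boundary of the first `m` handles. -/
theorem exists_DS (m : ℕ) (hm : m ≤ n) :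
    ∃ X : MulAut G,
      (∀ k : Fin (n + 1), X (a k) = if (k : ℕ) < m then dG a b m * a k * (dG a b m)⁻¹ else a k) ∧
      (∀ k : Fin (n + 1), X (b k) = if (k : ℕ) < m then dG a b m * b k * (dG a b m)⁻¹ else b k) ∧
      (∀ k : Fin (n + 1), X⁻¹ (a k) =
        if (k : ℕ) < m then (dG a b m)⁻¹ * a k * (dG a b m)⁻¹⁻¹ else a k) ∧
      (∀ k : Fin (n + 1), X⁻¹ (b k) =
        if (k : ℕ) < m then (dG a b m)⁻¹ * b k * (dG a b m)⁻¹⁻¹ else b k) := by
  have main : ∀ (c : G) (hc : c * dG a b m * c⁻¹ = dG a b m) (k : Fin (n + 1)),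
      (if (k : ℕ) < m then c * a k * c⁻¹ else a k) * (if (k : ℕ) < m then c * b k * c⁻¹ else b k) *
      (if (k : ℕ) < m then c * a k * c⁻¹ else a k)⁻¹ *
      (if (k : ℕ) < m then c * b k * c⁻¹ else b k)⁻¹ =
      (fun i : ℕ => if i ≤ m then c * (dG a b i)⁻¹ * c⁻¹ * dG a b i else 1) k *
        (a k * b k * (a k)⁻¹ * (b k)⁻¹) *
        ((fun i : ℕ => if i ≤ m then c * (dG a b i)⁻¹ * c⁻¹ * dG a b i else 1) (k + 1))⁻¹ := by
    intro c hc k
    by_cases hk : (k : ℕ) < m
    · have hkn : (k : ℕ) < n := by omega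
      simp only [if_pos hk]
      rw [if_pos (by omega), if_pos (by omega), dG_succ (k : ℕ) hkn, kG]
      have hk' : (⟨k, hkn⟩ : Fin n).castSucc = k := Fin.ext rfl
      rw [hk']
      group
    · simp only [if_neg hk]
      by_cases hk2 : (k : ℕ) = m
      · rw [if_pos (by omega), if_neg (by omega), hk2]
        have h1 : c * (dG a b m)⁻¹ * c⁻¹ * dG a b m = 1 := by
          have h2 : c * (dG a b m)⁻¹ * c⁻¹ = (c * dG a b m * c⁻¹)⁻¹ := by group
          rw [h2, hc, inv_mul_cancel]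
        rw [h1]
        group
      · rw [if_neg (by omega), if_neg (by omega)]
        group
  have hinv : ∀ (c d : G) (hcd : c = (dG a b m) ∧ d = (dG a b m)⁻¹ ∨
      c = (dG a b m)⁻¹ ∧ d = dG a b m) (φ : G →* G)
      (h1 : ∀ k : Fin (n + 1), φ (a k) = if (k : ℕ) < m then c * a k * c⁻¹ else a k)
      (h2 : ∀ k : Fin (n + 1), φ (b k) = if (k : ℕ) < m then c * b k * c⁻¹ else b k)
      (k : Fin (n + 1)), φ (if (k : ℕ) < m then d * a k * d⁻¹ else a k) = a k ∧
        φ (if (k : ℕ) < m then d * b k * d⁻¹ else b k) = b k := by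
    intro c d hcd φ h1 h2 k
    have h3 : φ (dG a b m) = dG a b m := by
      rw [conj_dG φ c m hm (fun k hk => ⟨by rw [h1]; exact if_pos hk, by rw [h2]; exact if_pos hk⟩)
        m le_rfl]
      rcases hcd with ⟨rfl, -⟩ | ⟨rfl, -⟩ <;> group
    by_cases hk : (k : ℕ) < m
    · simp only [if_pos hk, map_mul, map_inv, h1, h2]
      rcases hcd with ⟨rfl, rfl⟩ | ⟨rfl, rfl⟩
      · simp only [map_inv, h3]; constructor <;> group
      · simp only [h3]; constructor <;> group
    · simp only [if_neg hk, h1, h2]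
      exact ⟨trivial, trivial⟩
  refine exists_aut h _ _ _ _
    (fun i : ℕ => if i ≤ m then dG a b m * (dG a b i)⁻¹ * (dG a b m)⁻¹ * dG a b i else 1)
    (fun i : ℕ => if i ≤ m then (dG a b m)⁻¹ * (dG a b i)⁻¹ * (dG a b m)⁻¹⁻¹ * dG a b i else 1)
    ?_ ?_ (main (dG a b m) (by group)) ?_ ?_ (main (dG a b m)⁻¹ (by group))
    (hinv _ _ (Or.inl ⟨rfl, rfl⟩)) (hinv _ _ (Or.inr ⟨rfl, rfl⟩))
  · rw [if_pos (Nat.zero_le _), dG_zero]; group
  · rw [if_neg (by omega)]
  · rw [if_pos (Nat.zero_le _), dG_zero]; group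
  · rw [if_neg (by omega)]

/-- The twist about the boundary of the first `m` handles. -/
noncomputable def DS (m : ℕ) (hm : m ≤ n) : MulAut G := (exists_DS h m hm).choose

theorem DS_a_lt {m : ℕ} (hm : m ≤ n) {k : Fin (n + 1)} (hk : (k : ℕ) < m) :
    DS h m hm (a k) = dG a b m * a k * (dG a b m)⁻¹ := by
  rw [DS, (exists_DS h m hm).choose_spec.1, if_pos hk]
theorem DS_b_lt {m : ℕ} (hm : m ≤ n) {k : Fin (n + 1)} (hk : (k : ℕ) < m) :
    DS h m hm (b k) = dG a b m * b k * (dG a b m)⁻¹ := by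
  rw [DS, (exists_DS h m hm).choose_spec.2.1, if_pos hk]
theorem DS_a_ge {m : ℕ} (hm : m ≤ n) {k : Fin (n + 1)} (hk : ¬ (k : ℕ) < m) :
    DS h m hm (a k) = a k := by
  rw [DS, (exists_DS h m hm).choose_spec.1, if_neg hk]
theorem DS_b_ge {m : ℕ} (hm : m ≤ n) {k : Fin (n + 1)} (hk : ¬ (k : ℕ) < m) :
    DS h m hm (b k) = b k := by
  rw [DS, (exists_DS h m hm).choose_spec.2.1, if_neg hk]
theorem DSi_a_lt {m : ℕ} (hm : m ≤ n) {k : Fin (n + 1)} (hk : (k : ℕ) < m) :
    (DS h m hm)⁻¹ (a k) = (dG a b m)⁻¹ * a k * dG a b m := by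
  rw [DS, (exists_DS h m hm).choose_spec.2.2.1, if_pos hk, inv_inv]
theorem DSi_b_lt {m : ℕ} (hm : m ≤ n) {k : Fin (n + 1)} (hk : (k : ℕ) < m) :
    (DS h m hm)⁻¹ (b k) = (dG a b m)⁻¹ * b k * dG a b m := by
  rw [DS, (exists_DS h m hm).choose_spec.2.2.2, if_pos hk, inv_inv]
theorem DSi_a_ge {m : ℕ} (hm : m ≤ n) {k : Fin (n + 1)} (hk : ¬ (k : ℕ) < m) :
    (DS h m hm)⁻¹ (a k) = a k := by
  rw [DS, (exists_DS h m hm).choose_spec.2.2.1, if_neg hk]
theorem DSi_b_ge {m : ℕ} (hm : m ≤ n) {k : Fin (n + 1)} (hk : ¬ (k : ℕ) < m) :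
    (DS h m hm)⁻¹ (b k) = b k := by
  rw [DS, (exists_DS h m hm).choose_spec.2.2.2, if_neg hk]

theorem DS_dG {m : ℕ} (hm : m ≤ n) : DS h m hm (dG a b m) = dG a b m := by
  have h1 := conj_dG (a := a) (b := b) (DS h m hm).toMonoidHom (dG a b m) m hm
    (fun k hk => ⟨DS_a_lt h hm (k := k.castSucc) hk, DS_b_lt h hm (k := k.castSucc) hk⟩) m le_rfl
  have h2 : dG a b m * dG a b m * (dG a b m)⁻¹ = dG a b m := by group
  rw [h2] at h1
  exact h1

/-- The pushes change the boundary of the first `m` handles. -/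
theorem X_dG (j : Fin n) (m : ℕ) (hm : m ≤ n) (hj : (j : ℕ) < m) :
    Xa h j (dG a b m) = dG a b m *
      ((a (Fin.last n))⁻¹ * (a j.castSucc)⁻¹ * a (Fin.last n) * a j.castSucc)⁻¹ ∧
    Xb h j (dG a b m) = dG a b m *
      ((b j.castSucc)⁻¹ * a (Fin.last n) * b j.castSucc * (a (Fin.last n))⁻¹)⁻¹ := by
  induction m with
  | zero => exact absurd hj (Nat.not_lt_zero _)
  | succ m ih =>
    have hmn : m < n := hm
    rw [dG_succ m hmn, map_mul, map_mul]
    rcases Nat.lt_succ_iff_lt_or_eq.mp hj with hj' | hj'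
    · obtain ⟨i1, i2⟩ := ih hmn.le hj'
      have hlt : j.castSucc < (⟨m, hmn⟩ : Fin n).castSucc := hj'
      have hl := Fin.castSucc_lt_last (⟨m, hmn⟩ : Fin n)
      rw [i1, i2, kG]
      simp only [map_mul, map_inv, Xa_a_mid h j hlt hl, Xa_b_mid h j hlt hl,
        Xb_a_mid h j hlt hl, Xb_b_mid h j hlt hl]
      constructor <;> group
    · have hjm : (⟨m, hmn⟩ : Fin n) = j := Fin.ext hj'.symm
      have hlow : dG a b m ∈ Low a b j := by
        rw [← hj']
        have : ∀ l : ℕ, l ≤ j → dG a b l ∈ Low a b j := by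
          intro l hl
          induction l with
          | zero => rw [dG_zero]; exact Subgroup.one_mem _
          | succ l ihl =>
            have hln : l < n := by have := j.2; omega
            rw [dG_succ l hln, kG]
            have k1 : (⟨l, hln⟩ : Fin n).castSucc < j.castSucc := hl
            exact Subgroup.mul_mem _ (ihl (by omega)) (Subgroup.mul_mem _ (Subgroup.mul_mem _
              (Subgroup.mul_mem _ (a_low j k1) (b_low j k1)) (Subgroup.inv_mem _ (a_low j k1)))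
              (Subgroup.inv_mem _ (b_low j k1)))
        exact this j le_rfl
      rw [(X_low h j hlow).1, (X_low h j hlow).2, hjm, kG]
      simp only [map_mul, map_inv, Xa_aj, Xa_bj, Xb_aj, Xb_bj]
      constructor <;> group

end dsep

end Pool.MP_59b15d_al.H76R
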