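import Mathlib
import Pool.Agent.H.MP_59b15d_al.h76r.Ri
import Pool.Agent.H.MP_59b15d_al.h76r.Rs

set_option autoImplicit false

namespace Pool.MP_59b15d_al.H76R

open Pool.MP_59b15d_al.H24T Pool.MP_59b15d_al.H76
open FreeGroup (of)

section dpair

variable {n : ℕ} {G : Type*} [Group G] {a b : Fin (n + 1) → G} (h : IsSurf a b)

/-- Two homomorphisms differing by a conjugation on the first handles. -/
theorem conj_dl {H : Type*} [Group H] (φ ψ : Fr n →* H) (c : H) (m : ℕ) (hm : m ≤ n)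
    (h1 : ∀ k : Fin n, (k : ℕ) < m → φ (of (Sum.inl k)) = c * ψ (of (Sum.inl k)) * c⁻¹ ∧
      φ (of (Sum.inr k)) = c * ψ (of (Sum.inr k)) * c⁻¹) (l : ℕ) (hl : l ≤ m) :
    φ (dl l) = c * ψ (dl l) * c⁻¹ := by
  induction l with
  | zero => rw [dl, map_one, map_one]; group
  | succ l ih =>
    have hln : l < n := by omega
    rw [dl_succ l hln, map_mul, map_mul, ih (by omega), kk]
    obtain ⟨k1, k2⟩ := h1 ⟨l, hln⟩ (show l < m by omega)
    simp only [map_mul, map_inv, k1, k2]
    group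

/-- The twist about the boundary of the first `m` handles, on the free group. -/
def fS (n m : ℕ) (c : Fr n) : Fin n ⊕ Fin n → Fr n :=
  Sum.elim (fun k => if (k : ℕ) < m then c * of (Sum.inl k) * c⁻¹ else of (Sum.inl k))
    (fun k => if (k : ℕ) < m then c * of (Sum.inr k) * c⁻¹ else of (Sum.inr k))

theorem fS_dl (m : ℕ) (hm : m ≤ n) (c : Fr n) :
    FreeGroup.lift (fS n m c) (dl m) = c * dl m * c⁻¹ := by
  have h1 := conj_dl (FreeGroup.lift (fS n m c)) (MonoidHom.id _) c m hm (by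
    intro k hk
    simp [fS, hk]) m le_rfl
  exact h1

theorem fS_inv (m : ℕ) (hm : m ≤ n) (x : Fin n ⊕ Fin n) :
    FreeGroup.lift (fS n m (dl m)) (fS n m (dl m)⁻¹ x) = of x := by
  have h1 : FreeGroup.lift (fS n m (dl m)) (dl m) = dl m := by
    rw [fS_dl m hm]; group
  rcases x with k | k
  · by_cases hk : (k : ℕ) < m
    · have h2 : fS n m (dl m)⁻¹ (Sum.inl k) = (dl m)⁻¹ * of (Sum.inl k) * (dl m)⁻¹⁻¹ := by
        simp [fS, hk]
      rw [h2]
      simp only [map_mul, map_inv, h1, FreeGroup.lift_apply_of]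
      have h3 : fS n m (dl m) (Sum.inl k) = dl m * of (Sum.inl k) * (dl m)⁻¹ := by
        simp [fS, hk]
      rw [h3]
      group
    · simp [fS, hk]
  · by_cases hk : (k : ℕ) < m
    · have h2 : fS n m (dl m)⁻¹ (Sum.inr k) = (dl m)⁻¹ * of (Sum.inr k) * (dl m)⁻¹⁻¹ := by
        simp [fS, hk]
      rw [h2]
      simp only [map_mul, map_inv, h1, FreeGroup.lift_apply_of]
      have h3 : fS n m (dl m) (Sum.inr k) = dl m * of (Sum.inr k) * (dl m)⁻¹ := by
        simp [fS, hk]
      rw [h3]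
      group
    · simp [fS, hk]

theorem fS_inv' (m : ℕ) (hm : m ≤ n) (x : Fin n ⊕ Fin n) :
    FreeGroup.lift (fS n m (dl m)⁻¹) (fS n m (dl m) x) = of x := by
  have h1 : FreeGroup.lift (fS n m (dl m)⁻¹) (dl m) = dl m := by
    rw [fS_dl m hm]; group
  rcases x with k | k
  · by_cases hk : (k : ℕ) < m
    · have h2 : fS n m (dl m)⁻¹ (Sum.inl k) = (dl m)⁻¹ * of (Sum.inl k) * (dl m)⁻¹⁻¹ := by
        simp [fS, hk]
      have h3 : fS n m (dl m) (Sum.inl k) = dl m * of (Sum.inl k) * (dl m)⁻¹ := by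
        simp [fS, hk]
      rw [h3]
      simp only [map_mul, map_inv, h1, FreeGroup.lift_apply_of]
      rw [h2]
      group
    · simp [fS, hk]
  · by_cases hk : (k : ℕ) < m
    · have h2 : fS n m (dl m)⁻¹ (Sum.inr k) = (dl m)⁻¹ * of (Sum.inr k) * (dl m)⁻¹⁻¹ := by
        simp [fS, hk]
      have h3 : fS n m (dl m) (Sum.inr k) = dl m * of (Sum.inr k) * (dl m)⁻¹ := by
        simp [fS, hk]
      rw [h3]
      simp only [map_mul, map_inv, h1, FreeGroup.lift_apply_of]
      rw [h2]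
      group
    · simp [fS, hk]

/-- The twist about the boundary of the first `m` handles, on the free group. -/
def FD (m : ℕ) (hm : m ≤ n) : MulAut (Fr n) :=
  mkA (fS n m (dl m)) (fS n m (dl m)⁻¹) (fS_inv m hm) (fS_inv' m hm)

theorem FD_a_lt {m : ℕ} (hm : m ≤ n) {k : Fin n} (hk : (k : ℕ) < m) :
    FD m hm (of (Sum.inl k)) = dl m * of (Sum.inl k) * (dl m)⁻¹ := by
  rw [FD, mkA_of]; simp [fS, hk]
theorem FD_b_lt {m : ℕ} (hm : m ≤ n) {k : Fin n} (hk : (k : ℕ) < m) :
    FD m hm (of (Sum.inr k)) = dl m * of (Sum.inr k) * (dl m)⁻¹ := by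
  rw [FD, mkA_of]; simp [fS, hk]
theorem FD_a_ge {m : ℕ} (hm : m ≤ n) {k : Fin n} (hk : ¬ (k : ℕ) < m) :
    FD m hm (of (Sum.inl k)) = of (Sum.inl k) := by
  rw [FD, mkA_of]; simp [fS, hk]
theorem FD_b_ge {m : ℕ} (hm : m ≤ n) {k : Fin n} (hk : ¬ (k : ℕ) < m) :
    FD m hm (of (Sum.inr k)) = of (Sum.inr k) := by
  rw [FD, mkA_of]; simp [fS, hk]

theorem FD_dl {m : ℕ} (hm : m ≤ n) : FD m hm (dl m) = dl m := by
  have h1 := fS_dl (n := n) m hm (dl m)
  have h2 : (dl m : Fr n) * dl m * (dl m)⁻¹ = dl m := by group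
  rw [h2] at h1
  exact h1

/-- The auxiliary automorphism. -/
noncomputable def EE' (m : ℕ) (hm : m ≤ n) : MulAut G :=
  MulAut.conj (dG a b m * a (Fin.last n)) * XX h (dl m) * (DS h m hm)⁻¹

theorem EE'_lt {m : ℕ} (hm : m ≤ n) {k : Fin (n + 1)} (hk : (k : ℕ) < m) :
    EE' h m hm (a k) = a k ∧ EE' h m hm (b k) = b k := by
  obtain ⟨i1, -, -, -⟩ := Xdl h m hm
  have hd : XX h (dl m) (dG a b m) = (a (Fin.last n))⁻¹ * dG a b m * a (Fin.last n) := by
    have h1 := conj_dG (a := a) (b := b) (XX h (dl m)).toMonoidHom (a (Fin.last n))⁻¹ m hm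
      (fun k hk => ⟨by
        have := (i1 k.castSucc hk).1
        rw [inv_inv]; exact this, by
        have := (i1 k.castSucc hk).2
        rw [inv_inv]; exact this⟩) m le_rfl
    rw [inv_inv] at h1
    exact h1
  rw [EE']
  simp only [MulAut.mul_apply, DSi_a_lt h hm hk, DSi_b_lt h hm hk, map_mul, map_inv, hd,
    (i1 k hk).1, (i1 k hk).2, MulAut.conj_apply]
  constructor <;> group

theorem EE'_mid {m : ℕ} (hm : m ≤ n) {k : Fin (n + 1)} (hk : m ≤ (k : ℕ)) (hk2 : (k : ℕ) < n) :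
    EE' h m hm (a k) = (a (Fin.last n) * dG a b m) * a k * (a (Fin.last n) * dG a b m)⁻¹ ∧
    EE' h m hm (b k) = (a (Fin.last n) * dG a b m) * b k * (a (Fin.last n) * dG a b m)⁻¹ := by
  obtain ⟨-, i2, -, -⟩ := Xdl h m hm
  rw [EE']
  have hk' : ¬ (k : ℕ) < m := by omega
  simp only [MulAut.mul_apply, DSi_a_ge h hm hk', DSi_b_ge h hm hk',
    (i2 k hk hk2).1, (i2 k hk hk2).2, MulAut.conj_apply]
  constructor <;> group

theorem EE'_last {m : ℕ} (hm : m ≤ n) :
    EE' h m hm (a (Fin.last n)) = a (Fin.last n) ∧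
    ∃ l : ℤ, EE' h m hm (b (Fin.last n)) =
      dG a b m * a (Fin.last n) * b (Fin.last n) * a (Fin.last n) ^ l := by
  obtain ⟨-, -, i3, l, i4⟩ := Xdl h m hm
  rw [EE']
  have hk' : ¬ ((Fin.last n : Fin (n + 1)) : ℕ) < m := by
    rw [Fin.val_last]; omega
  refine ⟨?_, l, ?_⟩
  · simp only [MulAut.mul_apply, DSi_a_ge h hm hk', i3, MulAut.conj_apply]
    group
  · simp only [MulAut.mul_apply, DSi_b_ge h hm hk', i4, MulAut.conj_apply]
    group

theorem EE'_comm {m : ℕ} (hm : m ≤ n) (j : Fin n) (hj : (j : ℕ) < m) :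
    EE' h m hm * Xa h j = Xa h j * EE' h m hm ∧ EE' h m hm * Xb h j = Xb h j * EE' h m hm := by
  obtain ⟨e1, l, e2⟩ := EE'_last h hm
  have hjc : (j.castSucc : ℕ) < m := hj
  obtain ⟨e3, e4⟩ := EE'_lt h hm hjc
  obtain ⟨d1, d2⟩ := X_dG h j m hm hj
  have hcase : ∀ k : Fin (n + 1), (j.castSucc < k ∧ k < Fin.last n) →
      (k : ℕ) < m ∨ (m ≤ (k : ℕ) ∧ (k : ℕ) < n) := by
    rintro k ⟨-, hk2⟩
    have : (k : ℕ) < n := hk2
    omega
  constructor
  · apply aut_ext h
    · intro k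
      rw [MulAut.mul_apply, MulAut.mul_apply]
      rcases seg_cases j k with hk | hk | hk | hk
      · have hkm : (k : ℕ) < m := lt_trans hk hjc
        rw [Xa_a_lt h j hk, (EE'_lt h hm hkm).1, Xa_a_lt h j hk]
      · subst hk
        rw [e3, Xa_aj]
        simp only [map_mul, map_inv, e1, e3]
      · rcases hcase k hk with hk3 | ⟨hk3, hk4⟩
        · rw [(EE'_lt h hm hk3).1, Xa_a_mid h j hk.1 hk.2]
          simp only [map_mul, map_inv, e1, e3, (EE'_lt h hm hk3).1]
        · rw [(EE'_mid h hm hk3 hk4).1, Xa_a_mid h j hk.1 hk.2]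
          simp only [map_mul, map_inv, e1, e3, (EE'_mid h hm hk3 hk4).1, Xa_al, d1,
            Xa_a_mid h j hk.1 hk.2]
          group
      · subst hk
        rw [e1, Xa_al]
        simp only [map_mul, map_inv, e1, e3]
    · intro k
      rw [MulAut.mul_apply, MulAut.mul_apply]
      rcases seg_cases j k with hk | hk | hk | hk
      · have hkm : (k : ℕ) < m := lt_trans hk hjc
        rw [Xa_b_lt h j hk, (EE'_lt h hm hkm).2, Xa_b_lt h j hk]
      · subst hk
        rw [e4, Xa_bj]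
        simp only [map_mul, map_inv, e1, e3, e4]
      · rcases hcase k hk with hk3 | ⟨hk3, hk4⟩
        · rw [(EE'_lt h hm hk3).2, Xa_b_mid h j hk.1 hk.2]
          simp only [map_mul, map_inv, e1, e3, (EE'_lt h hm hk3).2]
        · rw [(EE'_mid h hm hk3 hk4).2, Xa_b_mid h j hk.1 hk.2]
          simp only [map_mul, map_inv, e1, e3, (EE'_mid h hm hk3 hk4).2, Xa_al, d1,
            Xa_b_mid h j hk.1 hk.2]
          group
      · subst hk
        rw [e2, Xa_bl]
        simp only [map_mul, map_zpow, e1, e2, e3, d1, Xa_al, Xa_bl]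
        have hz : ∀ l : ℤ, ((a (Fin.last n))⁻¹ * (a j.castSucc)⁻¹ * a (Fin.last n) *
            a j.castSucc * a (Fin.last n)) ^ l =
            (a j.castSucc * a (Fin.last n))⁻¹ * a (Fin.last n) ^ l *
              (a j.castSucc * a (Fin.last n)) := by
          intro l
          have h1 := conj_zpow (i := l) (a := (a j.castSucc * a (Fin.last n))⁻¹)
            (b := a (Fin.last n))
          rw [inv_inv] at h1
          rw [← h1]
          congr 1
          group
        rw [hz]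
        group
  · apply aut_ext h
    · intro k
      rw [MulAut.mul_apply, MulAut.mul_apply]
      rcases seg_cases j k with hk | hk | hk | hk
      · have hkm : (k : ℕ) < m := lt_trans hk hjc
        rw [Xb_a_lt h j hk, (EE'_lt h hm hkm).1, Xb_a_lt h j hk]
      · subst hk
        rw [e3, Xb_aj]
        simp only [map_mul, map_inv, e1, e3, e4]
      · rcases hcase k hk with hk3 | ⟨hk3, hk4⟩
        · rw [(EE'_lt h hm hk3).1, Xb_a_mid h j hk.1 hk.2]
          simp only [map_mul, map_inv, e1, e4, (EE'_lt h hm hk3).1]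
        · rw [(EE'_mid h hm hk3 hk4).1, Xb_a_mid h j hk.1 hk.2]
          simp only [map_mul, map_inv, e1, e4, (EE'_mid h hm hk3 hk4).1, Xb_al, d2,
            Xb_a_mid h j hk.1 hk.2]
          group
      · subst hk
        rw [e1, Xb_al]
        simp only [map_mul, map_inv, e1, e4]
    · intro k
      rw [MulAut.mul_apply, MulAut.mul_apply]
      rcases seg_cases j k with hk | hk | hk | hk
      · have hkm : (k : ℕ) < m := lt_trans hk hjc
        rw [Xb_b_lt h j hk, (EE'_lt h hm hkm).2, Xb_b_lt h j hk]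
      · subst hk
        rw [e4, Xb_bj]
        simp only [map_mul, map_inv, e1, e4]
      · rcases hcase k hk with hk3 | ⟨hk3, hk4⟩
        · rw [(EE'_lt h hm hk3).2, Xb_b_mid h j hk.1 hk.2]
          simp only [map_mul, map_inv, e1, e4, (EE'_lt h hm hk3).2]
        · rw [(EE'_mid h hm hk3 hk4).2, Xb_b_mid h j hk.1 hk.2]
          simp only [map_mul, map_inv, e1, e4, (EE'_mid h hm hk3 hk4).2, Xb_al, d2,
            Xb_b_mid h j hk.1 hk.2]
          group
      · subst hk
        rw [e2, Xb_bl]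
        simp only [map_mul, map_inv, map_zpow, e1, e2, e4, d2, Xb_al, Xb_bl]
        have hz : ∀ l : ℤ, ((b j.castSucc)⁻¹ * a (Fin.last n) * b j.castSucc) ^ l =
            (b j.castSucc)⁻¹ * a (Fin.last n) ^ l * b j.castSucc := by
          intro l
          have h1 := conj_zpow (i := l) (a := (b j.castSucc)⁻¹) (b := a (Fin.last n))
          rw [inv_inv] at h1
          exact h1
        rw [hz]
        group

end dpair

end Pool.MP_59b15d_al.H76R
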