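import Mathlib
import Pool.Agent.H.MP_59b15d_al.h76m.Hh
import Pool.Agent.H.MP_59b15d_al.h76r.Rt

set_option autoImplicit false

namespace Pool.MP_59b15d_al.H76R

open Pool.MP_59b15d_al.H24T Pool.MP_59b15d_al.H76
open FreeGroup (of)

section dpair

variable {n : ℕ} {G : Type*} [Group G] {a b : Fin (n + 1) → G} (h : IsSurf a b)

theorem dG_low (m : ℕ) (hm : m ≤ n) (j : Fin n) (hj : m ≤ (j : ℕ)) : dG a b m ∈ Low a b j := by
  induction m with
  | zero => rw [dG_zero]; exact Subgroup.one_mem _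
  | succ m ih =>
    have hmn : m < n := hm
    rw [dG_succ m hmn, kG]
    have k1 : (⟨m, hmn⟩ : Fin n).castSucc < j.castSucc := hj
    exact Subgroup.mul_mem _ (ih hmn.le (by omega)) (Subgroup.mul_mem _ (Subgroup.mul_mem _
      (Subgroup.mul_mem _ (a_low j k1) (b_low j k1)) (Subgroup.inv_mem _ (a_low j k1)))
      (Subgroup.inv_mem _ (b_low j k1)))

/-- The free group on the first `m` handles. -/
def FL (n m : ℕ) : Subgroup (Fr n) :=
  Subgroup.closure {z | ∃ k : Fin n, (k : ℕ) < m ∧ (z = of (Sum.inl k) ∨ z = of (Sum.inr k))}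

theorem a_FL {m : ℕ} {k : Fin n} (hk : (k : ℕ) < m) : of (Sum.inl k) ∈ FL n m :=
  Subgroup.subset_closure ⟨k, hk, Or.inl rfl⟩
theorem b_FL {m : ℕ} {k : Fin n} (hk : (k : ℕ) < m) : of (Sum.inr k) ∈ FL n m :=
  Subgroup.subset_closure ⟨k, hk, Or.inr rfl⟩

theorem dl_FL (m : ℕ) (hm : m ≤ n) (l : ℕ) (hl : l ≤ m) : (dl l : Fr n) ∈ FL n m := by
  induction l with
  | zero => rw [dl]; exact Subgroup.one_mem _
  | succ l ih =>
    have hln : l < n := by omega
    have k1 : ((⟨l, hln⟩ : Fin n) : ℕ) < m := hl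
    rw [dl_succ l hln, kk]
    exact Subgroup.mul_mem _ (ih (by omega)) (Subgroup.mul_mem _ (Subgroup.mul_mem _
      (Subgroup.mul_mem _ (a_FL k1) (b_FL k1)) (Subgroup.inv_mem _ (a_FL k1)))
      (Subgroup.inv_mem _ (b_FL k1)))

theorem EE'_XX {m : ℕ} (hm : m ≤ n) {z : Fr n} (hz : z ∈ FL n m) :
    Commute (EE' h m hm) (XX h z) ∧
      XX h z (dG a b m * a (Fin.last n)) = dG a b m * a (Fin.last n) := by
  have h1 : FL n m ≤ (Subgroup.centralizer {EE' h m hm}).comap (XX h) := by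
    rw [FL, Subgroup.closure_le]
    rintro z ⟨k, hk, rfl | rfl⟩
    · change XX h (of (Sum.inl k)) ∈ Subgroup.centralizer {EE' h m hm}
      rw [Subgroup.mem_centralizer_singleton_iff, XX_a]
      exact (EE'_comm h hm k hk).1.symm
    · change XX h (of (Sum.inr k)) ∈ Subgroup.centralizer {EE' h m hm}
      rw [Subgroup.mem_centralizer_singleton_iff, XX_b]
      exact (EE'_comm h hm k hk).2.symm
  have h2 : FL n m ≤ (MulAction.stabilizer (MulAut G) (dG a b m * a (Fin.last n))).comap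
      (XX h) := by
    rw [FL, Subgroup.closure_le]
    rintro z ⟨k, hk, rfl | rfl⟩
    · change XX h (of (Sum.inl k)) (dG a b m * a (Fin.last n)) = dG a b m * a (Fin.last n)
      rw [XX_a, map_mul, (X_dG h k m hm hk).1, Xa_al]
      group
    · change XX h (of (Sum.inr k)) (dG a b m * a (Fin.last n)) = dG a b m * a (Fin.last n)
      rw [XX_b, map_mul, (X_dG h k m hm hk).2, Xb_al]
      group
  have h3 := h1 hz
  rw [Subgroup.mem_comap, Subgroup.mem_centralizer_singleton_iff] at h3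
  exact ⟨h3.symm, h2 hz⟩

theorem DS_XX {m : ℕ} (hm : m ≤ n) {z : Fr n} (hz : z ∈ FL n m) :
    DS h m hm * XX h z = XX h (dl m * z * (dl m)⁻¹) * DS h m hm := by
  have hz' : dl m * z * (dl m)⁻¹ ∈ FL n m :=
    Subgroup.mul_mem _ (Subgroup.mul_mem _ (dl_FL m hm m le_rfl) hz)
      (Subgroup.inv_mem _ (dl_FL m hm m le_rfl))
  obtain ⟨c1, c2⟩ := EE'_XX h hm hz'
  have h1 : DS h m hm = (EE' h m hm)⁻¹ * MulAut.conj (dG a b m * a (Fin.last n)) *
      XX h (dl m) := by
    rw [EE']; group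
  have h2 : MulAut.conj (dG a b m * a (Fin.last n)) * XX h (dl m * z * (dl m)⁻¹) =
      XX h (dl m * z * (dl m)⁻¹) * MulAut.conj (dG a b m * a (Fin.last n)) := by
    rw [conj_comm_G, c2]
  rw [h1]
  calc (EE' h m hm)⁻¹ * MulAut.conj (dG a b m * a (Fin.last n)) * XX h (dl m) * XX h z =
      (EE' h m hm)⁻¹ * (MulAut.conj (dG a b m * a (Fin.last n)) *
        XX h (dl m * z * (dl m)⁻¹)) * XX h (dl m) := by
        simp only [map_mul, map_inv]
        group
    _ = ((EE' h m hm)⁻¹ * XX h (dl m * z * (dl m)⁻¹)) *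
        MulAut.conj (dG a b m * a (Fin.last n)) * XX h (dl m) := by rw [h2]; group
    _ = _ := by rw [(c1.inv_left).eq]; group

theorem pair_DS (m : ℕ) (hm : m ≤ n) : Pair h (FD m hm) (DS h m hm) := by
  have hl : ¬ ((Fin.last n : Fin (n + 1)) : ℕ) < m := by
    rw [Fin.val_last]; omega
  have hcomm : ∀ k : Fin n, ¬ (k : ℕ) < m →
      DS h m hm * Xa h k = Xa h k * DS h m hm ∧ DS h m hm * Xb h k = Xb h k * DS h m hm := by
    intro k hk
    have hk' : ¬ (k.castSucc : ℕ) < m := hk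
    refine comm_of h k _ (DS_a_ge h hm hk') (DS_b_ge h hm hk') (DS_a_ge h hm hl)
      (DS_b_ge h hm hl) ?_ ?_
    · intro l hlk
      have hd := dG_low (a := a) (b := b) m hm k (by omega)
      by_cases hlm : (l : ℕ) < m
      · rw [DS_a_lt h hm hlm, DS_b_lt h hm hlm]
        exact ⟨Subgroup.mul_mem _ (Subgroup.mul_mem _ hd (a_low k hlk)) (Subgroup.inv_mem _ hd),
          Subgroup.mul_mem _ (Subgroup.mul_mem _ hd (b_low k hlk)) (Subgroup.inv_mem _ hd)⟩
      · rw [DS_a_ge h hm hlm, DS_b_ge h hm hlm]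
        exact ⟨a_low k hlk, b_low k hlk⟩
    · intro l hlk hl2
      have hlm : ¬ (l : ℕ) < m := by
        have : (k : ℕ) < (l : ℕ) := hlk
        omega
      rw [DS_a_ge h hm hlm, DS_b_ge h hm hlm]
      exact ⟨a_mid k hlk hl2, b_mid k hlk hl2⟩
  apply Pair.of_gens h
  · apply fj_of
    · intro k
      by_cases hk : (k : ℕ) < m
      · rw [DS_a_lt h hm (k := k.castSucc) hk, FD_a_lt hm hk, map_mul, map_mul, map_inv, jR_a]
        rfl
      · rw [DS_a_ge h hm (k := k.castSucc) hk, FD_a_ge hm hk, jR_a]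
    · intro k
      by_cases hk : (k : ℕ) < m
      · rw [DS_b_lt h hm (k := k.castSucc) hk, FD_b_lt hm hk, map_mul, map_mul, map_inv, jR_b]
        rfl
      · rw [DS_b_ge h hm (k := k.castSucc) hk, FD_b_ge hm hk, jR_b]
  · exact DS_a_ge h hm hl
  · exact DS_b_ge h hm hl
  · intro k
    refine ⟨0, ?_⟩
    rw [zpow_zero, mul_one]
    by_cases hk : (k : ℕ) < m
    · rw [FD_a_lt hm hk, ← XX_a]
      exact DS_XX h hm (a_FL hk)
    · rw [FD_a_ge hm hk, XX_a]
      exact (hcomm k hk).1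
  · intro k
    refine ⟨0, ?_⟩
    rw [zpow_zero, mul_one]
    by_cases hk : (k : ℕ) < m
    · rw [FD_b_lt hm hk, ← XX_b]
      exact DS_XX h hm (b_FL hk)
    · rw [FD_b_ge hm hk, XX_b]
      exact (hcomm k hk).2

end dpair

end Pool.MP_59b15d_al.H76R
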