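import Mathlib
import Pool.Agent.H.MP_59b15d_al.h76r.Rm
import Pool.Agent.H.MP_59b15d_al.h76r.Rs

set_option autoImplicit false

namespace Pool.MP_59b15d_al.H76R

open Pool.MP_59b15d_al.H24T Pool.MP_59b15d_al.H76
open FreeGroup (of)

section reversed

variable {m : ℕ} {G : Type*} [Group G] {a b : Fin m → G}

theorem relWord_rev {P : Type*} [Group P] (x y : Fin m → P) :
    relWord (fun i => y i.rev) (fun i => x i.rev) = (relWord x y)⁻¹ := by
  unfold relWord
  rw [List.prod_inv_reverse, List.map_ofFn]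
  congr 1
  apply List.ext_getElem
  · simp
  · intro i h1 h2
    simp only [List.getElem_ofFn, List.getElem_reverse, List.length_ofFn, Function.comp]
    rw [List.length_ofFn] at h1
    have h3 : (⟨i, h1⟩ : Fin m).rev = ⟨m - 1 - i, by omega⟩ := by
      apply Fin.ext
      simp only [Fin.val_rev]
      omega
    rw [h3]
    group

/-- The reversed generating system. -/
theorem isSurf_rev (h : IsSurf a b) : IsSurf (fun i => b i.rev) (fun i => a i.rev) := by
  obtain ⟨f, h1, h2⟩ := h.lift (fun i => b i.rev) (fun i => a i.rev) (by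
    rw [relWord_rev, h.relWord_eq, inv_one])
  have h3 : f.comp f = MonoidHom.id G := by
    apply hom_ext h
    · intro i
      rw [MonoidHom.comp_apply, h1, h2, Fin.rev_rev, MonoidHom.id_apply]
    · intro i
      rw [MonoidHom.comp_apply, h2, h1, Fin.rev_rev, MonoidHom.id_apply]
  obtain ⟨e, he⟩ := h.iso
  refine ⟨⟨e.trans (MonoidHom.toMulEquiv f f h3 h3), fun i => ⟨?_, ?_⟩⟩⟩
  · change f (e _) = _
    rw [(he i).1, h1]
  · change f (e _) = _
    rw [(he i).2, h2]

/-- Standard generators are mapped to standard generators by automorphisms. -/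
theorem isSurf_map (h : IsSurf a b) (ψ : MulAut G) :
    IsSurf (fun i => ψ (a i)) (fun i => ψ (b i)) := by
  obtain ⟨e, he⟩ := h.iso
  refine ⟨⟨e.trans ψ, fun i => ⟨?_, ?_⟩⟩⟩
  · change ψ (e _) = _
    rw [(he i).1]
  · change ψ (e _) = _
    rw [(he i).2]

variable {a' b' : Fin m → G} (h : IsSurf a b) (h' : IsSurf a' b')
  (ha : ∀ i, a' i = b i.rev) (hb : ∀ i, b' i = a i.rev)

include ha in
theorem rev_a (i : Fin m) : b i = a' i.rev := by rw [ha, Fin.rev_rev]
include hb in
theorem rev_b (i : Fin m) : a i = b' i.rev := by rw [hb, Fin.rev_rev]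

include ha hb in
theorem TA_rev (i : Fin m) : TA h' i = TB h i.rev := by
  apply aut_ext h'
  · intro k
    rw [TA_a, ha, TB_b]
  · intro k
    by_cases hk : k = i
    · subst hk
      rw [TA_b, hb, ha, TB_a]
    · rw [TA_b_ne h' hk, hb, TB_a_ne h (fun h1 => hk (Fin.rev_injective h1))]

include ha hb in
theorem TB_rev (i : Fin m) : TB h' i = TA h i.rev := by
  apply aut_ext h'
  · intro k
    by_cases hk : k = i
    · subst hk
      rw [TB_a, hb, ha, TA_b]
    · rw [TB_a_ne h' hk, ha, TA_b_ne h (fun h1 => hk (Fin.rev_injective h1))]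
  · intro k
    rw [TB_b, hb, TA_a]

theorem rev_hij {i j : Fin m} (hij : (j : ℕ) = i + 1) : (i.rev : ℕ) = j.rev + 1 := by
  have := j.2
  simp only [Fin.val_rev]
  omega

theorem TCi_ai {i j : Fin m} (hij : (j : ℕ) = i + 1) :
    (TC h i j hij)⁻¹ (a i) = a i * ((a j)⁻¹ * b i)⁻¹ := by
  have := (exists_TC h i j hij).choose_spec.2.2.1 i
  rwa [if_pos rfl] at this
theorem TCi_aj {i j : Fin m} (hij : (j : ℕ) = i + 1) :
    (TC h i j hij)⁻¹ (a j) = ((a j)⁻¹ * b i) * a j * ((a j)⁻¹ * b i)⁻¹ := by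
  have := (exists_TC h i j hij).choose_spec.2.2.1 j
  rwa [if_neg (by intro h1; rw [h1] at hij; omega), if_pos rfl] at this
theorem TCi_bi {i j : Fin m} (hij : (j : ℕ) = i + 1) :
    (TC h i j hij)⁻¹ (b i) = ((a j)⁻¹ * b i) * a j := by
  have := (exists_TC h i j hij).choose_spec.2.2.2 i
  rwa [if_pos rfl] at this
theorem TCi_bj {i j : Fin m} (hij : (j : ℕ) = i + 1) :
    (TC h i j hij)⁻¹ (b j) = b j * ((a j)⁻¹ * b i)⁻¹ := by
  have := (exists_TC h i j hij).choose_spec.2.2.2 j
  rwa [if_neg (by intro h1; rw [h1] at hij; omega), if_pos rfl] at this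
theorem TCi_a_ne {i j : Fin m} (hij : (j : ℕ) = i + 1) {k : Fin m} (h1 : k ≠ i) (h2 : k ≠ j) :
    (TC h i j hij)⁻¹ (a k) = a k := by
  have := (exists_TC h i j hij).choose_spec.2.2.1 k
  rwa [if_neg h1, if_neg h2] at this
theorem TCi_b_ne {i j : Fin m} (hij : (j : ℕ) = i + 1) {k : Fin m} (h1 : k ≠ i) (h2 : k ≠ j) :
    (TC h i j hij)⁻¹ (b k) = b k := by
  have := (exists_TC h i j hij).choose_spec.2.2.2 k
  rwa [if_neg h1, if_neg h2] at this

include ha hb in
theorem TC_rev (i j : Fin m) (hij : (j : ℕ) = i + 1) :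
    TC h' i j hij = (TC h j.rev i.rev (rev_hij hij))⁻¹ := by
  have hji : j ≠ i := by
    intro h1
    rw [h1] at hij
    omega
  apply aut_ext h'
  · intro k
    by_cases hk : k = i
    · subst hk
      rw [TC_ai, ha, hb, ha, TCi_bj h (rev_hij hij)]
      group
    · by_cases hk2 : k = j
      · subst hk2
        rw [TC_aj, ha, hb, TCi_bi h (rev_hij hij)]
        group
      · rw [TC_a_ne h' hij hk hk2, ha, TCi_b_ne h (rev_hij hij)
          (fun h1 => hk2 (Fin.rev_injective h1)) (fun h1 => hk (Fin.rev_injective h1))]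
  · intro k
    by_cases hk : k = i
    · subst hk
      rw [TC_bi, ha, hb, TCi_aj h (rev_hij hij)]
      group
    · by_cases hk2 : k = j
      · subst hk2
        rw [TC_bj, ha, hb, hb, TCi_ai h (rev_hij hij)]
        group
      · rw [TC_b_ne h' hij hk hk2, hb, TCi_a_ne h (rev_hij hij)
          (fun h1 => hk2 (Fin.rev_injective h1)) (fun h1 => hk (Fin.rev_injective h1))]

include ha hb in
theorem MMs_rev_le : MMs h' ≤ MMs h := by
  rw [MMs, Subgroup.closure_le]
  rintro T (⟨x, rfl⟩ | ⟨i, rfl⟩ | ⟨i, rfl⟩ | ⟨i, j, hij, rfl⟩)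
  · exact Subgroup.subset_closure (Or.inl ⟨x, rfl⟩)
  · rw [TA_rev h h' ha hb]
    exact Subgroup.subset_closure (Or.inr (Or.inr (Or.inl ⟨_, rfl⟩)))
  · rw [TB_rev h h' ha hb]
    exact Subgroup.subset_closure (Or.inr (Or.inl ⟨_, rfl⟩))
  · rw [TC_rev h h' ha hb]
    exact Subgroup.inv_mem _ (Subgroup.subset_closure (Or.inr (Or.inr (Or.inr ⟨_, _, _, rfl⟩))))

include ha hb in
theorem MMs_rev : MMs h' = MMs h :=
  le_antisymm (MMs_rev_le h h' ha hb) (MMs_rev_le h' h (rev_b hb) (rev_a ha))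

end reversed

section reversed2

variable {n : ℕ} {G : Type*} [Group G] {a b a' b' : Fin (n + 1) → G}
  (h : IsSurf a b) (h' : IsSurf a' b')
  (ha : ∀ i, a' i = b i.rev) (hb : ∀ i, b' i = a i.rev)

include h ha hb in
theorem dG_rev (m' : ℕ) (hm' : m' < n) :
    dG a' b' (m' + 1) = dG a b (n - m') := by
  induction m' with
  | zero =>
    rw [dG_succ 0 hm', dG_zero, one_mul, kG, Nat.sub_zero]
    have h1 : ((⟨0, hm'⟩ : Fin n).castSucc).rev = Fin.last n := by
      apply Fin.ext
      simp [Fin.val_rev]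
    rw [ha, hb, h1]
    have h2 := aP_eq h
    rw [aP] at h2
    rw [h2]
    group
  | succ m' ih =>
    rw [dG_succ (m' + 1) hm', ih (by omega), kG]
    have h1 : n - m' = (n - (m' + 1)) + 1 := by omega
    have h2 : n - (m' + 1) < n := by omega
    have h3 : ((⟨m' + 1, hm'⟩ : Fin n).castSucc).rev = (⟨n - (m' + 1), h2⟩ : Fin n).castSucc := by
      apply Fin.ext
      simp only [Fin.val_rev, Fin.val_castSucc]
      omega
    rw [ha, hb, h3, h1, dG_succ _ h2, kG]
    group

include ha hb in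
theorem DS_rev (m m' : ℕ) (hm : m ≤ n) (hm' : m' ≤ n) (hmm : m + m' = n + 1) :
    DS h m hm * DS h' m' hm' = MulAut.conj (dG a b m) := by
  have hd : dG a' b' m' = dG a b m := by
    obtain ⟨l, rfl⟩ : ∃ l, m' = l + 1 := ⟨m' - 1, by omega⟩
    rw [dG_rev h ha hb l (by omega)]
    congr 1
    omega
  have hrev : ∀ k : Fin (n + 1), ((k.rev : ℕ) < m' ↔ ¬ (k : ℕ) < m) := by
    intro k
    have := k.2
    rw [Fin.val_rev]
    omega
  apply aut_ext h
  · intro k
    rw [MulAut.mul_apply, MulAut.conj_apply]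
    by_cases hk : (k : ℕ) < m
    · have h1 : ¬ (k.rev : ℕ) < m' := by rw [hrev]; exact fun h2 => h2 hk
      have h2 := DS_b_ge h' hm' h1
      rw [← rev_b hb] at h2
      rw [h2, DS_a_lt h hm hk]
    · have h1 : (k.rev : ℕ) < m' := (hrev k).mpr hk
      have h2 := DS_b_lt h' hm' h1
      rw [← rev_b hb, hd] at h2
      rw [h2, map_mul, map_mul, map_inv, DS_dG, DS_a_ge h hm hk]
  · intro k
    rw [MulAut.mul_apply, MulAut.conj_apply]
    by_cases hk : (k : ℕ) < m
    · have h1 : ¬ (k.rev : ℕ) < m' := by rw [hrev]; exact fun h2 => h2 hk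
      have h2 := DS_a_ge h' hm' h1
      rw [← rev_a ha] at h2
      rw [h2, DS_b_lt h hm hk]
    · have h1 : (k.rev : ℕ) < m' := (hrev k).mpr hk
      have h2 := DS_a_lt h' hm' h1
      rw [← rev_a ha, hd] at h2
      rw [h2, map_mul, map_mul, map_inv, DS_dG, DS_b_ge h hm hk]

end reversed2

end Pool.MP_59b15d_al.H76R
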