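import Mathlib
import Pool.Agent.H.MP_59b15d_al.h76r.Ru
import Pool.Agent.H.MP_59b15d_al.h76r.Rv
import Pool.Agent.H.MP_59b15d_al.h76r.Rw

set_option autoImplicit false

namespace Pool.MP_59b15d_al.H76R

open Pool.MP_59b15d_al.H24T Pool.MP_59b15d_al.H76
open FreeGroup (of)

section lp

variable {n : ℕ} {G : Type*} [Group G] {a b : Fin (n + 1) → G}

/-- Automorphisms supported on the first `m` handles. -/
structure LP (h : IsSurf a b) (m : ℕ) (f' : MulAut (Fr n)) (f : MulAut G) : Prop where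
  pair : Pair h f' f
  fix : ∀ x ∈ GHi a b m, f x = x
  lo : ∀ x ∈ GLo a b m, f x ∈ GLo a b m
  lo' : ∀ x ∈ GLo a b m, f⁻¹ x ∈ GLo a b m
  ff : ∀ k : Fin n, ¬ (k : ℕ) < m → f' (of (Sum.inl k)) = of (Sum.inl k) ∧
    f' (of (Sum.inr k)) = of (Sum.inr k)

theorem a_GLo {m : ℕ} {k : Fin (n + 1)} (hk : (k : ℕ) < m) : a k ∈ GLo a b m :=
  Subgroup.subset_closure ⟨k, hk, Or.inl rfl⟩
theorem b_GLo {m : ℕ} {k : Fin (n + 1)} (hk : (k : ℕ) < m) : b k ∈ GLo a b m :=
  Subgroup.subset_closure ⟨k, hk, Or.inr rfl⟩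
theorem a_GHi {m : ℕ} {k : Fin (n + 1)} (hk : ¬ (k : ℕ) < m) : a k ∈ GHi a b m :=
  Subgroup.subset_closure ⟨k, hk, Or.inl rfl⟩
theorem b_GHi {m : ℕ} {k : Fin (n + 1)} (hk : ¬ (k : ℕ) < m) : b k ∈ GHi a b m :=
  Subgroup.subset_closure ⟨k, hk, Or.inr rfl⟩

theorem fix_GHi {m : ℕ} {f : MulAut G}
    (h1 : ∀ k : Fin (n + 1), ¬ (k : ℕ) < m → f (a k) = a k ∧ f (b k) = b k) :
    ∀ x ∈ GHi a b m, f x = x := by
  intro x hx
  have h2 : GHi a b m ≤ MonoidHom.eqLocus f.toMonoidHom (MonoidHom.id G) := by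
    rw [GHi, Subgroup.closure_le]
    rintro z ⟨k, hk, rfl | rfl⟩
    · exact (h1 k hk).1
    · exact (h1 k hk).2
  exact h2 hx

theorem fix_GLo {m : ℕ} {f : MulAut G}
    (h1 : ∀ k : Fin (n + 1), (k : ℕ) < m → f (a k) = a k ∧ f (b k) = b k) :
    ∀ x ∈ GLo a b m, f x = x := by
  intro x hx
  have h2 : GLo a b m ≤ MonoidHom.eqLocus f.toMonoidHom (MonoidHom.id G) := by
    rw [GLo, Subgroup.closure_le]
    rintro z ⟨k, hk, rfl | rfl⟩
    · exact (h1 k hk).1
    · exact (h1 k hk).2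
  exact h2 hx

theorem map_GLo {m : ℕ} {f : MulAut G}
    (h1 : ∀ k : Fin (n + 1), (k : ℕ) < m → f (a k) ∈ GLo a b m ∧ f (b k) ∈ GLo a b m) :
    ∀ x ∈ GLo a b m, f x ∈ GLo a b m := by
  intro x hx
  have h2 : GLo a b m ≤ (GLo a b m).comap f.toMonoidHom := by
    rw [GLo, Subgroup.closure_le]
    rintro z ⟨k, hk, rfl | rfl⟩
    · exact (h1 k hk).1
    · exact (h1 k hk).2
  exact h2 hx

theorem LP.one (h : IsSurf a b) (m : ℕ) : LP h m 1 1 :=
  ⟨Pair.one h, fun _ _ => rfl, fun _ hx => hx, fun x hx => by rw [inv_one]; exact hx,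
    fun _ _ => ⟨rfl, rfl⟩⟩

theorem LP.mul {h : IsSurf a b} {m : ℕ} {f' g' : MulAut (Fr n)} {f g : MulAut G}
    (hf : LP h m f' f) (hg : LP h m g' g) : LP h m (f' * g') (f * g) := by
  refine ⟨hf.pair.mul hg.pair, ?_, ?_, ?_, ?_⟩
  · intro x hx
    rw [MulAut.mul_apply, hg.fix x hx, hf.fix x hx]
  · intro x hx
    rw [MulAut.mul_apply]
    exact hf.lo _ (hg.lo x hx)
  · intro x hx
    rw [mul_inv_rev, MulAut.mul_apply]
    exact hg.lo' _ (hf.lo' x hx)
  · intro k hk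
    rw [MulAut.mul_apply, MulAut.mul_apply, (hg.ff k hk).1, (hg.ff k hk).2]
    exact hf.ff k hk

theorem inv_fix {H : Type*} [Group H] {f : MulAut H} {x : H} (hx : f x = x) : f⁻¹ x = x := by
  conv_lhs => rw [← hx]
  rw [MulAut.inv_apply_self]

theorem zpow_fix {H : Type*} [Group H] {f : MulAut H} {x : H} (hx : f x = x) (j : ℤ) :
    (f ^ j) x = x := by
  have k3 : f ∈ MulAction.stabilizer (MulAut H) x := hx
  exact (MulAction.stabilizer (MulAut H) x).zpow_mem k3 _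

theorem LP.inv {h : IsSurf a b} {m : ℕ} {f' : MulAut (Fr n)} {f : MulAut G}
    (hf : LP h m f' f) : LP h m f'⁻¹ f⁻¹ := by
  refine ⟨hf.pair.inv, ?_, hf.lo', ?_, ?_⟩
  · intro x hx
    exact inv_fix (hf.fix x hx)
  · intro x hx
    rw [inv_inv]
    exact hf.lo x hx
  · intro k hk
    exact ⟨inv_fix (hf.ff k hk).1, inv_fix (hf.ff k hk).2⟩

theorem LP.zpow {h : IsSurf a b} {m : ℕ} {f' : MulAut (Fr n)} {f : MulAut G}
    (hf : LP h m f' f) (j : ℤ) : LP h m (f' ^ j) (f ^ j) := by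
  induction j using Int.induction_on with
  | zero => rw [zpow_zero, zpow_zero]; exact LP.one h m
  | succ j ih => rw [zpow_add_one, zpow_add_one]; exact ih.mul hf
  | pred j ih => rw [zpow_sub_one, zpow_sub_one]; exact ih.mul hf.inv

variable (h : IsSurf a b)

theorem LP_TA {m : ℕ} {i : Fin n} (hi : (i : ℕ) < m) : LP h m (FA i) (TA h i.castSucc) := by
  have hic : (i.castSucc : ℕ) < m := hi
  refine ⟨pair_TA h i, fix_GHi ?_, map_GLo ?_, map_GLo ?_, ?_⟩
  · intro k hk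
    have hki : k ≠ i.castSucc := by
      intro h1
      rw [h1] at hk
      exact hk hic
    exact ⟨TA_a h _ _, TA_b_ne h hki⟩
  · intro k hk
    refine ⟨by rw [TA_a]; exact a_GLo hk, ?_⟩
    by_cases hki : k = i.castSucc
    · subst hki
      rw [TA_b]
      exact Subgroup.mul_mem _ (b_GLo hk) (a_GLo hk)
    · rw [TA_b_ne h hki]
      exact b_GLo hk
  · intro k hk
    refine ⟨by rw [TAi_a]; exact a_GLo hk, ?_⟩
    by_cases hki : k = i.castSucc
    · subst hki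
      rw [TAi_b]
      exact Subgroup.mul_mem _ (b_GLo hk) (Subgroup.inv_mem _ (a_GLo hk))
    · rw [inv_fix (TA_b_ne h hki)]
      exact b_GLo hk
  · intro k hk
    have hki : k ≠ i := by
      intro h1
      rw [h1] at hk
      exact hk hi
    exact ⟨FA_ne i (by simp), FA_ne i (by simp [hki])⟩

theorem LP_TB {m : ℕ} {i : Fin n} (hi : (i : ℕ) < m) : LP h m (FB i) (TB h i.castSucc) := by
  have hic : (i.castSucc : ℕ) < m := hi
  refine ⟨pair_TB h i, fix_GHi ?_, map_GLo ?_, map_GLo ?_, ?_⟩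
  · intro k hk
    have hki : k ≠ i.castSucc := by
      intro h1
      rw [h1] at hk
      exact hk hic
    exact ⟨TB_a_ne h hki, TB_b h _ _⟩
  · intro k hk
    refine ⟨?_, by rw [TB_b]; exact b_GLo hk⟩
    by_cases hki : k = i.castSucc
    · subst hki
      rw [TB_a]
      exact Subgroup.mul_mem _ (a_GLo hk) (b_GLo hk)
    · rw [TB_a_ne h hki]
      exact a_GLo hk
  · intro k hk
    refine ⟨?_, by rw [inv_fix (TB_b h _ _)]; exact b_GLo hk⟩
    by_cases hki : k = i.castSucc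
    · subst hki
      have := (exists_TB h i.castSucc).choose_spec.2.2.1 i.castSucc
      rw [if_pos rfl] at this
      rw [TB, this]
      exact Subgroup.mul_mem _ (a_GLo hk) (Subgroup.inv_mem _ (b_GLo hk))
    · rw [inv_fix (TB_a_ne h hki)]
      exact a_GLo hk
  · intro k hk
    have hki : k ≠ i := by
      intro h1
      rw [h1] at hk
      exact hk hi
    exact ⟨FB_ne i (by simp [hki]), FB_ne i (by simp)⟩

theorem LP_TC {m : ℕ} {i j : Fin n} (hij : (j : ℕ) = i + 1) (hj : (j : ℕ) < m) :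
    LP h m (FC i j (ne_of_hij hij)) (TCc h hij) := by
  have hjc : (j.castSucc : ℕ) < m := hj
  have hi : (i : ℕ) < m := by omega
  have hic : (i.castSucc : ℕ) < m := hi
  have hji : j.castSucc ≠ i.castSucc := (cs_ne (ne_of_hij hij)).symm
  have hu : (a j.castSucc)⁻¹ * b i.castSucc ∈ GLo a b m :=
    Subgroup.mul_mem _ (Subgroup.inv_mem _ (a_GLo hjc)) (b_GLo hic)
  refine ⟨pair_TC h hij, fix_GHi ?_, map_GLo ?_, map_GLo ?_, ?_⟩
  · intro k hk
    have hki : k ≠ i.castSucc := by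
      intro h1
      rw [h1] at hk
      exact hk hic
    have hkj : k ≠ j.castSucc := by
      intro h1
      rw [h1] at hk
      exact hk hjc
    exact ⟨TC_a_ne h (cs_hij hij) hki hkj, TC_b_ne h (cs_hij hij) hki hkj⟩
  · intro k hk
    by_cases hki : k = i.castSucc
    · subst hki
      rw [TCc, TC_ai, TC_bi]
      exact ⟨Subgroup.mul_mem _ (a_GLo hk) hu, Subgroup.mul_mem _ (Subgroup.mul_mem _
        (Subgroup.mul_mem _ (Subgroup.inv_mem _ hu) (a_GLo hjc)) hu) hu⟩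
    · by_cases hkj : k = j.castSucc
      · subst hkj
        rw [TCc, TC_aj, TC_bj]
        exact ⟨Subgroup.mul_mem _ (Subgroup.mul_mem _ (Subgroup.inv_mem _ hu) (a_GLo hjc)) hu,
          Subgroup.mul_mem _ (b_GLo hk) hu⟩
      · rw [TCc, TC_a_ne h (cs_hij hij) hki hkj, TC_b_ne h (cs_hij hij) hki hkj]
        exact ⟨a_GLo hk, b_GLo hk⟩
  · intro k hk
    by_cases hki : k = i.castSucc
    · subst hki
      rw [TCc, TCi_ai, TCi_bi]
      exact ⟨Subgroup.mul_mem _ (a_GLo hk) (Subgroup.inv_mem _ hu),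
        Subgroup.mul_mem _ hu (a_GLo hjc)⟩
    · by_cases hkj : k = j.castSucc
      · subst hkj
        rw [TCc, TCi_aj, TCi_bj]
        exact ⟨Subgroup.mul_mem _ (Subgroup.mul_mem _ hu (a_GLo hjc)) (Subgroup.inv_mem _ hu),
          Subgroup.mul_mem _ (b_GLo hk) (Subgroup.inv_mem _ hu)⟩
      · rw [TCc, TCi_a_ne h (cs_hij hij) hki hkj, TCi_b_ne h (cs_hij hij) hki hkj]
        exact ⟨a_GLo hk, b_GLo hk⟩
  · intro k hk
    have hki : k ≠ i := by
      intro h1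
      rw [h1] at hk
      exact hk hi
    have hkj : k ≠ j := by
      intro h1
      rw [h1] at hk
      exact hk hj
    exact ⟨FC_a_ne i j _ hki hkj, FC_b_ne i j _ hki hkj⟩

theorem dG_GLo (m : ℕ) (hm : m ≤ n) : dG a b m ∈ GLo a b m := by
  have : ∀ l : ℕ, l ≤ m → dG a b l ∈ GLo a b m := by
    intro l hl
    induction l with
    | zero => rw [dG_zero]; exact Subgroup.one_mem _
    | succ l ih =>
      have hln : l < n := by omega
      have k1 : ((⟨l, hln⟩ : Fin n).castSucc : ℕ) < m := hl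
      rw [dG_succ l hln, kG]
      exact Subgroup.mul_mem _ (ih (by omega)) (Subgroup.mul_mem _ (Subgroup.mul_mem _
        (Subgroup.mul_mem _ (a_GLo k1) (b_GLo k1)) (Subgroup.inv_mem _ (a_GLo k1)))
        (Subgroup.inv_mem _ (b_GLo k1)))
  exact this m le_rfl

theorem LP_DS (m : ℕ) (hm : m ≤ n) : LP h m (FD m hm) (DS h m hm) := by
  have hd := dG_GLo (a := a) (b := b) m hm
  refine ⟨pair_DS h m hm, fix_GHi ?_, map_GLo ?_, map_GLo ?_, ?_⟩
  · intro k hk
    exact ⟨DS_a_ge h hm hk, DS_b_ge h hm hk⟩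
  · intro k hk
    rw [DS_a_lt h hm hk, DS_b_lt h hm hk]
    exact ⟨Subgroup.mul_mem _ (Subgroup.mul_mem _ hd (a_GLo hk)) (Subgroup.inv_mem _ hd),
      Subgroup.mul_mem _ (Subgroup.mul_mem _ hd (b_GLo hk)) (Subgroup.inv_mem _ hd)⟩
  · intro k hk
    rw [DSi_a_lt h hm hk, DSi_b_lt h hm hk]
    exact ⟨Subgroup.mul_mem _ (Subgroup.mul_mem _ (Subgroup.inv_mem _ hd) (a_GLo hk)) hd,
      Subgroup.mul_mem _ (Subgroup.mul_mem _ (Subgroup.inv_mem _ hd) (b_GLo hk)) hd⟩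
  · intro k hk
    exact ⟨FD_a_ge hm hk, FD_b_ge hm hk⟩

end lp

end Pool.MP_59b15d_al.H76R
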