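import Mathlib
import Pool.Agent.H.MP_59b15d_al.h76r.Ry

set_option autoImplicit false

namespace Pool.MP_59b15d_al.H76R

open Pool.MP_59b15d_al.H24T Pool.MP_59b15d_al.H76
open FreeGroup (of)

section sep

variable {n : ℕ} {G : Type*} [Group G] {a b a' b' : Fin (n + 1) → G}
  (h : IsSurf a b) (h' : IsSurf a' b')
  (ha : ∀ i, a' i = b i.rev) (hb : ∀ i, b' i = a i.rev)

include ha hb in
theorem GLo_rev {m m' : ℕ} (hmm : m + m' = n + 1) : GLo a' b' m' = GHi a b m := by
  have hrev : ∀ k : Fin (n + 1), ((k.rev : ℕ) < m' ↔ ¬ (k : ℕ) < m) := by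
    intro k
    have := k.2
    rw [Fin.val_rev]
    omega
  apply le_antisymm
  · rw [GLo, Subgroup.closure_le]
    rintro z ⟨k, hk, rfl | rfl⟩
    · rw [ha]
      exact b_GHi ((hrev k.rev).mp (by rwa [Fin.rev_rev]))
    · rw [hb]
      exact a_GHi ((hrev k.rev).mp (by rwa [Fin.rev_rev]))
  · rw [GHi, Subgroup.closure_le]
    rintro z ⟨k, hk, rfl | rfl⟩
    · rw [rev_b hb]
      exact b_GLo ((hrev k).mpr hk)
    · rw [rev_a ha]
      exact a_GLo ((hrev k).mpr hk)

include ha hb in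
theorem GHi_rev {m m' : ℕ} (hmm : m + m' = n + 1) : GHi a' b' m' = GLo a b m :=
  (GLo_rev (a := a') (b := b') (a' := a) (b' := b) (rev_b hb) (rev_a ha) (by omega)).symm

theorem ext_GLo_GHi (h : IsSurf a b) {m : ℕ} {F F' : MulAut G}
    (h1 : ∀ x ∈ GLo a b m, F x = F' x) (h2 : ∀ x ∈ GHi a b m, F x = F' x) : F = F' := by
  apply aut_ext h
  · intro k
    rcases gen_cases (a := a) (b := b) m k with hk | hk
    · exact h1 _ hk.1
    · exact h2 _ hk.1
  · intro k
    rcases gen_cases (a := a) (b := b) m k with hk | hk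
    · exact h1 _ hk.2
    · exact h2 _ hk.2

variable {h h'}

include ha hb in
theorem LP_comm {m m' : ℕ} (hmm : m + m' = n + 1) {f' : MulAut (Fr n)} {f : MulAut G}
    {g' : MulAut (Fr n)} {g : MulAut G} (hf : LP h m f' f) (hg : LP h' m' g' g) :
    f * g = g * f := by
  have e1 := GLo_rev ha hb hmm
  have e2 := GHi_rev ha hb hmm
  apply ext_GLo_GHi h (m := m)
  · intro x hx
    have g1 : ∀ y ∈ GLo a b m, g y = y := fun y hy => hg.fix y (by rw [e2]; exact hy)
    rw [MulAut.mul_apply, MulAut.mul_apply, g1 x hx, g1 _ (hf.lo x hx)]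
  · intro x hx
    have g1 : ∀ y ∈ GHi a b m, g y ∈ GHi a b m := fun y hy => by
      have := hg.lo y (by rw [e1]; exact hy)
      rwa [e1] at this
    rw [MulAut.mul_apply, MulAut.mul_apply, hf.fix _ (g1 x hx), hf.fix x hx]

include ha hb in
theorem DSpow (m m' : ℕ) (hm : m ≤ n) (hm' : m' ≤ n) (hmm : m + m' = n + 1) (j : ℤ) :
    DS h m hm ^ j * DS h' m' hm' ^ j = MulAut.conj (dG a b m ^ j) := by
  have h1 : Commute (DS h m hm) (DS h' m' hm') :=
    LP_comm ha hb hmm (LP_DS h m hm) (LP_DS h' m' hm')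
  rw [← h1.mul_zpow, DS_rev h h' ha hb m m' hm hm' hmm, map_zpow]

variable (h h')

/-- Compositions of an inner automorphism and automorphisms of the two sides. -/
def DecS (m m' : ℕ) (φ : MulAut G) : Prop :=
  ∃ (c : G) (f' : MulAut (Fr n)) (f : MulAut G) (g' : MulAut (Fr n)) (g : MulAut G),
    LP h m f' f ∧ LP h' m' g' g ∧ φ = MulAut.conj c * f * g

variable {h h'}

theorem DecS_conj {m m' : ℕ} {φ : MulAut G} (hφ : DecS h h' m m' φ) (x : G) :
    DecS h h' m m' (MulAut.conj x * φ) := by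
  obtain ⟨c, f', f, g', g, hf, hg, rfl⟩ := hφ
  exact ⟨x * c, f', f, g', g, hf, hg, by rw [map_mul]; group⟩

theorem DecS_L {m m' : ℕ} {φ : MulAut G} (hφ : DecS h h' m m' φ) {t' : MulAut (Fr n)}
    {t : MulAut G} (ht : LP h m t' t) : DecS h h' m m' (t * φ) := by
  obtain ⟨c, f', f, g', g, hf, hg, rfl⟩ := hφ
  refine ⟨t c, t' * f', t * f, g', g, ht.mul hf, hg, ?_⟩
  have h1 := conj_comm_G t c
  calc t * (MulAut.conj c * f * g) = (t * MulAut.conj c) * f * g := by group
    _ = _ := by rw [h1]; group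

include ha hb in
theorem DecS_R {m m' : ℕ} (hmm : m + m' = n + 1) {φ : MulAut G} (hφ : DecS h h' m m' φ)
    {t' : MulAut (Fr n)} {t : MulAut G} (ht : LP h' m' t' t) : DecS h h' m m' (t * φ) := by
  obtain ⟨c, f', f, g', g, hf, hg, rfl⟩ := hφ
  refine ⟨t c, f', f, t' * g', t * g, hf, ht.mul hg, ?_⟩
  have h1 := conj_comm_G t c
  have h2 := LP_comm ha hb hmm hf ht
  calc t * (MulAut.conj c * f * g) = (t * MulAut.conj c) * f * g := by group
    _ = MulAut.conj (t c) * (t * f) * g := by rw [h1]; group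
    _ = _ := by rw [← h2]; group

variable (h) in
/-- The stabiliser of the separating curve bounding the first `m` handles. -/
def Ec (m : ℕ) : Subgroup (MulAut G) :=
  Subgroup.closure (Set.range (MulAut.conj : G → MulAut G) ∪
    {T | (∃ i, T = TA h i) ∨ (∃ i, T = TB h i) ∨
      ∃ (i j : Fin (n + 1)) (hij : (j : ℕ) = i + 1), (j : ℕ) ≠ m ∧ T = TC h i j hij})

variable (h h') in
include ha hb in
/-- The twists preserving the separating curve are supported on one of the sides. -/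
theorem gen_side {m m' : ℕ} (hm : m ≤ n) (hm' : m' ≤ n) (hmm : m + m' = n + 1) {T : MulAut G}
    (hT : (∃ i, T = TA h i) ∨ (∃ i, T = TB h i) ∨
      ∃ (i j : Fin (n + 1)) (hij : (j : ℕ) = i + 1), (j : ℕ) ≠ m ∧ T = TC h i j hij) :
    (∃ t', LP h m t' T) ∨ ∃ t', LP h' m' t' T := by
  have hrev : ∀ k : Fin (n + 1), ¬ (k : ℕ) < m → (k.rev : ℕ) < m' := by
    intro k hk
    have := k.2
    rw [Fin.val_rev]
    omega
  have hcs : ∀ k : Fin (n + 1), (k : ℕ) < n → ∃ i : Fin n, k = i.castSucc :=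
    fun k hk => ⟨⟨k, hk⟩, rfl⟩
  rcases hT with ⟨i, rfl⟩ | ⟨i, rfl⟩ | ⟨i, j, hij, hj, rfl⟩
  · by_cases hi : (i : ℕ) < m
    · left
      obtain ⟨i', rfl⟩ := hcs i (by omega)
      exact ⟨_, LP_TA h hi⟩
    · right
      have h1 := hrev i hi
      have h2 : TA h i = TB h' i.rev := by
        rw [TB_rev h h' ha hb, Fin.rev_rev]
      rw [h2]
      obtain ⟨i', hi'⟩ := hcs i.rev (by omega)
      rw [hi'] at h1 ⊢
      exact ⟨_, LP_TB h' h1⟩
  · by_cases hi : (i : ℕ) < m
    · left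
      obtain ⟨i', rfl⟩ := hcs i (by omega)
      exact ⟨_, LP_TB h hi⟩
    · right
      have h1 := hrev i hi
      have h2 : TB h i = TA h' i.rev := by
        rw [TA_rev h h' ha hb, Fin.rev_rev]
      rw [h2]
      obtain ⟨i', hi'⟩ := hcs i.rev (by omega)
      rw [hi'] at h1 ⊢
      exact ⟨_, LP_TA h' h1⟩
  · by_cases hjm : (j : ℕ) < m
    · left
      obtain ⟨j', rfl⟩ := hcs j (by omega)
      obtain ⟨i', rfl⟩ := hcs i (by omega)
      exact ⟨_, LP_TC h (i := i') (j := j') hij hjm⟩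
    · right
      have h1 := hrev i (by omega)
      have h2 : TC h i j hij = (TC h' j.rev i.rev (rev_hij hij))⁻¹ :=
        TC_rev h' h (rev_b hb) (rev_a ha) i j hij
      rw [h2]
      have h3 := rev_hij hij
      obtain ⟨i', hi'⟩ := hcs i.rev (by omega)
      obtain ⟨j', hj'⟩ := hcs j.rev (by omega)
      have h4 : (i' : ℕ) = j' + 1 := by
        have e1 : ((i'.castSucc : Fin (n + 1)) : ℕ) = i' := rfl
        have e2 : ((j'.castSucc : Fin (n + 1)) : ℕ) = j' := rfl
        rw [hi', hj', e1, e2] at h3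
        exact h3
      have h5 : (i' : ℕ) < m' := by
        rw [hi'] at h1
        exact h1
      have h6 : TC h' j.rev i.rev (rev_hij hij) = TCc h' h4 := by
        unfold TCc
        congr 1
      rw [h6]
      exact ⟨_, (LP_TC h' h4 h5).inv⟩

variable (h h') in
include ha hb in
theorem Ec_form {m m' : ℕ} (hm : m ≤ n) (hm' : m' ≤ n) (hmm : m + m' = n + 1) (φ : MulAut G)
    (hφ : φ ∈ Ec h m) : DecS h h' m m' φ := by
  refine Subgroup.closure_induction_left (p := fun φ _ => DecS h h' m m' φ) ?_ ?_ ?_ hφ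
  · exact ⟨1, 1, 1, 1, 1, LP.one h m, LP.one h' m', by simp⟩
  · rintro T (⟨x, rfl⟩ | hT) φ _ ih
    · exact DecS_conj ih x
    · rcases gen_side h h' ha hb hm hm' hmm hT with ⟨t', ht⟩ | ⟨t', ht⟩
      · exact DecS_L ih ht
      · exact DecS_R ha hb hmm ih ht
  · rintro T (⟨x, rfl⟩ | hT) φ _ ih
    · rw [← map_inv]
      exact DecS_conj ih x⁻¹
    · rcases gen_side h h' ha hb hm hm' hmm hT with ⟨t', ht⟩ | ⟨t', ht⟩
      · exact DecS_L ih ht.inv
      · exact DecS_R ha hb hmm ih ht.inv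

end sep

end Pool.MP_59b15d_al.H76R
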