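import Mathlib
import Pool.Agent.H.MP_59b15d_al.h76r.Rq
import Pool.Agent.H.MP_59b15d_al.h76r.Rx
import Pool.Agent.H.MP_59b15d_al.h76r.Rz

set_option autoImplicit false

namespace Pool.MP_59b15d_al.H76R

open Pool.MP_59b15d_al.H24T Pool.MP_59b15d_al.H76
open FreeGroup (of)

section sepmain

variable {n : ℕ} {G : Type*} [Group G] {a b a' b' : Fin (n + 1) → G}

theorem dG_rev' (h : IsSurf a b) (ha : ∀ i, a' i = b i.rev) (hb : ∀ i, b' i = a i.rev)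
    {m m' : ℕ} (hm : m ≤ n) (hm' : m' ≤ n) (hmm : m + m' = n + 1) :
    dG a' b' m' = dG a b m := by
  obtain ⟨l, rfl⟩ : ∃ l, m' = l + 1 := ⟨m' - 1, by omega⟩
  rw [dG_rev h ha hb l (by omega)]
  congr 1
  omega

/-- An automorphism of one side that is close to a power of the boundary twist is, after
multiplication by this power, close to the identity. -/
theorem LP_deep {h : IsSurf a b} {h' : IsSurf a' b'} (ha : ∀ i, a' i = b i.rev)
    (hb : ∀ i, b' i = a i.rev) {m m' : ℕ} (hm : m ≤ n) (hm' : m' ≤ n) (hmm : m + m' = n + 1)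
    (U : Subgroup (Fr n)) (hUn : U.Normal) (Γ₀ : Subgroup G) (h0n : Γ₀.Normal)
    (hU : ∀ z, jR a b z ∈ Γ₀ → z ∈ U) {f' : MulAut (Fr n)} {f : MulAut G} (hf : LP h m f' f)
    (j : ℤ) (hx : ∀ x ∈ GLo a b m,
      f x * (dG a b m ^ (-j) * x * (dG a b m ^ (-j))⁻¹)⁻¹ ∈ Γ₀) :
    ∀ z, (FD m hm ^ j * f') z * z⁻¹ ∈ U := by
  have hF := ((LP_DS h m hm).zpow j).mul hf
  have hD : ∀ x ∈ GLo a b m, (DS h m hm ^ j) x = dG a b m ^ j * x * (dG a b m ^ j)⁻¹ := by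
    intro x hx
    have h1 : (DS h' m' hm') x = x := (LP_DS h' m' hm').fix x (by
      rw [GHi_rev ha hb hmm]; exact hx)
    have h2 := DSpow (h := h) (h' := h') ha hb m m' hm hm' hmm j
    have h3 := DFunLike.congr_fun h2 x
    rw [MulAut.mul_apply, zpow_fix h1 j, MulAut.conj_apply] at h3
    exact h3
  have hlow : ∀ x ∈ GLo a b m, (DS h m hm ^ j * f) x * x⁻¹ ∈ Γ₀ := by
    intro x hx1
    rw [MulAut.mul_apply, hD _ (hf.lo x hx1)]
    have h1 := h0n.conj_mem _ (hx x hx1) (dG a b m ^ j)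
    have h2 : dG a b m ^ j * (f x * (dG a b m ^ (-j) * x * (dG a b m ^ (-j))⁻¹)⁻¹) *
        (dG a b m ^ j)⁻¹ = dG a b m ^ j * f x * (dG a b m ^ j)⁻¹ * x⁻¹ := by group
    rwa [h2] at h1
  let π : Fr n →* Fr n ⧸ U := QuotientGroup.mk' U
  have hπ : ∀ z, π z = 1 ↔ z ∈ U := fun z => QuotientGroup.eq_one_iff z
  have key : ∀ x : Fin n ⊕ Fin n, π ((FD m hm ^ j * f') (of x)) = π (of x) := by
    have hmem : ∀ z : Fr n, jR a b z ∈ GLo a b m → π ((FD m hm ^ j * f') z) = π z := by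
      intro z hz
      rw [← mul_inv_eq_one, ← map_inv, ← map_mul, hπ]
      apply hU
      rw [map_mul, map_inv, ← hF.pair.fj]
      exact hlow _ hz
    rintro (k | k)
    · by_cases hk : (k : ℕ) < m
      · exact hmem _ (by rw [jR_a]; exact a_GLo hk)
      · rw [(hF.ff k hk).1]
    · by_cases hk : (k : ℕ) < m
      · exact hmem _ (by rw [jR_b]; exact b_GLo hk)
      · rw [(hF.ff k hk).2]
  have h5 : π.comp (FD m hm ^ j * f').toMonoidHom = π := by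
    ext1 x
    exact key x
  intro z
  rw [← hπ, map_mul, map_inv, mul_inv_eq_one]
  exact DFunLike.congr_fun h5 z

/-- The theorem for the stabiliser of a separating curve. -/
theorem T2c (h : IsSurf a b) (m : ℕ) (hm0 : 0 < m) (hm : m ≤ n) (N : Subgroup (MulAut G))
    (hn : N.Normal) (hf : N.FiniteIndex) (hI : ∀ x : G, MulAut.conj x ∈ N) :
    ∃ Γ : Subgroup G, Γ.Characteristic ∧ Γ.FiniteIndex ∧ ∀ φ ∈ Ec h m, InnMod Γ φ →
      ∀ ψ ∈ MMs h, φ * ψ * φ⁻¹ * ψ⁻¹ ∈ N := by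
  have hGfg : Group.FG G := surf_fg h
  obtain ⟨a', b', h', ha, hb⟩ : ∃ a' b' : Fin (n + 1) → G, IsSurf a' b' ∧
      (∀ i, a' i = b i.rev) ∧ ∀ i, b' i = a i.rev :=
    ⟨_, _, isSurf_rev h, fun _ => rfl, fun _ => rfl⟩
  obtain ⟨m', hmm⟩ : ∃ m', m + m' = n + 1 := ⟨n + 1 - m, by omega⟩
  have hm' : m' ≤ n := by omega
  obtain ⟨U₁, hU₁c, hU₁f, hU₁⟩ := T1plus h N hn hf hI
  obtain ⟨U₂, hU₂c, hU₂f, hU₂⟩ := T1plus h' N hn hf hI
  have hU₁n : U₁.Normal := inferInstance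
  have hU₂n : U₂.Normal := inferInstance
  obtain ⟨Γ₃, h3n, h3f, h3, -⟩ := detect h U₁ hU₁n hU₁f
  obtain ⟨Γ₄, h4n, h4f, h4, -⟩ := detect h' U₂ hU₂n hU₂f
  have h34n : (Γ₃ ⊓ Γ₄).Normal := inferInstance
  have h34f : (Γ₃ ⊓ Γ₄).FiniteIndex := inferInstance
  obtain ⟨Γ₅, h5n, h5f, hcs⟩ := CSsep h m hm0 hm (Γ₃ ⊓ Γ₄) h34n h34f
  obtain ⟨Γ, hΓc, hΓf, hΓ⟩ := exists_char_le (Γ₅ ⊓ (Γ₃ ⊓ Γ₄)) inferInstance
  refine ⟨Γ, hΓc, hΓf, ?_⟩
  intro φ hφ hin ψ hψ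
  obtain ⟨c, f', f, g', g, hLf, hRg, rfl⟩ := Ec_form h h' ha hb hm hm' hmm φ hφ
  have e1 := GLo_rev ha hb hmm
  have e2 := GHi_rev ha hb hmm
  have hd := dG_rev' h ha hb hm hm' hmm
  have hin₀ : InnMod Γ (f * g) := by
    have h2 : MulAut.conj c⁻¹ ∈ congSub Γ hΓc := conj_innMod Γ _
    have h3 := (congSub Γ hΓc).mul_mem h2 hin
    rw [map_inv, mul_assoc (MulAut.conj c), inv_mul_cancel_left] at h3
    exact h3
  obtain ⟨w, hw⟩ := hin₀
  have hgfix : ∀ x ∈ GLo a b m, g x = x := fun x hx => hRg.fix x (by rw [e2]; exact hx)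
  have hghi : ∀ x ∈ GHi a b m, g x ∈ GHi a b m := fun x hx => by
    have := hRg.lo x (by rw [e1]; exact hx)
    rwa [e1] at this
  have hghi' : ∀ x ∈ GHi a b m, g⁻¹ x ∈ GHi a b m := fun x hx => by
    have := hRg.lo' x (by rw [e1]; exact hx)
    rwa [e1] at this
  obtain ⟨l, hl⟩ := hcs w (by
    intro y hy
    refine ⟨f⁻¹ y, hLf.lo' y hy, ?_⟩
    have h6 := (hΓ (hw (f⁻¹ y))).1
    rw [MulAut.mul_apply, hgfix _ (hLf.lo' y hy), MulAut.apply_inv_self] at h6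
    exact h6) (by
    intro y hy
    refine ⟨g⁻¹ y, hghi' y hy, ?_⟩
    have h6 := (hΓ (hw (g⁻¹ y))).1
    rw [MulAut.mul_apply, MulAut.apply_inv_self, hLf.fix y hy] at h6
    exact h6)
  have hw2 : ∀ x, (f * g) x * (dG a b m ^ (-l) * x * (dG a b m ^ (-l))⁻¹)⁻¹ ∈ Γ₃ ⊓ Γ₄ := by
    intro x
    let π : G →* G ⧸ (Γ₃ ⊓ Γ₄) := QuotientGroup.mk' (Γ₃ ⊓ Γ₄)
    have hπ : ∀ z, π z = 1 ↔ z ∈ Γ₃ ⊓ Γ₄ := fun z => QuotientGroup.eq_one_iff z
    have h3 := (hπ _).mpr (hΓ (hw x)).2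
    have h4 := (hπ _).mpr hl
    rw [map_mul, map_zpow, mul_eq_one_iff_eq_inv, ← zpow_neg] at h4
    rw [map_mul, map_inv, map_mul, map_mul, map_inv, h4] at h3
    rw [← hπ, map_mul, map_inv, map_mul, map_mul, map_inv, map_zpow]
    exact h3
  have d1 := LP_deep (h' := h') ha hb hm hm' hmm U₁ hU₁n Γ₃ h3n h3 hLf l (by
    intro x hx
    have h6 := (hw2 x).1
    rw [MulAut.mul_apply, hgfix x hx] at h6
    exact h6)
  have d2 := LP_deep (h := h') (h' := h) (rev_b hb) (rev_a ha) hm' hm (by omega) U₂ hU₂n Γ₄ h4n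
    h4 hRg l (by
    intro x hx
    rw [e1] at hx
    have h6 := (hw2 x).2
    rw [MulAut.mul_apply, hLf.fix _ (hghi x hx)] at h6
    rw [hd]
    exact h6)
  have c1 := hU₁ _ _ (((LP_DS h m hm).zpow l).mul hLf).pair d1 ψ hψ
  have c2 := hU₂ _ _ (((LP_DS h' m' hm').zpow l).mul hRg).pair d2 ψ
    (by rw [MMs_rev h h' ha hb]; exact hψ)
  have e3 : (DS h m hm ^ l * f) * (DS h' m' hm' ^ l * g) =
      MulAut.conj (dG a b m ^ l) * (f * g) := by
    have h6 := LP_comm ha hb hmm hLf ((LP_DS h' m' hm').zpow l)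
    rw [← DSpow (h := h) (h' := h') ha hb m m' hm hm' hmm l]
    calc (DS h m hm ^ l * f) * (DS h' m' hm' ^ l * g) =
        DS h m hm ^ l * (f * DS h' m' hm' ^ l) * g := by group
      _ = _ := by rw [h6]; group
  let q : MulAut G →* MulAut G ⧸ N := QuotientGroup.mk' N
  have hq : ∀ z, q z = 1 ↔ z ∈ N := fun z => QuotientGroup.eq_one_iff z
  have k1 : q (f * g) = q (DS h m hm ^ l * f) * q (DS h' m' hm' ^ l * g) := by
    have k0 : q (MulAut.conj (dG a b m ^ l)) = 1 := (hq _).mpr (hI _)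
    rw [← map_mul, e3, map_mul q (MulAut.conj (dG a b m ^ l)), k0, one_mul]
  have k2 : Commute (q (DS h m hm ^ l * f)) (q ψ) := by
    have h7 := (hq _).mpr c1
    rw [map_mul, map_mul, map_mul, map_inv, map_inv] at h7
    change _ = _
    rw [mul_inv_eq_one, mul_inv_eq_iff_eq_mul] at h7
    exact h7
  have k3 : Commute (q (DS h' m' hm' ^ l * g)) (q ψ) := by
    have h7 := (hq _).mpr c2
    rw [map_mul, map_mul, map_mul, map_inv, map_inv] at h7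
    change _ = _
    rw [mul_inv_eq_one, mul_inv_eq_iff_eq_mul] at h7
    exact h7
  have k4 : Commute (q (f * g)) (q ψ) := by
    rw [k1]
    exact k2.mul_left k3
  have k5 : q (MulAut.conj c * f * g) = q (f * g) := by
    rw [mul_assoc, map_mul, (hq _).mpr (hI c), one_mul]
  rw [← hq, map_mul, map_mul, map_mul, map_inv, map_inv, k5, k4.eq, mul_inv_cancel_right,
    mul_inv_cancel]

end sepmain

end Pool.MP_59b15d_al.H76R
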