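import Mathlib
import Pool.Agent.H.MP_59b15d_al.h76m.Hg

set_option autoImplicit false

namespace Pool.MP_59b15d_al.H76R

open Pool.MP_59b15d_al.H24T Pool.MP_59b15d_al.H76
open FreeGroup (of)

theorem CSa1 {g : ℕ} {G : Type*} [Group G] {a b : Fin g → G} (h : IsSurf a b) (i : Fin g)
    (Γ : Subgroup G) (hn : Γ.Normal) (hf : Γ.FiniteIndex) :
    ∃ Γ' : Subgroup G, Γ'.Normal ∧ Γ'.FiniteIndex ∧
      ∀ x : G, x * a i * x⁻¹ * (a i)⁻¹ ∈ Γ' →
        ∃ w : F2, x * (jj a b i w)⁻¹ ∈ Γ := by
  classical
  have hfin : Finite (G ⧸ Γ) := Subgroup.finite_quotient_of_finiteIndex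
  let B := G ⧸ Γ
  let q : G →* B := QuotientGroup.mk' Γ
  let m := Nat.card B
  have hm : 0 < m := Nat.card_pos
  let n := m * m + 1
  have : NeZero n := ⟨by positivity⟩
  let A := Multiplicative (ZMod n)
  let ζ : A := Multiplicative.ofAdd 1
  let α : B := q (a i)
  let β : B := q (b i)
  have hα : α ^ m = 1 := pow_card_eq_one'
  have hβ : β ^ m = 1 := pow_card_eq_one'
  let W := (B → A) ⋊[shift B A] B
  let s : Fin g → W := fun j => SemidirectProduct.inr (q (a j)) *
    (if j = i then SemidirectProduct.inl (nrm m β ζ) else 1)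
  let t : Fin g → W := fun j => SemidirectProduct.inr (q (b j))
  have hcomm : (SemidirectProduct.inr β : W) * SemidirectProduct.inl (nrm m β ζ) =
      SemidirectProduct.inl (nrm m β ζ) * SemidirectProduct.inr β := by
    have h1 := SemidirectProduct.inl_aut (φ := shift B A) β (nrm m β ζ)
    rw [shift_nrm m β hβ ζ, map_inv, eq_mul_inv_iff_mul_eq] at h1
    exact h1.symm
  obtain ⟨θ, hθ1, hθ2⟩ := h.lift s t (by
    have e : relWord s t = SemidirectProduct.inr (relWord (fun j => q (a j)) (fun j => q (b j))) := by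
      rw [map_relWord]
      unfold relWord
      congr 2
      funext j
      by_cases hj : j = i
      · subst hj
        simp only [s, t, if_true]
        have h2 : (SemidirectProduct.inl (nrm m β ζ) : W) * SemidirectProduct.inr (q (b j)) *
            (SemidirectProduct.inl (nrm m β ζ))⁻¹ = SemidirectProduct.inr (q (b j)) := by
          change (SemidirectProduct.inl (nrm m β ζ) : W) * SemidirectProduct.inr β *
            (SemidirectProduct.inl (nrm m β ζ))⁻¹ = SemidirectProduct.inr β
          rw [← hcomm, mul_inv_cancel_right]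
        calc (SemidirectProduct.inr (q (a j)) : W) * SemidirectProduct.inl (nrm m β ζ) *
              SemidirectProduct.inr (q (b j)) *
              (SemidirectProduct.inr (q (a j)) * SemidirectProduct.inl (nrm m β ζ))⁻¹ *
              (SemidirectProduct.inr (q (b j)))⁻¹ =
            SemidirectProduct.inr (q (a j)) *
              (SemidirectProduct.inl (nrm m β ζ) * SemidirectProduct.inr (q (b j)) *
                (SemidirectProduct.inl (nrm m β ζ))⁻¹) * (SemidirectProduct.inr (q (a j)))⁻¹ *
              (SemidirectProduct.inr (q (b j)))⁻¹ := by group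
          _ = _ := by rw [h2]
      · simp [s, t, hj]
    rw [e, ← map_relWord, h.relWord_eq, map_one, map_one])
  refine ⟨θ.ker, inferInstance, ?_, ?_⟩
  · have : Finite W := Finite.of_equiv _ SemidirectProduct.equivProd.symm
    exact Subgroup.finiteIndex_ker θ
  · intro x hx
    have hr : ∀ y : G, (θ y).right = q y := by
      intro y
      have h1 : (SemidirectProduct.rightHom : W →* B).comp θ = q := by
        apply hom_ext_surf h
        intro j w
        refine hom_ext_F2 (f := ((SemidirectProduct.rightHom : W →* B).comp θ).comp (jj a b j))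
          (f' := q.comp (jj a b j)) ?_ ?_ w
        · simp only [MonoidHom.comp_apply, jj_0, hθ1, s]
          rw [map_mul, SemidirectProduct.rightHom_inr]
          by_cases hj : j = i
          · rw [if_pos hj, SemidirectProduct.rightHom_inl, mul_one]
          · rw [if_neg hj, map_one, mul_one]
        · simp only [MonoidHom.comp_apply, jj_1, hθ2, t]
          exact SemidirectProduct.rightHom_inr _
      exact DFunLike.congr_fun h1 y
    let F : B → A := ∏ j ∈ Finset.range m, shift B A (α ^ (j + 1)) (nrm m β ζ)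
    have hb : θ (a i ^ m) = SemidirectProduct.inl F := by
      rw [map_pow, hθ1]
      simp only [s, if_true]
      rw [pow_form]
      change SemidirectProduct.inl F * SemidirectProduct.inr (α ^ m) = SemidirectProduct.inl F
      rw [hα, map_one, mul_one]
    have h1 : θ (x * a i ^ m * x⁻¹ * (a i ^ m)⁻¹) = 1 := by
      rw [MonoidHom.mem_ker, map_mul, map_mul, map_mul, map_inv, map_inv, mul_inv_eq_one] at hx
      rw [map_mul, map_mul, map_mul, map_inv, map_inv, map_pow, mul_inv_eq_one]
      have h2 := conj_pow (i := m) (a := θ x) (b := θ (a i))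
      rw [← h2, hx]
    rw [map_mul, map_mul, map_mul, map_inv, map_inv, hb, mul_inv_eq_one,
      mul_inv_eq_iff_eq_mul] at h1
    have h2 := congrArg SemidirectProduct.left h1
    rw [SemidirectProduct.mul_left, SemidirectProduct.mul_left, SemidirectProduct.left_inl,
      SemidirectProduct.right_inl, map_one, MulAut.one_apply, mul_comm] at h2
    have h3 := mul_right_cancel h2
    rw [hr] at h3
    have h4 := congrFun h3 (q x)
    rw [shift_apply, inv_mul_cancel] at h4
    have hF : ∀ y, F y = ζ ^ (((Finset.range m) ×ˢ (Finset.range m)).filter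
        (fun p => α ^ (p.1 + 1) * β ^ p.2 = y)).card := count_form m β α ζ
    have hone : F 1 ≠ 1 := by
      rw [hF]
      intro h5
      have h6 : ((((Finset.range m) ×ˢ (Finset.range m)).filter
        (fun p => α ^ (p.1 + 1) * β ^ p.2 = 1)).card : ZMod n) = 0 := by
        have h6' : (((Finset.range m) ×ˢ (Finset.range m)).filter
          (fun p => α ^ (p.1 + 1) * β ^ p.2 = 1)).card • (1 : ZMod n) = 0 :=
          congrArg Multiplicative.toAdd h5
        rwa [nsmul_one] at h6'
      rw [ZMod.natCast_eq_zero_iff] at h6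
      have h7 : (((Finset.range m) ×ˢ (Finset.range m)).filter
        (fun p => α ^ (p.1 + 1) * β ^ p.2 = 1)).card ≤ m * m := by
        refine (Finset.card_filter_le _ _).trans ?_
        simp
      have h8 : 0 < (((Finset.range m) ×ˢ (Finset.range m)).filter
        (fun p => α ^ (p.1 + 1) * β ^ p.2 = 1)).card := by
        apply Finset.card_pos.mpr
        refine ⟨(m - 1, 0), ?_⟩
        rw [Finset.mem_filter, Finset.mem_product, Finset.mem_range, Finset.mem_range]
        refine ⟨⟨by omega, hm⟩, ?_⟩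
        have : m - 1 + 1 = m := by omega
        simp only [this, hα, pow_zero, mul_one]
      have := Nat.le_of_dvd h8 h6
      omega
    rw [h4, hF] at hone
    have hne : (((Finset.range m) ×ˢ (Finset.range m)).filter
        (fun p => α ^ (p.1 + 1) * β ^ p.2 = q x)).Nonempty := by
      rw [← Finset.card_pos]
      rcases Nat.eq_zero_or_pos ((((Finset.range m) ×ˢ (Finset.range m)).filter
        (fun p => α ^ (p.1 + 1) * β ^ p.2 = q x)).card) with h5 | h5
      · exact absurd (by rw [h5, pow_zero]) hone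
      · exact h5
    obtain ⟨⟨k, l⟩, hkl⟩ := hne
    rw [Finset.mem_filter] at hkl
    have hkl2 : α ^ (k + 1) * β ^ l = q x := hkl.2
    refine ⟨of 0 ^ (k + 1) * of 1 ^ l, ?_⟩
    rw [← QuotientGroup.eq_one_iff]
    change q (x * (jj a b i (of 0 ^ (k + 1) * of 1 ^ l))⁻¹) = 1
    rw [map_mul, map_inv, map_mul, map_pow, map_pow, jj_0, jj_1, map_mul, map_pow, map_pow, ← hkl2]
    exact mul_inv_cancel _

/-- The centraliser of a generator modulo a deep subgroup of finite index. -/
theorem CSa2 {g : ℕ} {G : Type*} [Group G] {a b : Fin g → G} (h : IsSurf a b) (i k : Fin g)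
    (hik : i ≠ k) (Γ : Subgroup G) (hn : Γ.Normal) (hf : Γ.FiniteIndex) :
    ∃ Γ' : Subgroup G, Γ'.Normal ∧ Γ'.FiniteIndex ∧
      ∀ x : G, x * a i * x⁻¹ * (a i)⁻¹ ∈ Γ' → ∃ l : ℤ, x * (a i) ^ l ∈ Γ := by
  obtain ⟨r, hr, -⟩ := exists_retr h i k hik
  have hM1 : (Γ.comap (jj a b i)).Normal := inferInstance
  have hM2 : (Γ.comap (jj a b i)).FiniteIndex := comap_fi _ hf
  obtain ⟨M', hMn, hMf, hMle, hM⟩ := free_cs (0 : Fin 2) (Γ.comap (jj a b i))
  have h1 : (M'.comap r).FiniteIndex := comap_fi _ hMf
  have h2 : (M'.comap r).Normal := inferInstance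
  have h3 : (Γ ⊓ M'.comap r).Normal := inferInstance
  have h4 : (Γ ⊓ M'.comap r).FiniteIndex := inferInstance
  obtain ⟨Γ₂, hn2, hf2, hΓ2⟩ := CSa1 h i _ h3 h4
  refine ⟨Γ₂ ⊓ (Γ ⊓ M'.comap r), inferInstance, inferInstance, ?_⟩
  intro x hx
  obtain ⟨w, hw⟩ := hΓ2 x hx.1
  have key : w * of 0 * w⁻¹ * (of 0)⁻¹ ∈ M' := by
    let π : G →* G ⧸ (Γ ⊓ M'.comap r) := QuotientGroup.mk' _
    have hπ : ∀ z, π z = 1 ↔ z ∈ Γ ⊓ M'.comap r := fun z => QuotientGroup.eq_one_iff z
    have e1 : π x = π (jj a b i w) := by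
      have := (hπ _).mpr hw
      rw [map_mul, map_inv, mul_inv_eq_one] at this
      exact this
    have e2 := (hπ _).mpr hx.2
    rw [map_mul, map_mul, map_mul, map_inv, map_inv, e1] at e2
    have e3 : π (jj a b i (w * of 0 * w⁻¹ * (of 0)⁻¹)) = 1 := by
      simp only [map_mul, map_inv, jj_0]
      exact e2
    have e4 : r (jj a b i (w * of 0 * w⁻¹ * (of 0)⁻¹)) ∈ M' := ((hπ _).mp e3).2
    rwa [hr] at e4
  obtain ⟨l, hl⟩ := hM w key
  refine ⟨l, ?_⟩
  have h5 : jj a b i (w * of 0 ^ l) ∈ Γ := hl
  rw [map_mul, map_zpow, jj_0] at h5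
  have h6 := Γ.mul_mem hw.1 h5
  rwa [← mul_assoc, inv_mul_cancel_right] at h6

end Pool.MP_59b15d_al.H76R
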