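import Mathlib
import Pool.Agent.H.MP_59b15d_al.h76r.Rn
import Pool.Agent.H.MP_59b15d_al.h76r.Rq

set_option autoImplicit false

namespace Pool.MP_59b15d_al.H76R

open Pool.MP_59b15d_al.H24T Pool.MP_59b15d_al.H76
open FreeGroup (of)

section ttwo

variable {n : ℕ} {G : Type*} [Group G] {a b : Fin (n + 1) → G} (h : IsSurf a b)

/-- Compositions of an inner automorphism, a push, a twist and an automorphism of the first
handles. -/
def Dec (φ : MulAut G) : Prop :=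
  ∃ (c : G) (y : Fr n) (k : ℤ) (f' : MulAut (Fr n)) (f : MulAut G), Pair h f' f ∧
    φ = MulAut.conj c * XX h y * TT h ^ k * f

theorem Dec_conj {φ : MulAut G} (hφ : Dec h φ) (x : G) : Dec h (MulAut.conj x * φ) := by
  obtain ⟨c, y, k, f', f, hf, rfl⟩ := hφ
  exact ⟨x * c, y, k, f', f, hf, by rw [map_mul]; group⟩

theorem Dec_XX {φ : MulAut G} (hφ : Dec h φ) (x : Fr n) : Dec h (XX h x * φ) := by
  obtain ⟨c, y, k, f', f, hf, rfl⟩ := hφ
  refine ⟨XX h x c, x * y, k, f', f, hf, ?_⟩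
  have h1 := conj_comm_G (XX h x) c
  calc XX h x * (MulAut.conj c * XX h y * TT h ^ k * f) =
      (XX h x * MulAut.conj c) * XX h y * TT h ^ k * f := by group
    _ = _ := by rw [h1, map_mul]; group

theorem Dec_TT {φ : MulAut G} (hφ : Dec h φ) (l : ℤ) : Dec h (TT h ^ l * φ) := by
  obtain ⟨c, y, k, f', f, hf, rfl⟩ := hφ
  refine ⟨(TT h ^ l) c, y, l + k, f', f, hf, ?_⟩
  have h1 := conj_comm_G (TT h ^ l) c
  have h2 := ((TT_XX h y).zpow_left l).eq
  calc TT h ^ l * (MulAut.conj c * XX h y * TT h ^ k * f) =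
      (TT h ^ l * MulAut.conj c) * XX h y * TT h ^ k * f := by group
    _ = MulAut.conj ((TT h ^ l) c) * (TT h ^ l * XX h y) * TT h ^ k * f := by rw [h1]; group
    _ = _ := by rw [h2, zpow_add]; group

theorem Dec_pair {φ : MulAut G} (hφ : Dec h φ) {t' : MulAut (Fr n)} {t : MulAut G}
    (ht : Pair h t' t) : Dec h (t * φ) := by
  obtain ⟨c, y, k, f', f, hf, rfl⟩ := hφ
  obtain ⟨l, hl⟩ := ht.fX y
  refine ⟨t c, t' y, l + k, t' * f', t * f, ht.mul hf, ?_⟩
  have h1 := conj_comm_G t c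
  have h2 := ((comm_TT h ht.fj ht.fa ht.fb).zpow_right k).eq
  calc t * (MulAut.conj c * XX h y * TT h ^ k * f) =
      (t * MulAut.conj c) * XX h y * TT h ^ k * f := by group
    _ = MulAut.conj (t c) * (t * XX h y * t⁻¹) * (t * TT h ^ k) * f := by rw [h1]; group
    _ = _ := by rw [hl, h2, zpow_add]; group

/-- The stabiliser of the curve `a` of the last handle. -/
def Ea : Subgroup (MulAut G) :=
  Subgroup.closure (Set.range (MulAut.conj : G → MulAut G) ∪
    {T | (∃ i, T = TA h i) ∨ (∃ i : Fin n, T = TB h i.castSucc) ∨ ∃ i j hij, T = TC h i j hij})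

theorem Ea_form (φ : MulAut G) (hφ : φ ∈ Ea h) : Dec h φ := by
  have hlast : ∀ (j : Fin n) (hj : ((Fin.last n : Fin (n + 1)) : ℕ) = j.castSucc + 1),
      TC h j.castSucc (Fin.last n) hj = XX h (of (Sum.inr j)) * TB h j.castSucc := by
    intro j hj
    rw [XX_b, X0_eq h j hj]
  have hidx : ∀ i j : Fin (n + 1), (j : ℕ) = i + 1 → ∃ i' : Fin n, i = i'.castSucc := by
    intro i j hij
    have hi : (i : ℕ) < n := by
      have := j.2
      omega
    exact ⟨⟨i, hi⟩, rfl⟩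
  refine Subgroup.closure_induction_left (p := fun φ _ => Dec h φ) ?_ ?_ ?_ hφ
  · exact ⟨1, 1, 0, 1, 1, Pair.one h, by simp⟩
  · rintro T (⟨x, rfl⟩ | ⟨i, rfl⟩ | ⟨i, rfl⟩ | ⟨i, j, hij, rfl⟩) φ _ ih
    · exact Dec_conj h ih x
    · rcases Fin.eq_castSucc_or_eq_last i with ⟨i', rfl⟩ | rfl
      · exact Dec_pair h ih (pair_TA h i')
      · have := Dec_TT h ih 1
        rwa [zpow_one] at this
    · exact Dec_pair h ih (pair_TB h i)
    · obtain ⟨i', rfl⟩ := hidx i j hij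
      rcases Fin.eq_castSucc_or_eq_last j with ⟨j', rfl⟩ | rfl
      · exact Dec_pair h ih (pair_TC h (i := i') (j := j') hij)
      · rw [hlast i' hij, mul_assoc]
        exact Dec_XX h (Dec_pair h ih (pair_TB h i')) _
  · rintro T (⟨x, rfl⟩ | ⟨i, rfl⟩ | ⟨i, rfl⟩ | ⟨i, j, hij, rfl⟩) φ _ ih
    · rw [← map_inv]
      exact Dec_conj h ih x⁻¹
    · rcases Fin.eq_castSucc_or_eq_last i with ⟨i', rfl⟩ | rfl
      · exact Dec_pair h ih (pair_TA h i').inv
      · have := Dec_TT h ih (-1)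
        rwa [zpow_neg_one] at this
    · exact Dec_pair h ih (pair_TB h i).inv
    · obtain ⟨i', rfl⟩ := hidx i j hij
      rcases Fin.eq_castSucc_or_eq_last j with ⟨j', rfl⟩ | rfl
      · exact Dec_pair h ih (pair_TC h (i := i') (j := j') hij).inv
      · rw [hlast i' hij, mul_inv_rev, mul_assoc, ← map_inv]
        exact Dec_pair h (Dec_XX h ih _) (pair_TB h i').inv

/-- Automorphisms of the first handles that are trivial modulo a deep subgroup are trivial modulo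
a given one. -/
theorem pair_congSub {f' : MulAut (Fr n)} {f : MulAut G} (hp : Pair h f' f) {Γ₁ : Subgroup G}
    (h1c : Γ₁.Characteristic) (hz : ∀ z, jR a b (f' z * z⁻¹) ∈ Γ₁) : f ∈ congSub Γ₁ h1c := by
  rw [mem_congSub]
  refine ⟨1, ?_⟩
  have h4 : ∀ x, f x * x⁻¹ ∈ Γ₁ := by
    let π : G →* G ⧸ Γ₁ := QuotientGroup.mk' Γ₁
    have hπ : ∀ z, π z = 1 ↔ z ∈ Γ₁ := fun z => QuotientGroup.eq_one_iff z
    have h5 : π.comp f.toMonoidHom = π := by
      apply hom_ext h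
      · intro i
        refine Fin.lastCases ?_ (fun i => ?_) i
        · change π (f _) = _
          rw [hp.fa]
        · change π (f (a i.castSucc)) = π (a i.castSucc)
          rw [← jR_a (a := a) (b := b), hp.fj, ← mul_inv_eq_one, ← map_inv, ← map_mul, hπ,
            ← map_inv, ← map_mul]
          exact hz _
      · intro i
        refine Fin.lastCases ?_ (fun i => ?_) i
        · change π (f _) = _
          rw [hp.fb]
        · change π (f (b i.castSucc)) = π (b i.castSucc)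
          rw [← jR_b (a := a) (b := b), hp.fj, ← mul_inv_eq_one, ← map_inv, ← map_mul, hπ,
            ← map_inv, ← map_mul]
          exact hz _
    intro x
    rw [← hπ, map_mul, map_inv, mul_inv_eq_one]
    exact DFunLike.congr_fun h5 x
  intro x
  rw [one_mul, inv_one, mul_one]
  exact h4 x

include h in
/-- The centraliser of the other side of the last handle. -/
theorem CS_aP (hn0 : 0 < n) (Γ : Subgroup G) (hn : Γ.Normal) (hf : Γ.FiniteIndex) :
    ∃ Γ' : Subgroup G, Γ'.Normal ∧ Γ'.FiniteIndex ∧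
      ∀ x : G, x * aP a b * x⁻¹ * (aP a b)⁻¹ ∈ Γ' → ∃ l : ℤ, x * (aP a b) ^ l ∈ Γ := by
  obtain ⟨Γ', h1, h2, h3⟩ := CSa2 h (Fin.last n) (⟨0, by omega⟩ : Fin (n + 1)) (by
    intro h1
    have := congrArg Fin.val h1
    simp only [Fin.val_last] at this
    omega) Γ hn hf
  refine ⟨Γ', h1, h2, fun x hx => ?_⟩
  obtain ⟨l, hl⟩ := h3 ((b (Fin.last n))⁻¹ * x * b (Fin.last n)) (by
    have h4 := h1.conj_mem _ hx (b (Fin.last n))⁻¹
    have h5 : (b (Fin.last n))⁻¹ * (x * aP a b * x⁻¹ * (aP a b)⁻¹) * (b (Fin.last n))⁻¹⁻¹ =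
        (b (Fin.last n))⁻¹ * x * b (Fin.last n) * a (Fin.last n) *
        ((b (Fin.last n))⁻¹ * x * b (Fin.last n))⁻¹ * (a (Fin.last n))⁻¹ := by
      rw [aP]; group
    rwa [h5] at h4)
  refine ⟨l, ?_⟩
  have h6 := hn.conj_mem _ hl (b (Fin.last n))
  have h7 : b (Fin.last n) * ((b (Fin.last n))⁻¹ * x * b (Fin.last n) * a (Fin.last n) ^ l) *
      (b (Fin.last n))⁻¹ = x * aP a b ^ l := by
    rw [aP, conj_zpow]; group
  rwa [h7] at h6

/-- The theorem for the stabiliser of the curve `a` of the last handle. -/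
theorem T2a (hn0 : 0 < n) (N : Subgroup (MulAut G)) (hn : N.Normal) (hf : N.FiniteIndex)
    (hI : ∀ x : G, MulAut.conj x ∈ N) :
    ∃ Γ : Subgroup G, Γ.Characteristic ∧ Γ.FiniteIndex ∧ ∀ φ ∈ Ea h, InnMod Γ φ →
      ∀ ψ ∈ MMs h, φ * ψ * φ⁻¹ * ψ⁻¹ ∈ N := by
  have hGfg : Group.FG G := surf_fg h
  obtain ⟨U₀, hU₀c, hU₀f, hU₀⟩ := T1plus h N hn hf hI
  obtain ⟨e, he, hN⟩ := exists_pow_mem N
  obtain ⟨Γ₁, h1c, h1f, h1⟩ := exists_det h e he
  have hcn := congSub_normal h1c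
  have hcf := congSub_finiteIndex h1c h1f
  have hN1n : (N ⊓ congSub Γ₁ h1c).Normal := inferInstance
  have hN1f : (N ⊓ congSub Γ₁ h1c).FiniteIndex := inferInstance
  have hU1 : ((N ⊓ congSub Γ₁ h1c).comap (XX h)).FiniteIndex := comap_fi _ hN1f
  have hU2 : (Γ₁.comap (jR a b)).FiniteIndex := comap_fi _ h1f
  obtain ⟨U, hUc, hUf, hU⟩ := exists_char_le
    (U₀ ⊓ ((N ⊓ congSub Γ₁ h1c).comap (XX h) ⊓ Γ₁.comap (jR a b))) inferInstance
  have hUn : U.Normal := inferInstance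
  obtain ⟨Γ₀, h0n, h0f, -, hdet⟩ := detect h U hUn hUf
  obtain ⟨Γ₂, h2n, h2f, hcs⟩ := CS_aP h hn0 Γ₀ h0n h0f
  obtain ⟨Γ, hΓc, hΓf, hΓ⟩ := exists_char_le (Γ₂ ⊓ (Γ₀ ⊓ Γ₁)) inferInstance
  obtain ⟨D, m, hD, hXD⟩ := exists_DT h
  refine ⟨Γ, hΓc, hΓf, ?_⟩
  intro φ hφ hin ψ hψ
  obtain ⟨c, y, k, f', f, hp, rfl⟩ := Ea_form h φ hφ
  -- remove the inner automorphism
  set φ₀ : MulAut G := XX h y * TT h ^ k * f with hφ₀
  have hφc : MulAut.conj c * XX h y * TT h ^ k * f = MulAut.conj c * φ₀ := by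
    rw [hφ₀]; group
  rw [hφc] at hin ⊢
  have hin₀ : InnMod Γ φ₀ := by
    have h2 : MulAut.conj c⁻¹ ∈ congSub Γ hΓc := conj_innMod Γ _
    have h3 := (congSub Γ hΓc).mul_mem h2 hin
    rw [map_inv, inv_mul_cancel_left] at h3
    exact h3
  obtain ⟨w, hw⟩ := hin₀
  -- the conjugating element is a power of the boundary
  have hfa : φ₀ (aP a b) = aP a b := by
    rw [hφ₀, MulAut.mul_apply, MulAut.mul_apply]
    have h3 : f (aP a b) = aP a b := by
      rw [aP, map_mul, map_mul, map_inv, hp.fa, hp.fb]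
    rw [h3, TT_aP, XX_aP]
  have hw1 : w * aP a b * w⁻¹ * (aP a b)⁻¹ ∈ Γ₂ := by
    have h3 := (hΓ (hw (aP a b))).1
    rw [hfa] at h3
    have h4 := Γ₂.inv_mem h3
    rw [mul_inv_rev, inv_inv] at h4
    exact h4
  obtain ⟨l, hl⟩ := hcs w hw1
  -- replace the conjugating element
  have hw2 : ∀ x, φ₀ x * (aP a b ^ (-l) * x * (aP a b ^ (-l))⁻¹)⁻¹ ∈ Γ₀ := by
    intro x
    let π : G →* G ⧸ Γ₀ := QuotientGroup.mk' Γ₀
    have hπ : ∀ z, π z = 1 ↔ z ∈ Γ₀ := fun z => QuotientGroup.eq_one_iff z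
    have h3 := (hπ _).mpr (hΓ (hw x)).2.1
    have h4 := (hπ _).mpr hl
    rw [map_mul, map_zpow, mul_eq_one_iff_eq_inv, ← zpow_neg] at h4
    rw [map_mul, map_inv, map_mul, map_mul, map_inv, h4] at h3
    rw [← hπ, map_mul, map_inv, map_mul, map_mul, map_inv, map_zpow]
    exact h3
  obtain ⟨hd1, hd2⟩ := hdet y k (-l) f' f hp.fj hp.fb hw2
  -- the remaining automorphism of the first handles
  have hDl : ∀ j : ℤ, Pair h ((MulAut.conj (dl n)) ^ j) (D ^ j) := by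
    intro j
    induction j using Int.induction_on with
    | zero => rw [zpow_zero, zpow_zero]; exact Pair.one h
    | succ j ih => rw [zpow_add_one, zpow_add_one]; exact ih.mul hD
    | pred j ih => rw [zpow_sub_one, zpow_sub_one]; exact ih.mul hD.inv
  have hp2 : Pair h ((MulAut.conj (dl n)) ^ l * f') (D ^ l * f) := (hDl l).mul hp
  have hp2U : ∀ z : Fr n, ((MulAut.conj (dl n)) ^ l * f' : MulAut (Fr n)) z * z⁻¹ ∈ U := by
    intro z
    have h3 := hUn.conj_mem _ (hd1 z) (dl n ^ l)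
    rw [MulAut.mul_apply, ← map_zpow, MulAut.conj_apply]
    have h4 : dl n ^ l * (f' z * (dl n ^ (-l) * z * (dl n ^ (-l))⁻¹)⁻¹) * (dl n ^ l)⁻¹ =
        dl n ^ l * f' z * (dl n ^ l)⁻¹ * z⁻¹ := by
      group
    rwa [h4] at h3
  have hcen : D ^ l * f * ψ * (D ^ l * f)⁻¹ * ψ⁻¹ ∈ N :=
    hU₀ _ _ hp2 (fun z => (hU (hp2U z)).1) ψ hψ
  -- comparison in the quotient
  let q : MulAut G →* MulAut G ⧸ N := QuotientGroup.mk' N
  have hq : ∀ z, q z = 1 ↔ z ∈ N := fun z => QuotientGroup.eq_one_iff z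
  let q1 : MulAut G →* MulAut G ⧸ congSub Γ₁ h1c := QuotientGroup.mk' _
  have hq1 : ∀ z, q1 z = 1 ↔ z ∈ congSub Γ₁ h1c := fun z => QuotientGroup.eq_one_iff z
  have hyl : XX h y = XX h (y * dl n ^ (-l)) * (XX h (dl n)) ^ l := by
    rw [map_mul, map_zpow, zpow_neg, inv_mul_cancel_right]
  have hu := (hU hd2).2.1
  -- a general computation modulo a normal subgroup containing the inner automorphisms
  have hgen : ∀ {Q : Type _} [Group Q] (p : MulAut G →* Q), (∀ x, p (MulAut.conj x) = 1) →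
      p (XX h (y * dl n ^ (-l))) = 1 →
      p φ₀ = p (TT h) ^ (m * l + k) * p (D ^ l * f) := by
    intro Q _ p hp1 hp2'
    have h3 : p (XX h (dl n)) = p D * p (TT h) ^ m := by
      rw [hXD, map_mul, map_mul, hp1, one_mul, map_zpow]
    have h4 : Commute (p D) (p (TT h)) := by
      have := comm_TT h hD.fj hD.fa hD.fb
      exact this.map p
    have h5 : p (XX h (dl n)) ^ l = p (TT h) ^ (m * l) * p D ^ l := by
      rw [h3, (h4.zpow_right m).mul_zpow, ← zpow_mul]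
      exact (h4.zpow_zpow l (m * l)).eq
    have h6 : Commute (p D ^ l) (p (TT h) ^ k) := h4.zpow_zpow l k
    rw [hφ₀, map_mul, map_mul, hyl, map_mul, hp2', one_mul, map_zpow, map_zpow, h5,
      map_mul, map_zpow, zpow_add]
    calc p (TT h) ^ (m * l) * p D ^ l * p (TT h) ^ k * p f =
        p (TT h) ^ (m * l) * (p D ^ l * p (TT h) ^ k) * p f := by group
      _ = _ := by rw [h6.eq]; group
  have hg1 := hgen q1 (fun x => (hq1 _).mpr (conj_innMod Γ₁ x)) ((hq1 _).mpr hu.2)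
  have hTm : TT h ^ (m * l + k) ∈ congSub Γ₁ h1c := by
    have h3 : q1 φ₀ = 1 := (hq1 _).mpr (innMod_mono (fun x hx => (hΓ hx).2.2) ⟨w, hw⟩)
    have h4 : q1 (D ^ l * f) = 1 :=
      (hq1 _).mpr (pair_congSub h hp2 h1c (fun z => (hU (hp2U z)).2.2))
    rw [h3, h4, mul_one] at hg1
    rw [← hq1, map_zpow, ← hg1]
  have hTN : q (TT h) ^ (m * l + k) = 1 := by
    rw [← map_zpow, hq]
    exact zpow_mem_of_dvd (hN (TT h)) (h1 _ hTm)
  have hg := hgen q (fun x => (hq _).mpr (hI x)) ((hq _).mpr hu.1)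
  rw [hTN, one_mul] at hg
  rw [← hq, map_mul, map_mul, map_mul, map_inv, map_inv, map_mul, (hq _).mpr (hI c), one_mul, hg]
  have h7 := (hq _).mpr hcen
  rw [map_mul, map_mul, map_mul, map_inv, map_inv] at h7
  exact h7

end ttwo

end Pool.MP_59b15d_al.H76R
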