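import Mathlib
import Pool.Agent.H.MP_59b15d_al.h76r.Ry

set_option autoImplicit false

namespace Pool.MP_59b15d_al.H76R

open Pool.MP_59b15d_al.H24T Pool.MP_59b15d_al.H76
open FreeGroup (of)

section sub

variable {n : ℕ} {G : Type*} [Group G] {a b : Fin (n + 1) → G} (h : IsSurf a b)

/-- The mapping class group of the subsurface of the first `m` handles. -/
def MR (m : ℕ) : Subgroup (MulAut G) :=
  Subgroup.closure {T | (∃ i : Fin (n + 1), (i : ℕ) < m ∧ T = TA h i) ∨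
    (∃ i : Fin (n + 1), (i : ℕ) < m ∧ T = TB h i) ∨
    ∃ (i j : Fin (n + 1)) (hij : (j : ℕ) = i + 1), (j : ℕ) < m ∧ T = TC h i j hij}

/-- Automorphisms supported on the first `m` handles, with the action on the free subgroup. -/
def LQ (m : ℕ) (f' : MulAut (Fr n)) (f : MulAut G) : Prop :=
  LP h m f' f ∧ (∀ z ∈ FL n m, f' z ∈ FL n m) ∧ ∀ z ∈ FL n m, f'⁻¹ z ∈ FL n m

theorem inv_eq {H : Type*} [Group H] {f : MulAut H} {x y : H} (hxy : f y = x) : f⁻¹ x = y := by
  rw [← hxy, MulAut.inv_apply_self]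

theorem map_FL {m : ℕ} {f' : MulAut (Fr n)}
    (h1 : ∀ k : Fin n, (k : ℕ) < m → f' (of (Sum.inl k)) ∈ FL n m ∧
      f' (of (Sum.inr k)) ∈ FL n m) : ∀ z ∈ FL n m, f' z ∈ FL n m := by
  intro x hx
  have h2 : FL n m ≤ (FL n m).comap f'.toMonoidHom := by
    rw [FL, Subgroup.closure_le]
    rintro z ⟨k, hk, rfl | rfl⟩
    · exact (h1 k hk).1
    · exact (h1 k hk).2
  exact h2 hx

theorem mkA_inv_of {ι : Type*} (f g : ι → FreeGroup ι) (h1 : ∀ i, FreeGroup.lift f (g i) = of i)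
    (h2 : ∀ i, FreeGroup.lift g (f i) = of i) (i : ι) : (mkA f g h1 h2)⁻¹ (of i) = g i := by
  change FreeGroup.lift g (of i) = g i
  rw [FreeGroup.lift_apply_of]

theorem LQ_TA {m : ℕ} {i : Fin n} (hi : (i : ℕ) < m) : LQ h m (FA i) (TA h i.castSucc) := by
  refine ⟨LP_TA h hi, map_FL ?_, map_FL ?_⟩
  · intro k hk
    refine ⟨by rw [FA_ne i (by simp)]; exact a_FL hk, ?_⟩
    by_cases hki : k = i
    · subst hki
      rw [FA_self]
      exact Subgroup.mul_mem _ (b_FL hk) (a_FL hk)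
    · rw [FA_ne i (by simp [hki])]
      exact b_FL hk
  · intro k hk
    refine ⟨by rw [inv_fix (FA_ne i (by simp))]; exact a_FL hk, ?_⟩
    by_cases hki : k = i
    · subst hki
      rw [FA, mkA_inv_of, if_pos rfl]
      exact Subgroup.mul_mem _ (b_FL hk) (Subgroup.inv_mem _ (a_FL hk))
    · rw [inv_fix (FA_ne i (by simp [hki]))]
      exact b_FL hk

theorem LQ_TB {m : ℕ} {i : Fin n} (hi : (i : ℕ) < m) : LQ h m (FB i) (TB h i.castSucc) := by
  refine ⟨LP_TB h hi, map_FL ?_, map_FL ?_⟩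
  · intro k hk
    refine ⟨?_, by rw [FB_ne i (by simp)]; exact b_FL hk⟩
    by_cases hki : k = i
    · subst hki
      rw [FB_self]
      exact Subgroup.mul_mem _ (a_FL hk) (b_FL hk)
    · rw [FB_ne i (by simp [hki])]
      exact a_FL hk
  · intro k hk
    refine ⟨?_, by rw [inv_fix (FB_ne i (by simp))]; exact b_FL hk⟩
    by_cases hki : k = i
    · subst hki
      rw [FB, mkA_inv_of, if_pos rfl]
      exact Subgroup.mul_mem _ (a_FL hk) (Subgroup.inv_mem _ (b_FL hk))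
    · rw [inv_fix (FB_ne i (by simp [hki]))]
      exact a_FL hk

theorem LQ_TC {m : ℕ} {i j : Fin n} (hij : (j : ℕ) = i + 1) (hj : (j : ℕ) < m) :
    LQ h m (FC i j (ne_of_hij hij)) (TCc h hij) := by
  have hi : (i : ℕ) < m := by omega
  have hne := ne_of_hij hij
  have hu : (of (Sum.inl j))⁻¹ * of (Sum.inr i) ∈ FL n m :=
    Subgroup.mul_mem _ (Subgroup.inv_mem _ (a_FL hj)) (b_FL hi)
  have hFu : FC i j hne ((of (Sum.inl j))⁻¹ * of (Sum.inr i)) =
      (of (Sum.inl j))⁻¹ * of (Sum.inr i) := by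
    rw [map_mul, map_inv, FC_aj, FC_bi]
    group
  have hFu' := inv_fix hFu
  refine ⟨LP_TC h hij hj, map_FL ?_, map_FL ?_⟩
  · intro k hk
    by_cases hki : k = i
    · subst hki
      rw [FC_ai, FC_bi]
      exact ⟨Subgroup.mul_mem _ (a_FL hk) hu, Subgroup.mul_mem _ (Subgroup.mul_mem _
        (Subgroup.mul_mem _ (Subgroup.inv_mem _ hu) (a_FL hj)) hu) hu⟩
    · by_cases hkj : k = j
      · subst hkj
        rw [FC_aj, FC_bj]
        exact ⟨Subgroup.mul_mem _ (Subgroup.mul_mem _ (Subgroup.inv_mem _ hu) (a_FL hk)) hu,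
          Subgroup.mul_mem _ (b_FL hk) hu⟩
      · rw [FC_a_ne i j _ hki hkj, FC_b_ne i j _ hki hkj]
        exact ⟨a_FL hk, b_FL hk⟩
  · -- the inverse on generators
    have e1 : (FC i j hne)⁻¹ (of (Sum.inl i)) =
        of (Sum.inl i) * ((of (Sum.inl j))⁻¹ * of (Sum.inr i))⁻¹ := by
      apply inv_eq
      rw [map_mul, map_inv, hFu, FC_ai]
      group
    have e2 : (FC i j hne)⁻¹ (of (Sum.inl j)) =
        ((of (Sum.inl j))⁻¹ * of (Sum.inr i)) * of (Sum.inl j) *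
          ((of (Sum.inl j))⁻¹ * of (Sum.inr i))⁻¹ := by
      apply inv_eq
      rw [map_mul, map_mul, map_inv, hFu, FC_aj]
      group
    have e3 : (FC i j hne)⁻¹ (of (Sum.inr i)) =
        ((of (Sum.inl j))⁻¹ * of (Sum.inr i)) * of (Sum.inl j) := by
      apply inv_eq
      rw [map_mul, hFu, FC_aj]
      group
    have e4 : (FC i j hne)⁻¹ (of (Sum.inr j)) =
        of (Sum.inr j) * ((of (Sum.inl j))⁻¹ * of (Sum.inr i))⁻¹ := by
      apply inv_eq
      rw [map_mul, map_inv, hFu, FC_bj]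
      group
    intro k hk
    by_cases hki : k = i
    · subst hki
      rw [e1, e3]
      exact ⟨Subgroup.mul_mem _ (a_FL hk) (Subgroup.inv_mem _ hu), Subgroup.mul_mem _ hu
        (a_FL hj)⟩
    · by_cases hkj : k = j
      · subst hkj
        rw [e2, e4]
        exact ⟨Subgroup.mul_mem _ (Subgroup.mul_mem _ hu (a_FL hk)) (Subgroup.inv_mem _ hu),
          Subgroup.mul_mem _ (b_FL hk) (Subgroup.inv_mem _ hu)⟩
      · rw [inv_fix (FC_a_ne i j _ hki hkj), inv_fix (FC_b_ne i j _ hki hkj)]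
        exact ⟨a_FL hk, b_FL hk⟩

theorem MR_LQ {m : ℕ} (hm : m ≤ n) (f : MulAut G) (hf : f ∈ MR h m) : ∃ f', LQ h m f' f := by
  have hcs : ∀ k : Fin (n + 1), (k : ℕ) < n → ∃ i : Fin n, k = i.castSucc :=
    fun k hk => ⟨⟨k, hk⟩, rfl⟩
  refine Subgroup.closure_induction (p := fun f _ => ∃ f', LQ h m f' f) ?_ ?_ ?_ ?_ hf
  · rintro T (⟨i, hi, rfl⟩ | ⟨i, hi, rfl⟩ | ⟨i, j, hij, hj, rfl⟩)
    · obtain ⟨i', rfl⟩ := hcs i (by omega)
      exact ⟨_, LQ_TA h hi⟩
    · obtain ⟨i', rfl⟩ := hcs i (by omega)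
      exact ⟨_, LQ_TB h hi⟩
    · obtain ⟨j', rfl⟩ := hcs j (by omega)
      obtain ⟨i', rfl⟩ := hcs i (by omega)
      exact ⟨_, LQ_TC h (i := i') (j := j') hij hj⟩
  · exact ⟨1, LP.one h m, fun _ hz => hz, fun z hz => by rw [inv_one]; exact hz⟩
  · rintro x y _ _ ⟨x', hx1, hx2, hx3⟩ ⟨y', hy1, hy2, hy3⟩
    refine ⟨x' * y', hx1.mul hy1, fun z hz => ?_, fun z hz => ?_⟩
    · rw [MulAut.mul_apply]
      exact hx2 _ (hy2 _ hz)
    · rw [mul_inv_rev, MulAut.mul_apply]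
      exact hy3 _ (hx3 _ hz)
  · rintro x _ ⟨x', hx1, hx2, hx3⟩
    exact ⟨x'⁻¹, hx1.inv, hx3, fun z hz => by rw [inv_inv]; exact hx2 z hz⟩

/-- The pushes are products of twists. -/
theorem XX_mem (y : Fr n) : XX h y ∈ MMs h := by
  have hTT0 : TT h ∈ MMs h := Subgroup.subset_closure (Or.inr (Or.inl ⟨_, rfl⟩))
  have hTT : ∀ k : ℤ, TT h ^ k ∈ MMs h := fun k => Subgroup.zpow_mem _ hTT0 _
  let S : Subgroup (Fr n) := (MMs h).comap (XX h)
  have hS : ∀ {f' : MulAut (Fr n)} {f : MulAut G}, Pair h f' f → f ∈ MMs h → ∀ y ∈ S,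
      f' y ∈ S := by
    intro f' f hp hf y hy
    obtain ⟨k, hk⟩ := hp.fX y
    have h1 : f * XX h y * f⁻¹ ∈ MMs h :=
      Subgroup.mul_mem _ (Subgroup.mul_mem _ hf hy) (Subgroup.inv_mem _ hf)
    rw [hk] at h1
    exact (Subgroup.mul_mem_cancel_right _ (hTT k)).mp h1
  have hA : ∀ j, of (Sum.inr j) ∈ S → of (Sum.inl j) ∈ S := by
    intro j hj
    have hC : TA h j.castSucc ∈ MMs h := Subgroup.subset_closure (Or.inr (Or.inl ⟨_, rfl⟩))
    have h1 := hS (pair_TA h j) hC _ hj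
    rw [FA_self] at h1
    exact (Subgroup.mul_mem_cancel_left _ hj).mp h1
  have hdown : ∀ d : ℕ, ∀ j : Fin n, (j : ℕ) + 1 + d = n → of (Sum.inr j) ∈ S := by
    intro d
    induction d with
    | zero =>
      intro j hj
      have hj' : ((Fin.last n : Fin (n + 1)) : ℕ) = j.castSucc + 1 := by
        simp only [Fin.val_last, Fin.val_castSucc]; omega
      change XX h (of (Sum.inr j)) ∈ MMs h
      rw [XX_b]
      have h1 := X0_eq h j hj'
      have h2 : Xb h j = TC h j.castSucc (Fin.last n) hj' * (TB h j.castSucc)⁻¹ := by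
        rw [← h1, mul_inv_cancel_right]
      rw [h2]
      exact Subgroup.mul_mem _
        (Subgroup.subset_closure (Or.inr (Or.inr (Or.inr ⟨_, _, _, rfl⟩))))
        (Subgroup.inv_mem _ (Subgroup.subset_closure (Or.inr (Or.inr (Or.inl ⟨_, rfl⟩)))))
    | succ d ih =>
      intro j hj
      have hj1 : (j : ℕ) + 1 < n := by omega
      let j' : Fin n := ⟨j + 1, hj1⟩
      have hij : (j' : ℕ) = j + 1 := rfl
      have h1 := ih j' (by simp only [j']; omega)
      have hC : TCc h hij ∈ MMs h :=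
        Subgroup.subset_closure (Or.inr (Or.inr (Or.inr ⟨_, _, _, rfl⟩)))
      have h2 := hS (pair_TC h hij) hC _ h1
      rw [FC_bj] at h2
      have h3 := (Subgroup.mul_mem_cancel_left _ h1).mp h2
      exact (Subgroup.mul_mem_cancel_left _ (Subgroup.inv_mem _ (hA _ h1))).mp h3
  have hall : ∀ j : Fin n, of (Sum.inr j) ∈ S := by
    intro j
    have := j.2
    exact hdown (n - 1 - j) j (by omega)
  induction y using fr_induction with
  | h1 => exact S.one_mem
  | ha k => exact hA k (hall k)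
  | hb k => exact hall k
  | hm x y hx hy => rw [map_mul]; exact Subgroup.mul_mem _ hx hy
  | hi x hx => rw [map_inv]; exact Subgroup.inv_mem _ hx

end sub

end Pool.MP_59b15d_al.H76R
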