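import Mathlib
import Pool.Agent.H.MP_59b15d_al.h76r.Defs
import Pool.Agent.H.MP_59b15d_al.h76r.Rr
import Pool.Agent.H.MP_59b15d_al.h76r.Sb

set_option autoImplicit false

namespace Pool.MP_59b15d_al.H76R

open Pool.MP_59b15d_al.H24T Pool.MP_59b15d_al.H76
open FreeGroup (of)

section sub

variable {n : ℕ} {G : Type*} [Group G] {a b : Fin (n + 1) → G} (h : IsSurf a b)

/-- The inclusion of the free groups. -/
def jm (n m : ℕ) (hm : m ≤ n) : FreeGroup (Fin m ⊕ Fin m) →* Fr n :=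
  FreeGroup.lift (Sum.elim (fun k => of (Sum.inl (Fin.castLE hm k)))
    (fun k => of (Sum.inr (Fin.castLE hm k))))

/-- The retraction of the free groups. -/
def rm (n m : ℕ) : Fr n →* FreeGroup (Fin m ⊕ Fin m) :=
  FreeGroup.lift (Sum.elim (fun k => if hk : (k : ℕ) < m then of (Sum.inl ⟨k, hk⟩) else 1)
    (fun k => if hk : (k : ℕ) < m then of (Sum.inr ⟨k, hk⟩) else 1))

theorem jR_jm (m : ℕ) (hm : m ≤ n) (hm' : m ≤ n + 1) (z : FreeGroup (Fin m ⊕ Fin m)) :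
    jR a b (jm n m hm z) = subHom a b m hm' z := by
  have h1 : (jR a b).comp (jm n m hm) = subHom a b m hm' := by
    ext1 x
    rcases x with k | k
    · simp only [MonoidHom.comp_apply, jm, subHom, FreeGroup.lift_apply_of, Sum.elim_inl, jR_a]
      rfl
    · simp only [MonoidHom.comp_apply, jm, subHom, FreeGroup.lift_apply_of, Sum.elim_inr, jR_b]
      rfl
  exact DFunLike.congr_fun h1 z

theorem rm_jm (m : ℕ) (hm : m ≤ n) (z : FreeGroup (Fin m ⊕ Fin m)) :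
    rm n m (jm n m hm z) = z := by
  have h1 : (rm n m).comp (jm n m hm) = MonoidHom.id _ := by
    ext1 x
    rcases x with k | k
    · simp [jm, rm]
    · simp [jm, rm]
  exact DFunLike.congr_fun h1 z

theorem jm_rm (m : ℕ) (hm : m ≤ n) (x : Fr n) (hx : x ∈ FL n m) :
    jm n m hm (rm n m x) = x := by
  have h1 : FL n m ≤ MonoidHom.eqLocus ((jm n m hm).comp (rm n m)) (MonoidHom.id _) := by
    rw [FL, Subgroup.closure_le]
    rintro z ⟨k, hk, rfl | rfl⟩
    · change jm n m hm (rm n m _) = _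
      simp [jm, rm, hk]
    · change jm n m hm (rm n m _) = _
      simp [jm, rm, hk]
  exact h1 hx

theorem jm_FL (m : ℕ) (hm : m ≤ n) (z : FreeGroup (Fin m ⊕ Fin m)) : jm n m hm z ∈ FL n m := by
  induction z using FreeGroup.induction_on with
  | C1 => rw [map_one]; exact Subgroup.one_mem _
  | of i =>
    rcases i with k | k
    · simp only [jm, FreeGroup.lift_apply_of, Sum.elim_inl]
      exact a_FL k.2
    · simp only [jm, FreeGroup.lift_apply_of, Sum.elim_inr]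
      exact b_FL k.2
  | inv_of i hx => rw [map_inv]; exact Subgroup.inv_mem _ hx
  | mul x y hx hy => rw [map_mul]; exact Subgroup.mul_mem _ hx hy

theorem normal_le_fi {P : Type*} [Group P] (W : Subgroup P) (hW : W.FiniteIndex) :
    ∃ W₀ : Subgroup P, W₀.Normal ∧ W₀.FiniteIndex ∧ W₀ ≤ W :=
  ⟨W.normalCore, inferInstance, inferInstance, Subgroup.normalCore_le W⟩

theorem conj_replace {P : Type*} [Group P] {Γ : Subgroup P} (hn : Γ.Normal) {φ : P → P} {w c : P}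
    (hw : ∀ x, φ x * (w * x * w⁻¹)⁻¹ ∈ Γ) (hl : w * c ∈ Γ) (x : P) :
    φ x * (c⁻¹ * x * c⁻¹⁻¹)⁻¹ ∈ Γ := by
  let π : P →* P ⧸ Γ := QuotientGroup.mk' Γ
  have hπ : ∀ z, π z = 1 ↔ z ∈ Γ := fun z => QuotientGroup.eq_one_iff z
  have h3 := (hπ _).mpr (hw x)
  have h4 := (hπ _).mpr hl
  rw [map_mul, mul_eq_one_iff_eq_inv] at h4
  rw [map_mul, map_inv, map_mul, map_mul, map_inv, h4] at h3
  rw [← hπ, map_mul, map_inv, map_mul, map_mul, map_inv, map_inv]
  exact h3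

include h in
/-- Automorphisms of the subsurface that are close to being central act almost trivially. -/
theorem MR_ac (hn0 : 0 < n) (m : ℕ) (hm : m ≤ n) (hm' : m ≤ n + 1)
    (W : Subgroup (FreeGroup (Fin m ⊕ Fin m))) (hW : W.FiniteIndex) :
    ∃ (Γ : Subgroup G) (hc : Γ.Characteristic), Γ.FiniteIndex ∧ ∀ f ∈ MR h m,
      (∀ ψ ∈ MMs h, f * ψ * f⁻¹ * ψ⁻¹ ∈ congSub Γ hc) →
      ∀ z, ∃ w ∈ W, f (subHom a b m hm' z) = subHom a b m hm' (w * z) := by
  have hGfg : Group.FG G := surf_fg h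
  obtain ⟨W₀, hWn, hWf, hWle⟩ := normal_le_fi W hW
  let U₀ : Subgroup (Fr n) := W₀.comap (rm n m)
  have u1 : U₀.Normal := inferInstance
  have u2 : U₀.FiniteIndex := comap_fi _ hWf
  let i0 : Fin n := ⟨0, hn0⟩
  obtain ⟨U', hU'n, hU'f, hU'le, hcen⟩ := free_center (Sum.inl i0 : Fin n ⊕ Fin n) (Sum.inr i0)
    (by simp) U₀
  obtain ⟨Γ₀, h0n, h0f, -, hdet⟩ := detect h U' hU'n hU'f
  obtain ⟨Γ₂, h2n, h2f, hcs⟩ := CS_aP h hn0 Γ₀ h0n h0f
  obtain ⟨Γ, hΓc, hΓf, hΓ⟩ := exists_char_le (Γ₂ ⊓ Γ₀) inferInstance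
  refine ⟨Γ, hΓc, hΓf, ?_⟩
  intro f hf hcom
  obtain ⟨f', hLP, hFL, -⟩ := MR_LQ h hm f hf
  -- the action on the free group is trivial modulo `U₀`
  have key : ∀ y : Fr n, f' y * y⁻¹ ∈ U₀ := by
    intro y
    obtain ⟨k, hk⟩ := hLP.pair.fX y
    have h1 := hcom (XX h y) (XX_mem h y)
    have h2 : f * XX h y * f⁻¹ * (XX h y)⁻¹ = XX h (f' y * y⁻¹) * TT h ^ k * 1 := by
      have hc := (((TT_XX h y).zpow_left k).inv_right).eq
      rw [hk, mul_assoc, hc, map_mul, map_inv]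
      group
    rw [h2, mem_congSub] at h1
    obtain ⟨w, hw⟩ := h1
    have hfa : (XX h (f' y * y⁻¹) * TT h ^ k * 1) (aP a b) = aP a b := by
      rw [mul_one, MulAut.mul_apply, TT_aP, XX_aP]
    have hw1 : w * aP a b * w⁻¹ * (aP a b)⁻¹ ∈ Γ₂ := by
      have h3 := (hΓ (hw (aP a b))).1
      rw [hfa] at h3
      have h4 := Γ₂.inv_mem h3
      rw [mul_inv_rev, inv_inv] at h4
      exact h4
    obtain ⟨l, hl⟩ := hcs w hw1
    have hw2 : ∀ x, (XX h (f' y * y⁻¹) * TT h ^ k * 1) x *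
        (aP a b ^ (-l) * x * (aP a b ^ (-l))⁻¹)⁻¹ ∈ Γ₀ := by
      intro x
      rw [zpow_neg]
      exact conj_replace h0n (fun x => (hΓ (hw x)).2) hl x
    obtain ⟨d1, d2⟩ := hdet (f' y * y⁻¹) k (-l) 1 1 (fun _ => rfl) rfl hw2
    have h5 : ∀ z : Fr n, dl n ^ (-l) * z * (dl n ^ (-l))⁻¹ * z⁻¹ ∈ U' := by
      intro z
      have h6 := U'.inv_mem (d1 z)
      rw [mul_inv_rev, inv_inv] at h6
      exact h6
    have h7 := hcen (dl n ^ (-l)) (h5 _) (h5 _)
    have h8 := U₀.mul_mem (hU'le d2) (U₀.inv_mem h7)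
    rwa [mul_inv_cancel_right] at h8
  intro z
  refine ⟨rm n m (f' (jm n m hm z) * (jm n m hm z)⁻¹), hWle (key _), ?_⟩
  have e1 : rm n m (f' (jm n m hm z) * (jm n m hm z)⁻¹) * z = rm n m (f' (jm n m hm z)) := by
    rw [map_mul, map_inv, rm_jm, inv_mul_cancel_right]
  rw [e1, ← jR_jm m hm hm', ← jR_jm m hm hm', hLP.pair.fj,
    jm_rm m hm _ (hFL _ (jm_FL m hm z))]

include h in
/-- Automorphisms of the subsurface acting almost trivially are almost central. -/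
theorem MR_ca (m : ℕ) (hm : m ≤ n) (hm' : m ≤ n + 1) (N : Subgroup (MulAut G))
    (hn : N.Normal) (hf : N.FiniteIndex) (hI : ∀ x : G, MulAut.conj x ∈ N) :
    ∃ W : Subgroup (FreeGroup (Fin m ⊕ Fin m)), W.FiniteIndex ∧ ∀ f ∈ MR h m,
      (∀ z, ∃ w ∈ W, f (subHom a b m hm' z) = subHom a b m hm' (w * z)) →
      ∀ ψ ∈ MMs h, f * ψ * f⁻¹ * ψ⁻¹ ∈ N := by
  obtain ⟨U, hUc, hUf, hU⟩ := T1plus h N hn hf hI
  have hUn : U.Normal := inferInstance
  obtain ⟨Γ, -, -, hΓ, -⟩ := detect h U hUn hUf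
  refine ⟨U.comap (jm n m hm), comap_fi _ hUf, ?_⟩
  intro f hf2 hact
  obtain ⟨f', hLP, -, -⟩ := MR_LQ h hm f hf2
  refine hU f' f hLP.pair ?_
  let π : Fr n →* Fr n ⧸ U := QuotientGroup.mk' U
  have hπ : ∀ z, π z = 1 ↔ z ∈ U := fun z => QuotientGroup.eq_one_iff z
  have hmem : ∀ z : FreeGroup (Fin m ⊕ Fin m), π (f' (jm n m hm z)) = π (jm n m hm z) := by
    intro z
    obtain ⟨w, hw, hw2⟩ := hact z
    rw [← jR_jm m hm hm', ← jR_jm m hm hm', hLP.pair.fj] at hw2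
    have h3 : f' (jm n m hm z) * (jm n m hm (w * z))⁻¹ ∈ U := by
      apply hΓ
      rw [map_mul, map_inv, hw2, mul_inv_cancel]
      exact Γ.one_mem
    have h4 := (hπ _).mpr h3
    rw [map_mul, map_inv, mul_inv_eq_one] at h4
    rw [h4, map_mul, map_mul, (hπ _).mpr hw, one_mul]
  have key : ∀ x : Fin n ⊕ Fin n, π (f' (of x)) = π (of x) := by
    rintro (k | k)
    · by_cases hk : (k : ℕ) < m
      · have h1 := hmem (of (Sum.inl ⟨k, hk⟩))
        have h2 : jm n m hm (of (Sum.inl ⟨k, hk⟩)) = of (Sum.inl k) := by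
          simp [jm]
        rwa [h2] at h1
      · rw [(hLP.ff k hk).1]
    · by_cases hk : (k : ℕ) < m
      · have h1 := hmem (of (Sum.inr ⟨k, hk⟩))
        have h2 : jm n m hm (of (Sum.inr ⟨k, hk⟩)) = of (Sum.inr k) := by
          simp [jm]
        rwa [h2] at h1
      · rw [(hLP.ff k hk).2]
  have h5 : π.comp f'.toMonoidHom = π := by
    ext1 x
    exact key x
  intro z
  rw [← hπ, map_mul, map_inv, mul_inv_eq_one]
  exact DFunLike.congr_fun h5 z

include h in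
/-- Automorphisms of the subsurface acting almost trivially on it are inner modulo `Γ`. -/
theorem MR_ab (m : ℕ) (hm : m ≤ n) (hm' : m ≤ n + 1) (Γ : Subgroup G) (hc : Γ.Characteristic)
    (hf : Γ.FiniteIndex) :
    ∃ W : Subgroup (FreeGroup (Fin m ⊕ Fin m)), W.FiniteIndex ∧ ∀ f ∈ MR h m,
      (∀ z, ∃ w ∈ W, f (subHom a b m hm' z) = subHom a b m hm' (w * z)) → InnMod Γ f := by
  refine ⟨Γ.comap (subHom a b m hm'), comap_fi _ hf, ?_⟩
  intro f hf2 hact
  obtain ⟨f', hLP, -, -⟩ := MR_LQ h hm f hf2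
  have hn : Γ.Normal := inferInstance
  let π : G →* G ⧸ Γ := QuotientGroup.mk' Γ
  have hπ : ∀ z, π z = 1 ↔ z ∈ Γ := fun z => QuotientGroup.eq_one_iff z
  have hmem : ∀ z : FreeGroup (Fin m ⊕ Fin m),
      π (f (subHom a b m hm' z)) = π (subHom a b m hm' z) := by
    intro z
    obtain ⟨w, hw, hw2⟩ := hact z
    rw [hw2, map_mul, map_mul, (hπ _).mpr hw, one_mul]
  have h5 : π.comp f.toMonoidHom = π := by
    apply hom_ext h
    · intro k
      change π (f _) = π _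
      by_cases hk : (k : ℕ) < m
      · have h1 := hmem (of (Sum.inl ⟨k, hk⟩))
        have h2 : subHom a b m hm' (of (Sum.inl ⟨k, hk⟩)) = a k := by
          simp [subHom]
        rwa [h2] at h1
      · rw [hLP.fix _ (a_GHi hk)]
    · intro k
      change π (f _) = π _
      by_cases hk : (k : ℕ) < m
      · have h1 := hmem (of (Sum.inr ⟨k, hk⟩))
        have h2 : subHom a b m hm' (of (Sum.inr ⟨k, hk⟩)) = b k := by
          simp [subHom]
        rwa [h2] at h1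
      · rw [hLP.fix _ (b_GHi hk)]
  refine ⟨1, fun x => ?_⟩
  rw [one_mul, inv_one, mul_one, ← hπ, map_mul, map_inv, mul_inv_eq_one]
  exact DFunLike.congr_fun h5 x

/-- The mapping class group of the subsurface lies in the stabiliser of the curve. -/
theorem MR_le_Ea (m : ℕ) (hm : m ≤ n) : MR h m ≤ Ea h := by
  rw [MR, Subgroup.closure_le]
  rintro T (⟨i, hi, rfl⟩ | ⟨i, hi, rfl⟩ | ⟨i, j, hij, hj, rfl⟩)
  · exact Subgroup.subset_closure (Or.inr (Or.inl ⟨i, rfl⟩))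
  · have hin : (i : ℕ) < n := by omega
    exact Subgroup.subset_closure (Or.inr (Or.inr (Or.inl ⟨⟨i, hin⟩, rfl⟩)))
  · exact Subgroup.subset_closure (Or.inr (Or.inr (Or.inr ⟨i, j, hij, rfl⟩)))

end sub

end Pool.MP_59b15d_al.H76R
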