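import Mathlib
import Pool.Agent.H.MP_59b15d_al.h76r.Sa
import Pool.Agent.H.MP_59b15d_al.h76r.Sc

set_option autoImplicit false

namespace Pool.MP_59b15d_al.H76R

open Pool.MP_59b15d_al.H24T Pool.MP_59b15d_al.H76
open FreeGroup (of)

section bridge

variable {g : ℕ} {G : Type*} [Group G] {a b : Fin g → G}

theorem isA_iff (h : IsSurf a b) (i : Fin g) (T : MulAut G) : IsA a b i T ↔ T = TA h i := by
  constructor
  · rintro ⟨h1, h2, h3⟩
    apply aut_ext h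
    · intro k
      rw [h2, TA_a]
    · intro k
      by_cases hk : k = i
      · subst hk
        rw [h1, TA_b]
      · rw [h3 k hk, TA_b_ne h hk]
  · rintro rfl
    exact ⟨TA_b h i, TA_a h i, fun k hk => TA_b_ne h hk⟩

theorem isB_iff (h : IsSurf a b) (i : Fin g) (T : MulAut G) : IsB a b i T ↔ T = TB h i := by
  constructor
  · rintro ⟨h1, h2, h3⟩
    apply aut_ext h
    · intro k
      by_cases hk : k = i
      · subst hk
        rw [h1, TB_a]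
      · rw [h3 k hk, TB_a_ne h hk]
    · intro k
      rw [h2, TB_b]
  · rintro rfl
    exact ⟨TB_a h i, TB_b h i, fun k hk => TB_a_ne h hk⟩

theorem isC_iff (h : IsSurf a b) (i j : Fin g) (hij : (j : ℕ) = i + 1) (T : MulAut G) :
    IsC a b i j T ↔ T = TC h i j hij := by
  constructor
  · rintro ⟨u, rfl, h1, h2, h3, h4, h5⟩
    apply aut_ext h
    · intro k
      by_cases hk : k = i
      · subst hk
        rw [h1, TC_ai]
      · by_cases hk2 : k = j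
        · subst hk2
          rw [h3, TC_aj]
        · rw [(h5 k hk hk2).1, TC_a_ne h hij hk hk2]
    · intro k
      by_cases hk : k = i
      · subst hk
        rw [h2, TC_bi]
      · by_cases hk2 : k = j
        · subst hk2
          rw [h4, TC_bj]
        · rw [(h5 k hk hk2).2, TC_b_ne h hij hk hk2]
  · rintro rfl
    exact ⟨_, rfl, TC_ai h i j hij, TC_bi h i j hij, TC_aj h i j hij, TC_bj h i j hij,
      fun k hk hk2 => ⟨TC_a_ne h hij hk hk2, TC_b_ne h hij hk hk2⟩⟩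

theorem Twists_eq (h : IsSurf a b) (P Q R : ℕ → Prop) : Twists a b P Q R =
    {T | (∃ i : Fin g, P i ∧ T = TA h i) ∨ (∃ i : Fin g, Q i ∧ T = TB h i) ∨
      ∃ (i j : Fin g) (hij : (j : ℕ) = i + 1), R j ∧ T = TC h i j hij} := by
  ext T
  constructor
  · rintro (⟨i, hi, h1⟩ | ⟨i, hi, h1⟩ | ⟨i, j, hij, hj, h1⟩)
    · exact Or.inl ⟨i, hi, (isA_iff h i T).mp h1⟩
    · exact Or.inr (Or.inl ⟨i, hi, (isB_iff h i T).mp h1⟩)
    · exact Or.inr (Or.inr ⟨i, j, hij, hj, (isC_iff h i j hij T).mp h1⟩)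
  · rintro (⟨i, hi, h1⟩ | ⟨i, hi, h1⟩ | ⟨i, j, hij, hj, h1⟩)
    · exact Or.inl ⟨i, hi, (isA_iff h i T).mpr h1⟩
    · exact Or.inr (Or.inl ⟨i, hi, (isB_iff h i T).mpr h1⟩)
    · exact Or.inr (Or.inr ⟨i, j, hij, hj, (isC_iff h i j hij T).mpr h1⟩)

theorem MCG_eq (h : IsSurf a b) : MCG a b = MMs h := by
  rw [MCG, MMs, Twists_eq h]
  simp only [true_and]

/-- Change of the generating system. -/
theorem Twists_change {a' b' : Fin g → G} (ψ : MulAut G) (ha : ∀ i, ψ (a i) = a' i)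
    (hb : ∀ i, ψ (b i) = b' i) (P Q R : ℕ → Prop) (T : MulAut G) (hT : T ∈ Twists a' b' P Q R) :
    ψ⁻¹ * T * ψ ∈ Twists a b P Q R := by
  have hai : ∀ j, ψ⁻¹ (a' j) = a j := fun j => by
    rw [← ha, MulAut.inv_apply_self]
  have hbi : ∀ j, ψ⁻¹ (b' j) = b j := fun j => by
    rw [← hb, MulAut.inv_apply_self]
  rcases hT with ⟨i, hi, h1, h2, h3⟩ | ⟨i, hi, h1, h2, h3⟩ | ⟨i, j, hij, hj, u, hu, h1, h2, h3, h4, h5⟩
  · refine Or.inl ⟨i, hi, ?_, fun k => ?_, fun k hk => ?_⟩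
    · simp only [MulAut.mul_apply, hb, h1, map_mul, hai, hbi]
    · simp only [MulAut.mul_apply, ha, h2, hai]
    · simp only [MulAut.mul_apply, hb, h3 k hk, hbi]
  · refine Or.inr (Or.inl ⟨i, hi, ?_, fun k => ?_, fun k hk => ?_⟩)
    · simp only [MulAut.mul_apply, ha, h1, map_mul, hai, hbi]
    · simp only [MulAut.mul_apply, hb, h2, hbi]
    · simp only [MulAut.mul_apply, ha, h3 k hk, hai]
  · have hui : ψ⁻¹ u = (a j)⁻¹ * b i := by
      rw [hu, map_mul, map_inv, hai, hbi]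
    refine Or.inr (Or.inr ⟨i, j, hij, hj, _, rfl, ?_, ?_, ?_, ?_, fun k hk hk2 => ⟨?_, ?_⟩⟩)
    · simp only [MulAut.mul_apply, ha, h1, map_mul, hai, hui]
    · simp only [MulAut.mul_apply, hb, h2, map_mul, map_inv, hai, hui]
    · simp only [MulAut.mul_apply, ha, h3, map_mul, map_inv, hai, hui]
    · simp only [MulAut.mul_apply, hb, h4, map_mul, hbi, hui]
    · simp only [MulAut.mul_apply, ha, (h5 k hk hk2).1, hai]
    · simp only [MulAut.mul_apply, hb, (h5 k hk hk2).2, hbi]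

theorem closure_change {a' b' : Fin g → G} (ψ : MulAut G) (ha : ∀ i, ψ (a i) = a' i)
    (hb : ∀ i, ψ (b i) = b' i) (P Q R : ℕ → Prop) (φ : MulAut G)
    (hφ : φ ∈ Subgroup.closure (Set.range (MulAut.conj : G → MulAut G) ∪ Twists a' b' P Q R)) :
    ψ⁻¹ * φ * ψ ∈
      Subgroup.closure (Set.range (MulAut.conj : G → MulAut G) ∪ Twists a b P Q R) := by
  set S := Subgroup.closure (Set.range (MulAut.conj : G → MulAut G) ∪ Twists a b P Q R) with hS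
  have hle : Subgroup.closure (Set.range (MulAut.conj : G → MulAut G) ∪ Twists a' b' P Q R) ≤
      S.comap (MulAut.conj ψ⁻¹).toMonoidHom := by
    rw [Subgroup.closure_le]
    rintro T (⟨y, rfl⟩ | hT)
    · change ψ⁻¹ * MulAut.conj y * ψ⁻¹⁻¹ ∈ S
      rw [conj_comm_G, mul_inv_cancel_right]
      exact Subgroup.subset_closure (Or.inl ⟨_, rfl⟩)
    · change ψ⁻¹ * T * ψ⁻¹⁻¹ ∈ S
      rw [inv_inv]
      exact Subgroup.subset_closure (Or.inr (Twists_change ψ ha hb P Q R T hT))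
  have h1 := hle hφ
  change ψ⁻¹ * φ * ψ⁻¹⁻¹ ∈ S at h1
  rwa [inv_inv] at h1

end bridge

section bridge2

variable {n : ℕ} {G : Type*} [Group G] {a b : Fin (n + 1) → G}

theorem StabA_eq (h : IsSurf a b) : StabA a b = Ea h := by
  rw [StabA, Ea, Twists_eq h]
  congr 2
  ext T
  simp only [true_and]
  have : (∃ i : Fin (n + 1), (i : ℕ) + 1 < n + 1 ∧ T = TB h i) ↔
      ∃ i : Fin n, T = TB h i.castSucc := by
    constructor
    · rintro ⟨i, hi, hT⟩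
      exact ⟨⟨i, by omega⟩, hT⟩
    · rintro ⟨i, hT⟩
      exact ⟨i.castSucc, by simp, hT⟩
  exact or_congr Iff.rfl (or_congr this Iff.rfl)

theorem StabC_eq (h : IsSurf a b) (m : ℕ) : StabC a b m = Ec h m := by
  rw [StabC, Ec, Twists_eq h]
  simp only [true_and]

theorem SubMod_eq (h : IsSurf a b) (m : ℕ) : SubMod a b m = MR h m := by
  rw [SubMod, MR, Twists_eq h]

/-- The main theorem for one normal subgroup and one generating system. -/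
theorem main_one (h : IsSurf a b) (hn0 : 0 < n) (N : Subgroup (MulAut G))
    (hn : N.Normal) (hf : N.FiniteIndex) (hI : ∀ x : G, MulAut.conj x ∈ N) :
    ∃ Γ : Subgroup G, Γ.Characteristic ∧ Γ.FiniteIndex ∧ ∀ φ,
      (φ ∈ StabA a b ∨ ∃ m, 0 < m ∧ m < n + 1 ∧ φ ∈ StabC a b m) → InnMod Γ φ →
      ∀ ψ ∈ MCG a b, φ * ψ * φ⁻¹ * ψ⁻¹ ∈ N := by
  have hGfg : Group.FG G := surf_fg h
  obtain ⟨Γ₁, h1c, h1f, h1⟩ := T2a h hn0 N hn hf hI
  have h2 : ∀ m : Fin (n + 1), ∃ Γ : Subgroup G, Γ.FiniteIndex ∧ (0 < (m : ℕ) → ∀ φ ∈ Ec h m,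
      InnMod Γ φ → ∀ ψ ∈ MMs h, φ * ψ * φ⁻¹ * ψ⁻¹ ∈ N) := by
    intro m
    by_cases hm : 0 < (m : ℕ)
    · obtain ⟨Γ, hc, hf, hΓ⟩ := T2c h m hm (by omega) N hn hf hI
      exact ⟨Γ, hf, fun _ => hΓ⟩
    · exact ⟨⊤, inferInstance, fun h3 => absurd h3 hm⟩
  choose Γm hm1 hm2 using h2
  have h3 : (⨅ m, Γm m).FiniteIndex := Subgroup.finiteIndex_iInf hm1
  obtain ⟨Γ, hc, hf, hΓ⟩ := exists_char_le (Γ₁ ⊓ ⨅ m, Γm m) inferInstance
  refine ⟨Γ, hc, hf, ?_⟩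
  rintro φ (hφ | ⟨m, hm0, hmn, hφ⟩) hin ψ hψ
  · rw [MCG_eq h] at hψ
    rw [StabA_eq h] at hφ
    exact h1 φ hφ (innMod_mono (hΓ.trans inf_le_left) hin) ψ hψ
  · rw [MCG_eq h] at hψ
    rw [StabC_eq h] at hφ
    exact hm2 ⟨m, hmn⟩ hm0 φ hφ
      (innMod_mono ((hΓ.trans inf_le_right).trans (iInf_le _ _)) hin) ψ hψ

/-- The main theorem, uniformly over all systems of standard generators. -/
theorem main_all (h : IsSurf a b) (hn0 : 0 < n) (H : Subgroup (MulAut G))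
    (hf : H.FiniteIndex) (hI : ∀ x : G, MulAut.conj x ∈ H) :
    ∃ Γ : Subgroup G, Γ.Characteristic ∧ Γ.FiniteIndex ∧ ∀ a' b' : Fin (n + 1) → G,
      IsSurf a' b' → ∀ φ, (φ ∈ StabA a' b' ∨ ∃ m, 0 < m ∧ m < n + 1 ∧ φ ∈ StabC a' b' m) →
      InnMod Γ φ → ∀ ψ ∈ MCG a' b', φ * ψ * φ⁻¹ * ψ⁻¹ ∈ H := by
  have hI₀ : ∀ x : G, MulAut.conj x ∈ H.normalCore := by
    intro x ψ
    rw [conj_comm_G, mul_inv_cancel_right]
    exact hI _
  have hn : H.normalCore.Normal := inferInstance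
  obtain ⟨Γ, hc, hf, hΓ⟩ := main_one h hn0 H.normalCore hn inferInstance hI₀
  refine ⟨Γ, hc, hf, ?_⟩
  intro a' b' h' φ hφ hin ψ hψ
  obtain ⟨θ, ha, hb⟩ := exists_change h h'
  have h1 : θ⁻¹ * φ * θ ∈ StabA a b ∨ ∃ m, 0 < m ∧ m < n + 1 ∧ θ⁻¹ * φ * θ ∈ StabC a b m := by
    rcases hφ with hφ | ⟨m, hm0, hmn, hφ⟩
    · exact Or.inl (closure_change θ ha hb _ _ _ φ hφ)
    · exact Or.inr ⟨m, hm0, hmn, closure_change θ ha hb _ _ _ φ hφ⟩
  have h2 : InnMod Γ (θ⁻¹ * φ * θ) := by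
    have := (congSub_normal hc).conj_mem φ hin θ⁻¹
    rwa [inv_inv] at this
  have h3 : θ⁻¹ * ψ * θ ∈ MCG a b := closure_change θ ha hb _ _ _ ψ hψ
  have h4 := hn.conj_mem _ (hΓ _ h1 h2 _ h3) θ
  have e : θ * (θ⁻¹ * φ * θ * (θ⁻¹ * ψ * θ) * (θ⁻¹ * φ * θ)⁻¹ * (θ⁻¹ * ψ * θ)⁻¹) * θ⁻¹ =
      φ * ψ * φ⁻¹ * ψ⁻¹ := by group
  rw [e] at h4
  exact Subgroup.normalCore_le H h4

/-- The congruence topology of the mapping class group of a subsurface. -/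
theorem sub_tfae (h : IsSurf a b) (hn0 : 0 < n) (m : ℕ) (hm : m ≤ n) (hm' : m ≤ n + 1)
    (K : Subgroup (MulAut G)) :
    List.TFAE [
      ∃ W : Subgroup (FreeGroup (Fin m ⊕ Fin m)), W.FiniteIndex ∧ ∀ f ∈ SubMod a b m,
        (∀ z, ∃ w ∈ W, f (subHom a b m hm' z) = subHom a b m hm' (w * z)) → f ∈ K,
      ∃ Γ : Subgroup G, Γ.Characteristic ∧ Γ.FiniteIndex ∧ ∀ f ∈ SubMod a b m,
        InnMod Γ f → f ∈ K,
      ∃ H : Subgroup (MulAut G), H.FiniteIndex ∧ (∀ x : G, MulAut.conj x ∈ H) ∧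
        ∀ f ∈ SubMod a b m, (∀ ψ ∈ MCG a b, f * ψ * f⁻¹ * ψ⁻¹ ∈ H) → f ∈ K] := by
  rw [SubMod_eq h, MCG_eq h]
  tfae_have 1 → 3 := by
    rintro ⟨W, hW, hK⟩
    obtain ⟨Γ, hc, hf, hΓ⟩ := MR_ac h hn0 m hm hm' W hW
    exact ⟨congSub Γ hc, congSub_finiteIndex hc hf, fun x => conj_innMod Γ x,
      fun f hf1 hf2 => hK f hf1 (hΓ f hf1 hf2)⟩
  tfae_have 3 → 2 := by
    rintro ⟨H, hH, hI, hK⟩
    obtain ⟨Γ, hc, hf, hΓ⟩ := main_all h hn0 H hH hI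
    refine ⟨Γ, hc, hf, fun f hf1 hf2 => hK f hf1 ?_⟩
    intro ψ hψ
    rw [← MCG_eq h] at hψ
    refine hΓ a b h f (Or.inl ?_) hf2 ψ hψ
    rw [StabA_eq h]
    exact MR_le_Ea h m hm hf1
  tfae_have 2 → 1 := by
    rintro ⟨Γ, hc, hf, hK⟩
    obtain ⟨W, hW, hΓ⟩ := MR_ab h m hm hm' Γ hc hf
    exact ⟨W, hW, fun f hf1 hf2 => hK f hf1 (hΓ f hf1 hf2)⟩
  tfae_finish

end bridge2

end Pool.MP_59b15d_al.H76R
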